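import Pool.Agent.W374.FbsCh

/-!
# FBS-10: from algebraic chains to the Borsuk-Ulam property
-/

set_option autoImplicit false

namespace Pool.Agent.W374.FBS

open Relation Pool.Agent.W435.FB

variable {q : ℕ}

/-- translation -/
def tr (q : ℕ) (x : ZMod q) : ZMod q := x + 1

theorem tr_iter (j : ℕ) (x : ZMod q) : (tr q)^[j] x = x + j := by
  induction j with
  | zero => simp
  | succ j ih => rw [Function.iterate_succ_apply', ih, tr]; push_cast; ring

/-- cochains -/
noncomputable def Lf (t : List (ZMod q) → ZMod q) :
    (List (ZMod q) →₀ ZMod q) →ₗ[ZMod q] ZMod q := Finsupp.linearCombination (ZMod q) t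

theorem Lf_single (t : List (ZMod q) → ZMod q) (l : List (ZMod q)) (a : ZMod q) :
    Lf t (Finsupp.single l a) = a * t l := by
  simp [Lf]

/-- degenerate lists -/
def Dg (l : List (ZMod q)) : Prop := ¬ l.IsChain (· ≠ ·)

theorem Dg_cons {x : ZMod q} {l : List (ZMod q)} (h : Dg l) : Dg (x :: l) := by
  intro h1
  exact h h1.tail

theorem dg_vanish (l : List (ZMod q)) : ∀ F : (List (ZMod q) →₀ ZMod q) →ₗ[ZMod q] ZMod q,
    (∀ l', Dg l' → F (Finsupp.single l' 1) = 0) → Dg l → F (bdl q l) = 0 := by
  induction l with
  | nil => intro F _ _; rw [bdl_nil, map_zero]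
  | cons x l ih =>
    intro F hF hl
    by_cases h : Dg l
    · rw [bdl_cons, map_sub, hF l h, zero_sub, neg_eq_zero]
      exact ih (F.comp (cn q x)) (fun l' hl' => by
        rw [LinearMap.comp_apply, cn_single]
        exact hF _ (Dg_cons hl')) h
    · rcases l with _ | ⟨y, l⟩
      · exact absurd (List.isChain_singleton x) hl
      · have hxy : x = y := by
          by_contra hne
          exact hl (List.isChain_cons_cons.2 ⟨hne, not_not.1 h⟩)
        subst hxy
        have e : bdl q (x :: x :: l) = cn q x (cn q x (bdl q l)) := by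
          rw [bdl_cons, bdl_cons, map_sub, cn_single]
          abel
        rw [e]
        have : (F.comp (cn q x)).comp (cn q x) = 0 := by
          apply lin_ext
          intro l'
          rw [LinearMap.comp_apply, LinearMap.comp_apply, cn_single, cn_single]
          exact hF _ (fun h => (List.isChain_cons_cons.1 h).1 rfl)
        exact LinearMap.congr_fun this (bdl q l)

/-- translate of a list -/
def tl (j : ZMod q) (l : List (ZMod q)) : List (ZMod q) := l.map (· + j)

theorem tl_tl (i j : ZMod q) (l : List (ZMod q)) : tl i (tl j l) = tl (j + i) l := by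
  unfold tl
  rw [List.map_map]
  apply List.map_congr_left
  intro x _
  simp [add_assoc]

theorem tl_zero (l : List (ZMod q)) : tl 0 l = l := by simp [tl]

theorem dg_tl (j : ZMod q) (l : List (ZMod q)) : Dg (tl j l) ↔ Dg l := by
  unfold Dg tl
  rw [List.isChain_map]
  simp

theorem act_tr (j : ℕ) (l : List (ZMod q)) (a : ZMod q) :
    act q ((tr q)^[j]) (Finsupp.single l a) = Finsupp.single (tl (j : ZMod q) l) a := by
  rw [act_single]
  congr 1
  apply List.map_congr_left
  intro x _
  rw [tr_iter]

theorem Lf_even (t : List (ZMod q) → ZMod q) {i : ℕ} (hi : Even i) (l : List (ZMod q)) :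
    Lf t (opn q (tr q) i (Finsupp.single l 1)) = t (tl 1 l) - t l := by
  unfold opn
  rw [if_pos hi]
  simp only [LinearMap.sub_apply, LinearMap.id_apply, map_sub]
  have := act_tr 1 l (1 : ZMod q)
  rw [Function.iterate_one] at this
  rw [this, Lf_single, Lf_single]
  simp

theorem Lf_odd (t : List (ZMod q) → ZMod q) {i : ℕ} (hi : ¬ Even i) (l : List (ZMod q)) :
    Lf t (opn q (tr q) i (Finsupp.single l 1)) = ∑ j ∈ Finset.range q, t (tl (j : ZMod q) l) := by
  unfold opn
  rw [if_neg hi, LinearMap.sum_apply, map_sum]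
  refine Finset.sum_congr rfl fun j _ => ?_
  rw [act_tr, Lf_single, one_mul]

/-- sum over residues -/
theorem sum_zmod (hq : 0 < q) (g : ZMod q → ZMod q) :
    ∑ j ∈ Finset.range q, g (j : ZMod q) = by
      haveI : NeZero q := ⟨hq.ne'⟩
      exact ∑ x : ZMod q, g x := by
  have : NeZero q := ⟨hq.ne'⟩
  change _ = ∑ x : ZMod q, g x
  refine Finset.sum_bij (fun j _ => (j : ZMod q)) (fun _ _ => Finset.mem_univ _) ?_ ?_ ?_
  · intro a ha b hb hab
    rw [Finset.mem_range] at ha hb
    have := (ZMod.natCast_eq_natCast_iff' a b q).1 hab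
    rwa [Nat.mod_eq_of_lt ha, Nat.mod_eq_of_lt hb] at this
  · intro x _
    exact ⟨x.val, Finset.mem_range.2 (ZMod.val_lt x), ZMod.natCast_zmod_val x⟩
  · intro _ _; rfl

theorem exact_step (hq : 0 < q) (t : List (ZMod q) → ZMod q) (h0 : t [] = 0)
    (hD : ∀ l, Dg l → t l = 0) (i : ℕ)
    (hc : ∀ l, Lf t (opn q (tr q) (i + 1) (Finsupp.single l 1)) = 0) :
    ∃ e : List (ZMod q) → ZMod q, (∀ l, Dg l → e l = 0) ∧
      ∀ c, Lf e (opn q (tr q) i c) = Lf t c := by
  have : NeZero q := ⟨hq.ne'⟩
  by_cases hi : Even i
  · have hi' : ¬ Even (i + 1) := by rw [Nat.even_add_one]; exact not_not.2 hi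
    refine ⟨fun l => match l with
      | [] => 0
      | x :: l => ∑ j ∈ Finset.range x.val, t (tl (j : ZMod q) (tl (-x) (x :: l))), ?_, ?_⟩
    · intro l hl
      rcases l with _ | ⟨x, l⟩
      · rfl
      · refine Finset.sum_eq_zero fun j _ => ?_
        apply hD
        rw [dg_tl, dg_tl]
        exact hl
    · intro c
      refine LinearMap.congr_fun (f := (Lf _).comp (opn q (tr q) i)) (g := Lf t) ?_ c
      apply lin_ext
      intro l
      rw [LinearMap.comp_apply, Lf_even _ hi, Lf_single, one_mul]
      rcases l with _ | ⟨x, l⟩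
      · simp [tl, h0]
      · have e1 : tl 1 (x :: l) = (x + 1) :: tl 1 l := rfl
        rw [e1]
        simp only
        rw [← e1, tl_tl]
        have e2 : (1 : ZMod q) + -(x + 1) = -x := by ring
        rw [e2]
        have hx : x.val < q := ZMod.val_lt x
        by_cases hlast : x.val + 1 < q
        · have e3 : (x + 1).val = x.val + 1 := by
            rw [ZMod.val_add, ZMod.val_one'' (by omega), Nat.mod_eq_of_lt hlast]
          rw [e3, Finset.sum_range_succ, add_sub_cancel_left, tl_tl]
          have : -x + ((x.val : ℕ) : ZMod q) = 0 := by rw [ZMod.natCast_zmod_val]; ring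
          rw [this, tl_zero]
        · have hxq : x.val + 1 = q := by omega
          have hx1 : x + 1 = 0 := by
            have : ((x.val + 1 : ℕ) : ZMod q) = 0 := by rw [hxq]; exact ZMod.natCast_self q
            rw [Nat.cast_add, ZMod.natCast_zmod_val, Nat.cast_one] at this
            exact this
          have hsum := hc (tl (-x) (x :: l))
          rw [Lf_odd _ hi'] at hsum
          have : Finset.range q = Finset.range (x.val + 1) := by rw [hxq]
          rw [this, Finset.sum_range_succ, tl_tl (((x.val : ℕ) : ZMod q)) (-x)] at hsum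
          have e4 : -x + ((x.val : ℕ) : ZMod q) = 0 := by rw [ZMod.natCast_zmod_val]; ring
          rw [e4, tl_zero] at hsum
          have e5 : (x + 1).val = 0 := by rw [hx1]; exact ZMod.val_zero
          rw [e5, Finset.range_zero, Finset.sum_empty, zero_sub]
          exact (eq_neg_of_add_eq_zero_right hsum).symm
  · have hi' : Even (i + 1) := by rw [Nat.even_add_one]; exact hi
    have hinv : ∀ l, t (tl 1 l) = t l := by
      intro l
      have := hc l
      rw [Lf_even _ hi'] at this
      exact sub_eq_zero.1 this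
    have hinvj : ∀ (j : ℕ) l, t (tl (j : ZMod q) l) = t l := by
      intro j
      induction j with
      | zero => intro l; rw [Nat.cast_zero, tl_zero]
      | succ j ih => intro l; rw [Nat.cast_add, Nat.cast_one, ← tl_tl, hinv, ih]
    refine ⟨fun l => match l with
      | [] => 0
      | x :: l => if x = 0 then t (x :: l) else 0, ?_, ?_⟩
    · intro l hl
      rcases l with _ | ⟨x, l⟩
      · rfl
      · simp only
        rw [hD _ hl]
        simp
    · intro c
      refine LinearMap.congr_fun (f := (Lf _).comp (opn q (tr q) i)) (g := Lf t) ?_ c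
      apply lin_ext
      intro l
      rw [LinearMap.comp_apply, Lf_odd _ hi, Lf_single, one_mul]
      rcases l with _ | ⟨x, l⟩
      · rw [h0]
        exact Finset.sum_eq_zero fun j _ => rfl
      · have e1 : ∀ j : ZMod q, tl j (x :: l) = (x + j) :: tl j l := fun _ => rfl
        simp only [e1]
        have e2 : ∀ j ∈ Finset.range q, (if x + (j : ZMod q) = 0 then
            t ((x + (j : ZMod q)) :: tl (j : ZMod q) l) else 0) =
            if x + (j : ZMod q) = 0 then t (x :: l) else 0 := by
          intro j _
          rw [← e1, hinvj]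
        rw [Finset.sum_congr rfl e2]
        have := sum_zmod hq (fun z => if x + z = 0 then t (x :: l) else 0)
        rw [this]
        have e3 : ∀ z : ZMod q, (if x + z = 0 then t (x :: l) else 0) =
            if z = -x then t (x :: l) else 0 := by
          intro z
          congr 1
          rw [eq_iff_iff]
          constructor
          · intro h; exact eq_neg_of_add_eq_zero_right h
          · rintro rfl; ring
        simp only [e3]
        rw [Finset.sum_ite_eq' Finset.univ (-x) (fun _ => t (x :: l))]
        simp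

theorem Lf_bd (e : List (ZMod q) → ZMod q) (c : List (ZMod q) →₀ ZMod q) :
    Lf (fun l => Lf e (bdl q l)) c = Lf e (bd q c) := by
  have : Lf (fun l => Lf e (bdl q l)) = (Lf e).comp (bd q) := by
    apply lin_ext
    intro l
    rw [LinearMap.comp_apply, Lf_single, one_mul, bd_single_one]
  exact LinearMap.congr_fun this c

theorem bu_aux (m : ℕ) (P : Type) [PartialOrder P] (σ : P → P) (hq : 0 < q)
    (η : P → ZMod q) (hη : ∀ x, η (σ x) = η x + 1) (w : ℕ → (List P →₀ ZMod q))
    (hw0 : bd q (w 0) = Finsupp.single [] 1) (hw : ∀ i < m, bd q (w (i + 1)) = opn q σ i (w i))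
    (i : ℕ) : i ≤ m → ∃ t : List (ZMod q) → ZMod q, t [] = 0 ∧ (∀ l, Dg l → t l = 0) ∧
      (∀ c, Lf t (opn q (tr q) (i + 1) c) = 0) ∧ (∀ c, Lf t (bd q c) = 0) ∧
      Lf t (mp q η (w i)) = 1 := by
  have hit : ∀ x j, η (σ^[j] x) = (tr q)^[j] (η x) := by
    intro x j
    induction j with
    | zero => rfl
    | succ j ih => rw [Function.iterate_succ_apply', Function.iterate_succ_apply', hη, ih]; rfl
  induction i with
  | zero =>
    intro _
    set ε : List (ZMod q) → ZMod q := fun l => match l with
      | [] => 1
      | _ :: _ => 0 with hε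
    have hεcn : ∀ (x : ZMod q) c, Lf ε (cn q x c) = 0 := by
      intro x c
      have : (Lf ε).comp (cn q x) = 0 := by
        apply lin_ext
        intro l
        rw [LinearMap.comp_apply, cn_single, Lf_single]
        simp [hε]
      exact LinearMap.congr_fun this c
    have hεt : ∀ (j : ZMod q) l, ε (tl j l) = ε l := by
      intro j l
      rcases l with _ | ⟨x, l⟩ <;> rfl
    refine ⟨fun l => Lf ε (bdl q l), ?_, ?_, ?_, ?_, ?_⟩
    · change Lf ε (bdl q []) = 0
      rw [bdl_nil, map_zero]
    · intro l hl
      rcases l with _ | ⟨x, l⟩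
      · exact absurd List.isChain_nil hl
      · rcases l with _ | ⟨y, l⟩
        · exact absurd (List.isChain_singleton x) hl
        · change Lf ε (bdl q (x :: y :: l)) = 0
          rw [bdl_cons, map_sub, hεcn, Lf_single]
          simp [hε]
    · intro c
      rw [Lf_bd, bd_opn]
      generalize bd q c = c'
      have h1 : ¬ Even (0 + 1) := by decide
      have : (Lf ε).comp (opn q (tr q) (0 + 1)) = 0 := by
        apply lin_ext
        intro l
        rw [LinearMap.comp_apply, Lf_odd _ h1]
        simp only [hεt, Finset.sum_const, Finset.card_range, nsmul_eq_mul]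
        rw [ZMod.natCast_self, zero_mul]
        rfl
      exact LinearMap.congr_fun this c'
    · intro c
      rw [Lf_bd, bd_bd, map_zero]
    · rw [Lf_bd, ← mp_bd, hw0, mp_single, Lf_single]
      simp [hε]
  | succ i ih =>
    intro him
    obtain ⟨t, h0, hD, hc, hb, h1⟩ := ih (by omega)
    obtain ⟨e, heD, he⟩ := exact_step hq t h0 hD i (fun l => hc _)
    refine ⟨fun l => Lf e (bdl q l), ?_, ?_, ?_, ?_, ?_⟩
    · change Lf e (bdl q []) = 0
      rw [bdl_nil, map_zero]
    · intro l hl
      exact dg_vanish l (Lf e) (fun l' hl' => by rw [Lf_single, heD l' hl', mul_zero]) hl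
    · intro c
      rw [Lf_bd, bd_opn, opn_add_two, he]
      exact hb c
    · intro c
      rw [Lf_bd, bd_bd, map_zero]
    · rw [Lf_bd, ← mp_bd, hw i (by omega), ← opn_mp σ (tr q) η i (fun l _ x _ j => hit x j), he]
      exact h1

theorem bu : BUStmt := by
  intro q m P _ σ hq ⟨w, hw1, hw2, hw3⟩ η hη
  have : Fact q.Prime := ⟨hq⟩
  obtain ⟨t, _, hD, _, _, h1⟩ := bu_aux m P σ hq.pos η hη w hw2 hw3 m le_rfl
  by_contra hno
  push Not at hno
  have : Lf t (mp q η (w m)) = 0 := by
    have hc : w m ∈ Finsupp.supported (ZMod q) (ZMod q) ((w m).support : Set (List P)) := by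
      rw [Finsupp.mem_supported]
    refine lin_ext_on (f := (Lf t).comp (mp q η)) (g := 0) (fun l hl => ?_) hc
    rw [LinearMap.comp_apply, mp_single, Lf_single, one_mul]
    obtain ⟨h2, h3⟩ := hw1 m le_rfl l hl
    exact hD _ (hno l h2 h3)
  rw [this] at h1
  exact zero_ne_one h1

end Pool.Agent.W374.FBS
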