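import Pool.Agent.W374.FbsCh

/-!
# FBS-11: the base poset, a join of copies of the cyclic group
-/

set_option autoImplicit false

namespace Pool.Agent.W374.FBS

open Relation Pool.Agent.W435.FB

/-- the base poset: levels `0, ..., m + 2`, each a copy of the cyclic group -/
structure BP (q m : ℕ) : Type where
  /-- level -/
  lev : Fin (m + 3)
  /-- point -/
  pt : ZMod q

variable {q m : ℕ}

theorem BP.ext' {x y : BP q m} (h1 : x.lev = y.lev) (h2 : x.pt = y.pt) : x = y := by
  cases x; cases y; simp_all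

instance : PartialOrder (BP q m) where
  le x y := x = y ∨ x.lev < y.lev
  le_refl x := Or.inl rfl
  le_trans x y z h1 h2 := by
    rcases h1 with rfl | h1
    · exact h2
    · rcases h2 with rfl | h2
      · exact Or.inr h1
      · exact Or.inr (h1.trans h2)
  le_antisymm x y h1 h2 := by
    rcases h1 with h1 | h1
    · exact h1
    · rcases h2 with h2 | h2
      · exact h2.symm
      · exact absurd (h1.trans h2) (lt_irrefl _)

theorem BP.le_iff {x y : BP q m} : x ≤ y ↔ x = y ∨ x.lev < y.lev := Iff.rfl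

theorem BP.lt_of {x y : BP q m} (h : x.lev < y.lev) : x < y :=
  lt_of_le_of_ne (Or.inr h) (fun e => by rw [e] at h; exact lt_irrefl _ h)

/-- the automorphism -/
def BP.sg (x : BP q m) : BP q m := ⟨x.lev, x.pt + 1⟩

theorem BP.sg_iter (j : ℕ) (x : BP q m) : BP.sg^[j] x = ⟨x.lev, x.pt + j⟩ := by
  induction j with
  | zero => simp
  | succ j ih =>
    rw [Function.iterate_succ_apply', ih, BP.sg]
    simp [add_assoc]

/-- chains of lists whose levels are `0, ..., i` -/
def Lv (i : ℕ) : Set (List (BP q m)) := {l | l.map (fun x => (x.lev : ℕ)) = List.range (i + 1)}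

theorem act_Lv (i j : ℕ) {c : List (BP q m) →₀ ZMod q}
    (hc : c ∈ Finsupp.supported (ZMod q) (ZMod q) (Lv i)) :
    act q (BP.sg^[j]) c ∈ Finsupp.supported (ZMod q) (ZMod q) (Lv (q := q) (m := m) i) := by
  refine lin_mem_on (fun l hl => ?_) hc
  rw [act_single]
  apply single_mem
  have hl' : l.map (fun x => (x.lev : ℕ)) = List.range (i + 1) := hl
  change (l.map (BP.sg^[j])).map (fun x => (x.lev : ℕ)) = List.range (i + 1)
  rw [← hl', List.map_map]
  apply List.map_congr_left
  intro x _
  simp [BP.sg_iter]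

theorem opn_Lv (i k : ℕ) {c : List (BP q m) →₀ ZMod q}
    (hc : c ∈ Finsupp.supported (ZMod q) (ZMod q) (Lv i)) :
    opn q BP.sg k c ∈ Finsupp.supported (ZMod q) (ZMod q) (Lv (q := q) (m := m) i) := by
  unfold opn
  split_ifs
  · have := act_Lv i 1 hc
    rw [Function.iterate_one] at this
    exact Submodule.sub_mem _ this hc
  · rw [LinearMap.sum_apply]
    exact Submodule.sum_mem _ fun j _ => act_Lv i j hc

/-- the point `(i, 0)` -/
def bpt (q m i : ℕ) : BP q m := ⟨Fin.ofNat (m + 3) i, 0⟩

/-- the chains -/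
noncomputable def bw (q m : ℕ) : ℕ → (List (BP q m) →₀ ZMod q)
  | 0 => Finsupp.single [bpt q m 0] 1
  | i + 1 => ((-1 : ℤ) ^ (i + 1)) • ap q (bpt q m (i + 1)) (opn q BP.sg i (bw q m i))

theorem bw_succ (i : ℕ) : bw q m (i + 1) =
    ((-1 : ℤ) ^ (i + 1)) • ap q (bpt q m (i + 1)) (opn q BP.sg i (bw q m i)) := rfl

theorem bw_Lv (i : ℕ) (hi : i ≤ m) : bw q m i ∈ Finsupp.supported (ZMod q) (ZMod q) (Lv i) := by
  induction i with
  | zero => apply single_mem; rfl
  | succ i ih =>
    rw [bw]
    have h1 := opn_Lv i i (ih (by omega))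
    refine zsmul_mem ?_ _
    refine lin_mem_on (fun l hl => ?_) h1
    rw [ap_single]
    apply single_mem
    have hl' : l.map (fun x => (x.lev : ℕ)) = List.range (i + 1) := hl
    change (l ++ [bpt q m (i + 1)]).map (fun x => (x.lev : ℕ)) = List.range (i + 1 + 1)
    rw [List.map_append, hl', List.range_succ (n := i + 1)]
    congr 1
    simp only [bpt, List.map_cons, List.map_nil, List.cons.injEq, and_true]
    exact Nat.mod_eq_of_lt (by omega)

theorem hom_of_Lv {i : ℕ} {c : List (BP q m) →₀ ZMod q}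
    (hc : c ∈ Finsupp.supported (ZMod q) (ZMod q) (Lv i)) : c ∈ Hom q (BP q m) (i + 1) := by
  refine Finsupp.supported_mono ?_ hc
  intro l hl
  have hl' : l.map (fun x => (x.lev : ℕ)) = List.range (i + 1) := hl
  change l.length = i + 1
  have := congrArg List.length hl'
  simpa using this

theorem bw_bd0 : bd q (bw q m 0) = Finsupp.single [] 1 := by
  rw [bw, bd_single_one, bdl_cons, bdl_nil, map_zero, sub_zero]

theorem bw_bd (i : ℕ) (hi : i < m) : bd q (bw q m (i + 1)) = opn q BP.sg i (bw q m i) := by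
  have hper : ∀ x : BP q m, BP.sg^[q] x = x := by
    intro x; rw [BP.sg_iter]; simp
  induction i with
  | zero =>
    rw [bw_succ]
    have h1 := hom_of_Lv (opn_Lv 0 0 (bw_Lv (q := q) (m := m) 0 (by omega)))
    rw [map_zsmul, bd_ap _ h1, bd_opn, bw_bd0, opn_nil, map_zero]
    simp
  | succ i ih =>
    rw [bw_succ]
    have h1 := hom_of_Lv (opn_Lv (i + 1) (i + 1) (bw_Lv (q := q) (m := m) (i + 1) (by omega)))
    rw [map_zsmul, bd_ap _ h1, bd_opn, ih (by omega), opn_opn _ hper, map_zero, zero_add,
      smul_smul, ← mul_pow]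
    simp

theorem bp_wp (q m : ℕ) : WP q m (BP q m) BP.sg := by
  refine ⟨bw q m, ?_, bw_bd0, fun i hi => bw_bd i hi⟩
  intro i hi l hl
  have h1 : l ∈ Lv (q := q) (m := m) i := (Finsupp.mem_supported _ _).1 (bw_Lv i hi) hl
  have h2 : l.map (fun x => (x.lev : ℕ)) = List.range (i + 1) := h1
  refine ⟨by simpa using congrArg List.length h2, ?_⟩
  have h3 : (l.map (fun x => (x.lev : ℕ))).Pairwise (· < ·) := by
    rw [h2]; exact List.pairwise_lt_range
  rw [List.pairwise_map] at h3
  exact h3.imp fun h => BP.lt_of h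

theorem bp_sys (q m : ℕ) : SysPoset q 1 (BP q m) BP.sg where
  mono := by
    intro x y h
    rcases h with rfl | h
    · exact le_refl _
    · exact Or.inr h
  per := by intro x; rw [BP.sg_iter]; simp
  sys := by
    have key : ∀ (x : BP q m) (j : ℕ), x = BP.sg^[j] x → q ∣ j := by
      intro x j h
      rw [BP.sg_iter] at h
      have : x.pt = x.pt + j := congrArg BP.pt h
      exact (ZMod.natCast_eq_zero_iff j q).1 (by
        have h2 : x.pt + 0 = x.pt + (j : ZMod q) := by rw [add_zero]; exact this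
        exact (add_left_cancel h2).symm)
    have key2 : ∀ (x : BP q m) (j : ℕ), (x ≤ BP.sg^[j] x ∨ BP.sg^[j] x ≤ x) → q ∣ j := by
      intro x j h
      apply key x j
      rcases h with h | h
      · rcases h with h | h
        · exact h
        · rw [BP.sg_iter] at h
          exact absurd h (lt_irrefl _)
      · rcases h with h | h
        · exact h.symm
        · rw [BP.sg_iter] at h
          exact absurd h (lt_irrefl _)
    intro k hk x j h
    generalize hy : BP.sg^[j] x = y at h
    cases h with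
    | refl => exact key x j hy.symm
    | up h1 h2 =>
      rename_i k y'
      have : k = 0 := by omega
      subst this
      cases h1
      exact key2 x j (Or.inl (hy ▸ h2))
    | dn h1 h2 =>
      rename_i k y'
      have : k = 0 := by omega
      subst this
      cases h1
      exact key2 x j (Or.inr (hy ▸ h2))
  conn := by
    intro x y
    rcases lt_trichotomy x.lev y.lev with h | h | h
    · exact ⟨1, Pth.up (Pth.refl x) (Or.inr h)⟩
    · by_cases h0 : x.lev = 0
      · refine ⟨2, Pth.dn (Pth.up (Pth.refl x) (y := x) (z := ⟨1, 0⟩) (Or.inr ?_)) (Or.inr ?_)⟩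
        · rw [h0]; exact Fin.zero_lt_one
        · rw [← h, h0]; exact Fin.zero_lt_one
      · refine ⟨2, Pth.up (Pth.dn (Pth.refl x) (y := x) (z := ⟨0, 0⟩) (Or.inr ?_)) (Or.inr ?_)⟩
        · exact Fin.pos_of_ne_zero h0
        · rw [← h]; exact Fin.pos_of_ne_zero h0
    · exact ⟨1, Pth.dn (Pth.refl x) (Or.inr h)⟩
  h1 := by
    intro A _ c hc
    set o : BP q m := ⟨0, 0⟩ with ho
    set y0 : BP q m := ⟨1, 0⟩ with hy0
    set t0 : BP q m := ⟨2, 0⟩ with ht0
    have hcc : ∀ x, c x x = 0 := by
      intro x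
      have := hc x x x le_rfl le_rfl
      exact (add_eq_left.1 this.symm)
    -- independence
    have key : ∀ x y : BP q m, x.lev = 0 → 0 < y.lev → c x y - c o y = c x y0 - c o y0 := by
      intro x y hx hy
      have g : ∀ y y' : BP q m, 0 < y.lev → y.lev < y'.lev → c x y - c o y = c x y' - c o y' := by
        intro y y' h1 h2
        rw [hc x y y' (Or.inr (by rw [hx]; exact h1)) (Or.inr h2),
          hc o y y' (Or.inr h1) (Or.inr h2)]
        abel
      have hy0' : y0.lev < t0.lev := by
        change (1 : Fin (m + 3)) < 2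
        rw [Fin.lt_def]
        have h1 : ((1 : Fin (m + 3)) : ℕ) = 1 := rfl
        have h2 : ((2 : Fin (m + 3)) : ℕ) = 2 := by
          change 2 % (m + 3) = 2
          exact Nat.mod_eq_of_lt (by omega)
        omega
      rcases lt_trichotomy y.lev y0.lev with h | h | h
      · exfalso
        rw [Fin.lt_def] at h hy
        have h1 : ((y0.lev : Fin (m + 3)) : ℕ) = 1 := rfl
        have h0 : ((0 : Fin (m + 3)) : ℕ) = 0 := rfl
        omega
      · rw [g y t0 hy (h ▸ hy0'), g y0 t0 (h ▸ hy) hy0']
      · exact (g y0 y Fin.zero_lt_one h).symm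
    refine ⟨fun y => if y.lev = 0 then c y y0 - c o y0 else - c o y, ?_⟩
    intro x y hxy
    rcases hxy with rfl | hxy
    · rw [hcc, sub_self]
    · have hy : 0 < y.lev := lt_of_le_of_lt (Fin.zero_le _) hxy
      have hy' : y.lev ≠ 0 := hy.ne'
      simp only [if_neg hy']
      by_cases hx : x.lev = 0
      · rw [if_pos hx, ← key x y hx hy]
        abel
      · rw [if_neg hx]
        have hx' : 0 < x.lev := Fin.pos_of_ne_zero hx
        rw [hc o x y (Or.inr hx') (Or.inr hxy)]
        abel

/-- pairs -/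
def bpEquiv (q m : ℕ) : BP q m ≃ Fin (m + 3) × ZMod q where
  toFun x := (x.lev, x.pt)
  invFun x := ⟨x.1, x.2⟩
  left_inv _ := rfl
  right_inv _ := rfl

theorem posetBase : PosetBaseStmt := by
  intro q m hq
  have : NeZero q := ⟨hq.ne_zero⟩
  refine ⟨BP q m, inferInstance, Finite.of_equiv _ (bpEquiv q m).symm, ⟨⟨0, 0⟩⟩, BP.sg,
    bp_sys q m, bp_wp q m⟩

end Pool.Agent.W374.FBS
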