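import Pool.Agent.W435.FB.Defs

/-!
# FBS-4: closure lemma for zigzag-connected pairs
-/

set_option autoImplicit false

namespace Pool.Agent.W374.FBS

open Relation Pool.Agent.W435.FB

/-- zigzag paths with their length -/
def ZP (R : ℕ → ℕ → Prop) : ℕ → ℕ → ℕ → Prop
  | 0, x, y => R x y
  | k + 1, x, y => ∃ b a, R x b ∧ R a b ∧ ZP R k a y

theorem zp_of_zig {R : ℕ → ℕ → Prop} {x y : ℕ} (h : Zig R x y) : ∃ k, ZP R k x y := by
  induction h with
  | base h => exact ⟨0, h⟩
  | step h1 h2 _ ih =>
    obtain ⟨k, hk⟩ := ih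
    exact ⟨k + 1, _, _, h1, h2, hk⟩

theorem cl_aux (R : ℕ → ℕ → Prop)
    (hT : ∀ a b c d, R a b → R c d → (a, b) ≠ (c, d) → ReflTransGen R b c ∨ ReflTransGen R d a)
    (hR : ∀ x y w z, R x y → R x w → R z w → ReflTransGen R y x → ReflTransGen R w z → R z y)
    (k : ℕ) : ∀ x y, ZP R k x y → ReflTransGen R y x → R x y := by
  have one : ∀ x b a y, R x b → R a b → R a y → ReflTransGen R y x → R x y := by
    intro x b a y h1 h2 h3 h4
    by_cases hax : a = x
    · exact hax ▸ h3
    by_cases hby : b = y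
    · exact hby ▸ h1
    have h5 : ReflTransGen R b x := by
      rcases hT x b a b h1 h2 (fun h => hax (Prod.ext_iff.1 h).1.symm) with h | h
      · exact (h.tail h3).trans h4
      · exact h
    have h6 : ReflTransGen R y a := by
      rcases hT a b a y h2 h3 (fun h => hby (Prod.ext_iff.1 h).2) with h | h
      · exact (h4.tail h1).trans h
      · exact h
    exact hR a y b x h3 h2 h1 h6 h5
  induction k using Nat.strong_induction_on with
  | _ k ih =>
    intro x y hxy hyx
    match k, ih, hxy with
    | 0, _, hxy => exact hxy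
    | 1, _, hxy =>
      obtain ⟨b, a, h1, h2, h3⟩ := hxy
      exact one x b a y h1 h2 h3 hyx
    | k + 2, ih, hxy =>
      obtain ⟨b, a, h1, h2, h3⟩ := hxy
      have h3' := h3
      obtain ⟨b', a', h4, h5, h6⟩ := h3
      by_cases hax : a = x
      · subst hax
        exact ih (k + 1) (by omega) a y h3' hyx
      rcases hT a b' x b h4 h1 (fun h => hax (Prod.ext_iff.1 h).1) with h | h
      · have h7 : R x b' := one x b a b' h1 h2 h4 h
        exact ih (k + 1) (by omega) x y ⟨b', a', h7, h5, h6⟩ hyx
      · have h7 : ReflTransGen R y a := (hyx.tail h1).trans h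
        have h8 : R a y := ih (k + 1) (by omega) a y h3' h7
        exact one x b a y h1 h2 h8 hyx

theorem cl : CLStmt := by
  intro R hT hR x y hz hyx
  obtain ⟨k, hk⟩ := zp_of_zig hz
  exact cl_aux R hT hR k x y hk hyx

end Pool.Agent.W374.FBS
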