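import Pool.Agent.W374.FbsEuler

/-!
# FBS-2: integer circulations on the edges of a word
-/

set_option autoImplicit false

namespace Pool.Agent.W374.FBS

open Relation Pool.Agent.W435.FB

theorem out_sum (s : Finset ℕ) (z : ℕ) (w : List ℕ) (hw : ∀ x ∈ w, x ∈ s) :
    ∑ y ∈ s, (adj w).count (z, y) = w.dropLast.count z := by
  induction w with
  | nil => simp
  | cons a w ih =>
    rcases w with _ | ⟨b, w⟩
    · simp
    · have h1 := ih (fun x hx => hw x (List.mem_cons_of_mem _ hx))
      have hb : b ∈ s := hw b (by simp)
      rw [adj_cons_cons]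
      simp only [List.count_cons, Finset.sum_add_distrib]
      rw [h1, List.dropLast_cons_cons, List.count_cons]
      congr 1
      have : ∀ y, (if ((a, b) == (z, y)) = true then 1 else 0) =
          if y = b then (if (a == z) = true then 1 else 0) else 0 := by
        intro y
        by_cases h1 : y = b
        · subst h1; simp
        · simp [h1, Ne.symm h1]
      simp only [this]
      rw [Finset.sum_ite_eq' s b]
      simp [hb]

theorem in_sum (s : Finset ℕ) (z : ℕ) (w : List ℕ) (hw : ∀ x ∈ w, x ∈ s) :
    ∑ y ∈ s, (adj w).count (y, z) = w.tail.count z := by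
  induction w with
  | nil => simp
  | cons a w ih =>
    rcases w with _ | ⟨b, w⟩
    · simp
    · have h1 := ih (fun x hx => hw x (List.mem_cons_of_mem _ hx))
      have ha : a ∈ s := hw a (by simp)
      rw [adj_cons_cons]
      simp only [List.count_cons, Finset.sum_add_distrib]
      rw [h1, List.tail_cons, List.tail_cons, List.count_cons]
      congr 1
      have : ∀ y, (if ((a, b) == (y, z)) = true then 1 else 0) =
          if y = a then (if (b == z) = true then 1 else 0) else 0 := by
        intro y
        by_cases h1 : y = a
        · subst h1; simp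
        · simp [h1, Ne.symm h1]
      simp only [this]
      rw [Finset.sum_ite_eq' s a]
      simp [ha]

/-- the count function of a closed word is balanced -/
theorem closed_bal (s : Finset ℕ) (c : ℕ) (l : List ℕ) (hw : ∀ x ∈ c :: l ++ [c], x ∈ s) (z : ℕ) :
    ∑ y ∈ s, (adj (c :: l ++ [c])).count (z, y) = ∑ y ∈ s, (adj (c :: l ++ [c])).count (y, z) := by
  rw [out_sum s z _ hw, in_sum s z _ hw, List.dropLast_concat, List.cons_append, List.tail_cons]
  rw [List.count_cons, List.count_append, List.count_singleton]

theorem cyc_aux (s : Finset ℕ) (u : List ℕ) : (∀ x ∈ u, x ∈ s) → ∀ δ : ℕ → ℕ → ℤ,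
    (∀ x y, δ x y ≠ 0 → E u x y) → (∀ x, ∑ y ∈ s, δ x y = ∑ y ∈ s, δ y x) →
    ∃ ls : List (ℤ × ℕ × List ℕ),
      (∀ c ∈ ls, (c.2.1 :: c.2.2 ++ [c.2.1]) <:+: u) ∧
      ∀ x y, δ x y =
        (ls.map fun c => c.1 * ((adj (c.2.1 :: c.2.2 ++ [c.2.1])).count (x, y) : ℤ)).sum := by
  induction u using List.reverseRecOn with
  | nil =>
    intro _ δ h1 _
    refine ⟨[], by simp, fun x y => ?_⟩
    by_contra h
    have := h1 x y (by simpa using h)
    simp [E] at this
  | append_singleton u' y ih =>
    intro hs δ h1 h2
    have hs' : ∀ x ∈ u', x ∈ s := fun x hx => hs x (by simp [hx])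
    rcases List.eq_nil_or_concat u' with rfl | ⟨p, x, rfl⟩
    · refine ⟨[], by simp, fun x y => ?_⟩
      by_contra h
      have := h1 x y (by simpa using h)
      simp [E] at this
    rw [List.concat_eq_append] at *
    have hadj : adj (p ++ [x] ++ [y]) = adj (p ++ [x]) ++ [(x, y)] := by
      rw [List.append_assoc, List.singleton_append, adj_append]
      rfl
    have hE : ∀ a b, E (p ++ [x] ++ [y]) a b ↔ E (p ++ [x]) a b ∨ (a = x ∧ b = y) := by
      intro a b
      unfold E
      rw [hadj, List.mem_append, List.mem_singleton, Prod.mk.injEq]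
    have fin : (∀ a b, δ a b ≠ 0 → E (p ++ [x]) a b) → ∃ ls : List (ℤ × ℕ × List ℕ),
        (∀ c ∈ ls, (c.2.1 :: c.2.2 ++ [c.2.1]) <:+: (p ++ [x] ++ [y])) ∧
        ∀ x y, δ x y =
          (ls.map fun c => c.1 * ((adj (c.2.1 :: c.2.2 ++ [c.2.1])).count (x, y) : ℤ)).sum := by
      intro h3
      obtain ⟨ls, h4, h5⟩ := ih hs' δ h3 h2
      exact ⟨ls, fun c hc => (h4 c hc).trans (List.prefix_append _ _).isInfix, h5⟩
    by_cases hA : E (p ++ [x]) x y
    · refine fin fun a b hab => ?_
      rcases (hE a b).1 (h1 a b hab) with h | ⟨rfl, rfl⟩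
      · exact h
      · exact hA
    by_cases hB : y ∈ p ++ [x]
    · obtain ⟨p1, a, hpa⟩ := List.append_of_mem hB
      -- last letter of y :: a
      obtain ⟨q, hq⟩ : ∃ q, y :: a = q ++ [x] := by
        rcases List.eq_nil_or_concat (y :: a) with h | ⟨q, t, h⟩
        · simp at h
        · rw [List.concat_eq_append] at h
          rw [h, ← List.append_assoc] at hpa
          have := (List.append_inj' hpa rfl).2
          simp only [List.cons.injEq, and_true] at this
          exact ⟨q, by rw [h, this]⟩
      have hadj2 : adj (y :: a ++ [y]) = adj (y :: a) ++ [(x, y)] := by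
        rw [hq, List.append_assoc, List.singleton_append, adj_append]
        rfl
      have hsub : ∀ c, c ∈ adj (y :: a) → c ∈ adj (p ++ [x]) := by
        intro c hc
        rw [hpa, adj_append]
        exact List.mem_append_right _ hc
      have hcnt : (adj (y :: a ++ [y])).count (x, y) = 1 := by
        rw [hadj2, List.count_append, List.count_eq_zero_of_not_mem (fun h => hA (hsub _ h))]
        simp
      set cf : ℕ → ℕ → ℤ := fun b c => ((adj (y :: a ++ [y])).count (b, c) : ℤ) with hcf
      have hmem : ∀ b c, cf b c ≠ 0 → E (p ++ [x] ++ [y]) b c := by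
        intro b c h
        have h' : (adj (y :: a ++ [y])).count (b, c) ≠ 0 := by
          intro h0
          apply h
          simp only [hcf]
          exact_mod_cast h0
        have h3 : (b, c) ∈ adj (y :: a ++ [y]) := by
          by_contra h4; exact h' (List.count_eq_zero_of_not_mem h4)
        rw [hadj2, List.mem_append, List.mem_singleton, Prod.mk.injEq] at h3
        rw [hE]
        rcases h3 with h3 | h3
        · exact Or.inl (hsub _ h3)
        · exact Or.inr h3
      have hγs : ∀ z ∈ y :: a ++ [y], z ∈ s := by
        intro z hz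
        refine hs z ?_
        rw [hpa, List.append_assoc]
        exact List.mem_append_right _ hz
      obtain ⟨ls, h4, h5⟩ := ih hs' (fun b c => δ b c - δ x y * cf b c) (by
        intro b c hbc
        have h6 : E (p ++ [x] ++ [y]) b c := by
          by_cases h7 : δ b c = 0
          · refine hmem b c fun h8 => hbc ?_
            rw [h7, h8]; ring
          · exact h1 b c h7
        rcases (hE b c).1 h6 with h | ⟨rfl, rfl⟩
        · exact h
        · exfalso
          apply hbc
          simp only [hcf]
          rw [hcnt]; push_cast; ring) (by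
        intro z
        simp only [Finset.sum_sub_distrib, ← Finset.mul_sum]
        rw [h2 z]
        congr 2
        have := closed_bal s y a hγs z
        simp only [hcf]
        exact_mod_cast this)
      refine ⟨(δ x y, y, a) :: ls, ?_, ?_⟩
      · intro c hc
        rw [List.mem_cons] at hc
        rcases hc with rfl | hc
        · rw [hpa, List.append_assoc]
          exact (List.suffix_append _ _).isInfix
        · exact (h4 c hc).trans (List.prefix_append _ _).isInfix
      · intro b c
        rw [List.map_cons, List.sum_cons, ← h5 b c]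
        simp only [hcf]
        ring
    · refine fin fun a b hab => ?_
      rcases (hE a b).1 (h1 a b hab) with h | ⟨rfl, rfl⟩
      · exact h
      · exfalso
        apply hab
        have ha : a ∈ s := hs' a (by simp)
        have h3 : ∑ z ∈ s, δ z b = δ a b := by
          refine Finset.sum_eq_single a (fun c _ hc => ?_) (fun h => absurd ha h)
          by_contra h4
          rcases (hE c b).1 (h1 c b h4) with h5 | h5
          · exact hB (mem_right h5)
          · exact hc h5.1
        have h6 : ∑ z ∈ s, δ b z = 0 := by
          refine Finset.sum_eq_zero fun c _ => ?_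
          by_contra h4
          rcases (hE b c).1 (h1 b c h4) with h5 | h5
          · exact hB (mem_fst h5)
          · exact hB (by rw [h5.1]; simp)
        rw [← h3, ← h2 b, h6]

theorem cyc : CycStmt := by
  intro u δ h1 h2
  exact cyc_aux u.toFinset u (fun x hx => List.mem_toFinset.2 hx) δ h1 h2

end Pool.Agent.W374.FBS
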