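import Pool.Agent.W435.FB.Base
import Pool.Agent.W374.FbsCyc

/-!
# FBS-14: the Rees matrix semigroup of a poset with large systole satisfies short identities
-/

set_option autoImplicit false

namespace Pool.Agent.W374.FBS

open Relation Pool.Agent.W435.FB

theorem Pth_trans' {X : Type} [LE X] {a b : ℕ} {x y z : X} (h1 : Pth a x y) (h2 : Pth b y z) :
    Pth (a + b) x z := by
  induction h2 with
  | refl => exact h1
  | up _ h ih => exact Pth.up (ih h1) h
  | dn _ h ih => exact Pth.dn (ih h1) h

/-- the potential lemma -/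
theorem potential (q M N : ℕ) (P : Type) [PartialOrder P] (σ : P → P) (hq : q.Prime)
    (hS : SysPoset q M P σ) (hM : 2 * N * q ≤ M) (R : ℕ → ℕ → Prop)
    (hR : ∀ x y, R x y → x < N ∧ y < N) (lam io : ℕ → P) (j : ℕ → ℕ → ℕ)
    (hj : ∀ x y, R x y → j x y < q ∧ σ^[j x y] (lam x) ≤ io y) :
    ∃ φ ψ : ℕ → ZMod q, ∀ x y, R x y → (j x y : ZMod q) = φ x + ψ y := by
  classical
  have : NeZero q := ⟨hq.ne_zero⟩
  have itq : ∀ (m : ℕ) x, σ^[q * m] x = x := by
    intro m x
    induction m with
    | zero => rfl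
    | succ m ih => rw [Nat.mul_succ, Function.iterate_add_apply, hS.per, ih]
  have itv : ∀ (k : ℕ) x, σ^[((k : ZMod q)).val] x = σ^[k] x := by
    intro k x
    rw [ZMod.val_natCast]
    conv_rhs => rw [← Nat.mod_add_div k q, Function.iterate_add_apply, itq]
  have its : ∀ (a : ZMod q) x, σ^[(a + 1).val] x = σ (σ^[a.val] x) := by
    intro a x
    have : a + 1 = ((a.val + 1 : ℕ) : ZMod q) := by
      rw [Nat.cast_add, ZMod.natCast_zmod_val, Nat.cast_one]
    rw [this, itv, Function.iterate_succ_apply']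
  let V := Bool × Fin N × ZMod q
  let pt : V → P := fun v =>
    if v.1 then σ^[v.2.2.val] (io v.2.1) else σ^[v.2.2.val] (lam v.2.1)
  let Ad : V → V → Prop := fun v w =>
    v.1 = false ∧ w.1 = true ∧ R v.2.1 w.2.1 ∧ pt v ≤ pt w
  let G : SimpleGraph V :=
    { Adj := fun v w => Ad v w ∨ Ad w v
      symm := ⟨fun v w h => h.symm⟩
      loopless := ⟨fun v h => by
        rcases h with h | h
        · have h1 := h.1
          rw [h.2.1] at h1
          exact absurd h1 (by decide)
        · have h1 := h.1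
          rw [h.2.1] at h1
          exact absurd h1 (by decide)⟩ }
  have hwalk : ∀ {v w : V} (p : G.Walk v w), Pth p.length (pt v) (pt w) := by
    intro v w p
    induction p with
    | nil => exact Pth.refl _
    | @cons v v' w h p ih =>
      have h1 : Pth 1 (pt v) (pt v') := by
        rcases h with h | h
        · exact (Pth.refl _).up h.2.2.2
        · exact (Pth.refl _).dn h.2.2.2
      have := Pth_trans' h1 ih
      rw [SimpleGraph.Walk.length_cons, add_comm]
      exact this
  let sh : V → V := fun v => (v.1, v.2.1, v.2.2 + 1)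
  have hpt : ∀ v, pt (sh v) = σ (pt v) := by
    intro v
    simp only [pt, sh]
    split_ifs
    · exact its _ _
    · exact its _ _
  have hsh : ∀ (k : ℕ) (v : V), sh^[k] v = (v.1, v.2.1, v.2.2 + (k : ZMod q)) := by
    intro k v
    induction k with
    | zero => simp
    | succ k ih => rw [Function.iterate_succ_apply', ih]; simp only [sh]; push_cast; simp [add_assoc]
  have hptk : ∀ (k : ℕ) v, pt (sh^[k] v) = σ^[k] (pt v) := by
    intro k v
    induction k with
    | zero => rfl
    | succ k ih => rw [Function.iterate_succ_apply', hpt, ih, Function.iterate_succ_apply']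
  have hAd : ∀ v w, Ad v w → Ad (sh v) (sh w) := by
    intro v w h
    refine ⟨h.1, h.2.1, h.2.2.1, ?_⟩
    rw [hpt, hpt]
    exact hS.mono h.2.2.2
  let hom : G →g G := ⟨sh, fun {v w} h => by
    rcases h with h | h
    · exact Or.inl (hAd _ _ h)
    · exact Or.inr (hAd _ _ h)⟩
  let T : G.ConnectedComponent → G.ConnectedComponent := SimpleGraph.ConnectedComponent.map hom
  have hT : ∀ v, T (G.connectedComponentMk v) = G.connectedComponentMk (sh v) := fun v => rfl
  have hTk : ∀ (k : ℕ) v, T^[k] (G.connectedComponentMk v) = G.connectedComponentMk (sh^[k] v) := by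
    intro k v
    induction k with
    | zero => rfl
    | succ k ih => rw [Function.iterate_succ_apply', ih, hT, Function.iterate_succ_apply']
  have hcard : Fintype.card V = 2 * N * q := by
    simp only [V, Fintype.card_prod, Fintype.card_bool, Fintype.card_fin, ZMod.card, mul_assoc]
  obtain ⟨Θ, hΘ⟩ := exists_equivariant hq.pos T (by
    intro c
    induction c using SimpleGraph.ConnectedComponent.ind with
    | h v =>
      rw [hTk, hsh]
      simp) (by
    intro c k hk
    induction c using SimpleGraph.ConnectedComponent.ind with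
    | h v =>
      rw [hTk] at hk
      have h1 : G.Reachable v (sh^[k] v) := (SimpleGraph.ConnectedComponent.exact hk).symm
      obtain ⟨p⟩ := h1
      have h2 := p.toPath.2.length_lt
      have h3 := hwalk (p.toPath : G.Walk v (sh^[k] v))
      rw [hptk] at h3
      exact hS.sys _ (by omega) _ _ h3)
  have hΘk : ∀ (k : ℕ) c, Θ (T^[k] c) = Θ c + k := by
    intro k c
    induction k with
    | zero => simp
    | succ k ih => rw [Function.iterate_succ_apply', hΘ, ih]; push_cast; ring
  refine ⟨fun x => if h : x < N then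
      - Θ (G.connectedComponentMk ((false, ⟨x, h⟩, 0) : V)) else 0,
    fun y => if h : y < N then Θ (G.connectedComponentMk ((true, ⟨y, h⟩, 0) : V)) else 0, ?_⟩
  intro x y hxy
  obtain ⟨hx, hy⟩ := hR x y hxy
  obtain ⟨h1, h2⟩ := hj x y hxy
  simp only [dif_pos hx, dif_pos hy]
  have h3 : G.Adj ((false, ⟨x, hx⟩, (j x y : ZMod q)) : V) ((true, ⟨y, hy⟩, 0) : V) := by
    refine Or.inl ⟨rfl, rfl, hxy, ?_⟩
    simp only [pt, if_true]
    rw [if_neg (by decide), itv, ZMod.val_zero]
    exact h2
  have h4 : G.connectedComponentMk ((false, ⟨x, hx⟩, (j x y : ZMod q)) : V) =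
      G.connectedComponentMk ((true, ⟨y, hy⟩, 0) : V) :=
    SimpleGraph.ConnectedComponent.sound h3.reachable
  have h5 : T^[j x y] (G.connectedComponentMk ((false, ⟨x, hx⟩, 0) : V)) =
      G.connectedComponentMk ((false, ⟨x, hx⟩, (j x y : ZMod q)) : V) := by
    rw [hTk, hsh]
    simp
  have h6 := hΘk (j x y) (G.connectedComponentMk ((false, ⟨x, hx⟩, 0) : V))
  rw [h5, h4] at h6
  rw [h6]
  ring

theorem ev_congr {T : Type} [Semigroup T] {f g : ℕ → T} (w : Wd)
    (h : ∀ x ∈ w.1 :: w.2, f x = g x) : ev f w = ev g w := by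
  have : ((ev f w : T) : WithOne T) = ((ev g w : T) : WithOne T) := by
    rw [coe_ev, coe_ev]
    unfold val
    congr 1
    apply List.map_congr_left
    intro x hx
    rw [h x hx]
  exact WithOne.coe_inj.mp this

theorem tP_some {q e : ℕ} {P : Type} [PartialOrder P] {σ : P → P} {x y : P} {p : ZMod (e * q)}
    (h : tP q e σ x y = some p) : ∃ j : ℕ, j < q ∧ σ^[j] x ≤ y ∧ p = (j : ZMod (e * q)) := by
  classical
  unfold tP at h
  split_ifs at h with h1
  · refine ⟨_, (Nat.find_spec h1).1, (Nat.find_spec h1).2, ?_⟩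
    exact (Option.some.inj h).symm

theorem sum_pairs {A : Type} [AddCommMonoid A] (s : Finset ℕ) (L : List (ℕ × ℕ))
    (hL : ∀ p ∈ L, p.1 ∈ s ∧ p.2 ∈ s) (f : ℕ → ℕ → A) :
    (L.map fun q => f q.1 q.2).sum = ∑ x ∈ s, ∑ y ∈ s, L.count (x, y) • f x y := by
  rw [Finset.sum_list_map_count, ← Finset.sum_product' s s (fun x y => L.count (x, y) • f x y)]
  have hsub : L.toFinset ⊆ s ×ˢ s := by
    intro p hp
    rw [Finset.mem_product]
    exact hL p (List.mem_toFinset.1 hp)
  rw [Finset.sum_subset hsub]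
  · refine Finset.sum_congr rfl fun p _ => ?_
    congr 2
    exact lawful_beq_subsingleton _ _
  · intro p _ hp
    have h0 : p ∉ L := fun h => hp (List.mem_toFinset.2 h)
    convert zero_smul ℕ (f p.1 p.2) using 2
    exact @List.count_eq_zero_of_not_mem _ instBEqOfDecidableEq _ _ _ h0

theorem sum_letters {A : Type} [AddCommMonoid A] (s : Finset ℕ) (L : List ℕ)
    (hL : ∀ p ∈ L, p ∈ s) (f : ℕ → A) :
    (L.map f).sum = ∑ x ∈ s, L.count x • f x := by
  rw [Finset.sum_list_map_count]
  have hsub : L.toFinset ⊆ s := by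
    intro p hp
    exact hL p (List.mem_toFinset.1 hp)
  refine Finset.sum_subset hsub fun p _ hp => ?_
  rw [List.count_eq_zero_of_not_mem (fun h => hp (List.mem_toFinset.2 h)), zero_smul]

theorem dropLast_count {w : List ℕ} (hw : w ≠ []) (z : ℕ) :
    w.dropLast.count z + (if w.getLast hw = z then 1 else 0) = w.count z := by
  conv_rhs => rw [← List.dropLast_append_getLast hw]
  rw [List.count_append, List.count_singleton]
  simp

theorem short : ShortStmt := by
  classical
  intro q e n N M P _ _ σ hq he hn hS hM u v huN hvN hfirst hlast hcont hcnt hadj hadjc F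
  obtain ⟨a, u⟩ := u
  obtain ⟨b, v⟩ := v
  simp only at huN hvN hfirst hlast hcont hcnt hadj hadjc
  subst hfirst
  -- zero letters
  by_cases hz : ∃ z ∈ a :: u, F z = ARM.zero
  · obtain ⟨z, hz1, hz2⟩ := hz
    rw [ev_arm_zero_letter F u a z hz1 hz2, ev_arm_zero_letter F v a z ((hcont z).1 hz1) hz2]
  push Not at hz
  have hel : ∀ z ∈ a :: u, ∃ (i : P) (g : ZMod (e * q)) (l : P), F z = ARM.el i g l := by
    intro z hz1
    rcases h : F z with _ | ⟨i, g, l⟩
    · exact absurd h (hz z hz1)
    · exact ⟨i, g, l, rfl⟩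
  obtain ⟨i0, _, _, _⟩ := hel a (by simp)
  have : Nonempty P := ⟨i0⟩
  choose! i g l hF using hel
  have hevu : ev F (a, u) = ev (fun x => (ARM.el (i x) (g x) (l x) :
      ARM (ZMod (e * q)) P P (tP q e σ))) (a, u) := ev_congr (a, u) hF
  have hevv : ev F (a, v) = ev (fun x => (ARM.el (i x) (g x) (l x) :
      ARM (ZMod (e * q)) P P (tP q e σ))) (a, v) :=
    ev_congr (a, v) (fun x hx => hF x ((hcont x).2 hx))
  rw [hevu, hevv]
  by_cases hnone : ∃ x y, (x, y) ∈ adj (a :: u) ∧ tP q e σ (l x) (i y) = none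
  · obtain ⟨x, y, hxy, h0⟩ := hnone
    rw [ev_arm_none i g l u a ⟨x, y, hxy, h0⟩, ev_arm_none i g l v a ⟨x, y, (hadj _).1 hxy, h0⟩]
  push Not at hnone
  have hjex : ∀ x y, (x, y) ∈ adj (a :: u) → ∃ j : ℕ, j < q ∧ σ^[j] (l x) ≤ i y ∧
      tP q e σ (l x) (i y) = some (j : ZMod (e * q)) := by
    intro x y hxy
    rcases h : tP q e σ (l x) (i y) with _ | p
    · exact absurd h (hnone x y hxy)
    · obtain ⟨j, h1, h2, h3⟩ := tP_some h
      exact ⟨j, h1, h2, by rw [h3]⟩
  choose! j hj using hjex
  rw [ev_arm_el i g l (fun x y => (j x y : ZMod (e * q))) u a (fun x y hxy => (hj x y hxy).2.2),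
    ev_arm_el i g l (fun x y => (j x y : ZMod (e * q))) v a
      (fun x y hxy => (hj x y ((hadj _).2 hxy)).2.2), hlast]
  congr 1
  -- the group parts
  set s : Finset ℕ := Finset.range N with hs
  have hus : ∀ x ∈ a :: u, x ∈ s := fun x hx => Finset.mem_range.2 (huN x hx)
  have hvs : ∀ x ∈ a :: v, x ∈ s := fun x hx => Finset.mem_range.2 (hvN x hx)
  have hpu : ∀ p ∈ adj (a :: u), p.1 ∈ s ∧ p.2 ∈ s := fun p hp =>
    ⟨hus _ (mem_fst (a := p.1) (b := p.2) hp), hus _ (mem_right (a := p.1) (b := p.2) hp)⟩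
  have hpv : ∀ p ∈ adj (a :: v), p.1 ∈ s ∧ p.2 ∈ s := fun p hp =>
    ⟨hvs _ (mem_fst (a := p.1) (b := p.2) hp), hvs _ (mem_right (a := p.1) (b := p.2) hp)⟩
  congr 1
  · rw [sum_letters s _ hus, sum_letters s _ hvs]
    refine Finset.sum_congr rfl fun x _ => ?_
    rw [nsmul_eq_mul, nsmul_eq_mul]
    congr 1
    exact (ZMod.natCast_eq_natCast_iff _ _ _).2 ((hcnt x).of_dvd hn)
  · rw [sum_pairs s _ hpu (fun x y => (j x y : ZMod (e * q))),
      sum_pairs s _ hpv (fun x y => (j x y : ZMod (e * q)))]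
    obtain ⟨φ, ψ, hφ⟩ := potential q M N P σ hq hS (by omega) (fun x y => (x, y) ∈ adj (a :: u))
      (fun x y hxy => ⟨huN x (mem_fst hxy), huN y (mem_right hxy)⟩) l i j
      (fun x y hxy => ⟨(hj x y hxy).1, (hj x y hxy).2.1⟩)
    have he' : (e : ℤ) ≠ 0 := by exact_mod_cast he.ne'
    set D : ℕ → ℕ → ℤ := fun x y =>
      (((adj (a :: u)).count (x, y) : ℤ) - ((adj (a :: v)).count (x, y) : ℤ)) / e with hD
    have hDe : ∀ x y, (e : ℤ) * D x y =
        ((adj (a :: u)).count (x, y) : ℤ) - ((adj (a :: v)).count (x, y) : ℤ) := by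
      intro x y
      apply Int.mul_ediv_cancel'
      exact (Nat.modEq_iff_dvd).1 (hadjc (x, y)).symm
    have hD0 : ∀ x y, (x, y) ∉ adj (a :: u) → D x y = 0 := by
      intro x y h
      have h2 : (x, y) ∉ adj (a :: v) := fun h3 => h ((hadj _).2 h3)
      simp only [hD]
      rw [List.count_eq_zero_of_not_mem h, List.count_eq_zero_of_not_mem h2]
      simp
    have hndvd : ∀ z, ((e * q : ℕ) : ℤ) ∣ ((a :: u).count z : ℤ) - ((a :: v).count z : ℤ) := by
      intro z
      exact (Nat.modEq_iff_dvd).1 ((hcnt z).of_dvd hn).symm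
    have hrow : ∀ x, (q : ℤ) ∣ ∑ y ∈ s, D x y := by
      intro x
      have h1 : (e : ℤ) * ∑ y ∈ s, D x y = ((a :: u).count x : ℤ) - ((a :: v).count x : ℤ) := by
        rw [Finset.mul_sum]
        simp only [hDe, Finset.sum_sub_distrib]
        have o1 := out_sum s x _ hus
        have o2 := out_sum s x _ hvs
        rw [← Nat.cast_sum, ← Nat.cast_sum, o1, o2]
        have c1 := dropLast_count (List.cons_ne_nil a u) x
        have c2 := dropLast_count (List.cons_ne_nil a v) x
        rw [hlast] at c1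
        omega
      have h2 := hndvd x
      rw [← h1] at h2
      push_cast at h2
      exact (mul_dvd_mul_iff_left he').1 h2
    have hcol : ∀ y, (q : ℤ) ∣ ∑ x ∈ s, D x y := by
      intro y
      have h1 : (e : ℤ) * ∑ x ∈ s, D x y = ((a :: u).count y : ℤ) - ((a :: v).count y : ℤ) := by
        rw [Finset.mul_sum]
        simp only [hDe, Finset.sum_sub_distrib]
        have o1 := in_sum s y _ hus
        have o2 := in_sum s y _ hvs
        rw [← Nat.cast_sum, ← Nat.cast_sum, o1, o2]
        simp only [List.tail_cons, List.count_cons]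
        push_cast
        ring
      have h2 := hndvd y
      rw [← h1] at h2
      push_cast at h2
      exact (mul_dvd_mul_iff_left he').1 h2
    have hmain : (q : ℤ) ∣ ∑ x ∈ s, ∑ y ∈ s, D x y * (j x y : ℤ) := by
      rw [← ZMod.intCast_zmod_eq_zero_iff_dvd]
      push_cast
      have h1 : ∀ x y, (D x y : ZMod q) * (j x y : ZMod q) =
          (D x y : ZMod q) * φ x + (D x y : ZMod q) * ψ y := by
        intro x y
        by_cases h : (x, y) ∈ adj (a :: u)
        · rw [hφ x y h]; ring
        · rw [hD0 x y h]; simp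
      simp only [h1, Finset.sum_add_distrib]
      have h2 : ∑ x ∈ s, ∑ y ∈ s, (D x y : ZMod q) * φ x = 0 := by
        refine Finset.sum_eq_zero fun x _ => ?_
        rw [← Finset.sum_mul]
        have := (ZMod.intCast_zmod_eq_zero_iff_dvd _ q).2 (hrow x)
        push_cast at this
        rw [this, zero_mul]
      have h3 : ∑ x ∈ s, ∑ y ∈ s, (D x y : ZMod q) * ψ y = 0 := by
        rw [Finset.sum_comm]
        refine Finset.sum_eq_zero fun y _ => ?_
        rw [← Finset.sum_mul]
        have := (ZMod.intCast_zmod_eq_zero_iff_dvd _ q).2 (hcol y)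
        push_cast at this
        rw [this, zero_mul]
      rw [h2, h3, add_zero]
    rw [← sub_eq_zero, ← Finset.sum_sub_distrib]
    simp only [← Finset.sum_sub_distrib, nsmul_eq_mul]
    have h4 : (((e : ℤ) * ∑ x ∈ s, ∑ y ∈ s, D x y * (j x y : ℤ) : ℤ) : ZMod (e * q)) = 0 := by
      rw [ZMod.intCast_zmod_eq_zero_iff_dvd]
      push_cast
      exact mul_dvd_mul_left _ hmain
    rw [← h4]
    push_cast
    rw [Finset.mul_sum]
    refine Finset.sum_congr rfl fun x _ => ?_
    rw [Finset.mul_sum]
    refine Finset.sum_congr rfl fun y _ => ?_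
    rw [← sub_mul, ← mul_assoc]
    congr 1
    have := congrArg (fun t : ℤ => (t : ZMod (e * q))) (hDe x y)
    push_cast at this
    rw [this]

end Pool.Agent.W374.FBS
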