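import Pool.Agent.W374.FbsStepW

/-!
# FBS-12: the systole doubles when passing to the poset of chains
-/

set_option autoImplicit false

namespace Pool.Agent.W374.FBS

open Relation Pool.Agent.W435.FB

section paths
variable {X : Type} [LE X]

theorem Pth_trans {a b : ℕ} {x y z : X} (h1 : Pth a x y) (h2 : Pth b y z) : Pth (a + b) x z := by
  induction h2 with
  | refl => exact h1
  | up _ h ih => exact Pth.up (ih h1) h
  | dn _ h ih => exact Pth.dn (ih h1) h

/-- paths with the numbers of steps down and up -/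
inductive Pu : ℕ → ℕ → X → X → Prop
  | refl (x : X) : Pu 0 0 x x
  | up {d u : ℕ} {x y z : X} : Pu d u x y → y ≤ z → Pu d (u + 1) x z
  | dn {d u : ℕ} {x y z : X} : Pu d u x y → z ≤ y → Pu (d + 1) u x z

theorem Pu_of_Pth {k : ℕ} {x y : X} (h : Pth k x y) : ∃ d u, d + u = k ∧ Pu d u x y := by
  induction h with
  | refl x => exact ⟨0, 0, rfl, Pu.refl x⟩
  | up _ h ih =>
    obtain ⟨d, u, h1, h2⟩ := ih
    exact ⟨d, u + 1, by omega, h2.up h⟩
  | dn _ h ih =>
    obtain ⟨d, u, h1, h2⟩ := ih
    exact ⟨d + 1, u, by omega, h2.dn h⟩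

theorem Pu_trans {d u d' u' : ℕ} {x y z : X} (h1 : Pu d u x y) (h2 : Pu d' u' y z) :
    Pu (d + d') (u + u') x z := by
  induction h2 with
  | refl => exact h1
  | up _ h ih => exact Pu.up (ih h1) h
  | dn _ h ih => exact Pu.dn (ih h1) h

theorem Pu_symm {d u : ℕ} {x y : X} (h : Pu d u x y) : Pu u d y x := by
  induction h with
  | refl x => exact Pu.refl x
  | up _ h ih =>
    have := Pu_trans ((Pu.refl _).dn h) ih
    rwa [zero_add, zero_add, add_comm] at this
  | dn _ h ih =>
    have := Pu_trans ((Pu.refl _).up h) ih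
    rwa [zero_add, zero_add, add_comm 1] at this

/-- decomposition at a step down -/
theorem Pu_split {d u : ℕ} {x y : X} (h : Pu d u x y) : 0 < d → ∃ a b d1 u1 d2 u2,
    Pu d1 u1 x a ∧ b ≤ a ∧ Pu d2 u2 b y ∧ d1 + d2 + 1 = d := by
  induction h with
  | refl x => intro h; omega
  | up _ h ih =>
    intro hd
    obtain ⟨a, b, d1, u1, d2, u2, h1, h2, h3, h4⟩ := ih hd
    exact ⟨a, b, d1, u1, d2, u2 + 1, h1, h2, h3.up h, h4⟩
  | @dn d u x y z h' h ih =>
    intro _
    exact ⟨y, z, d, u, 0, 0, h', h, Pu.refl z, rfl⟩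

end paths

theorem Pu_zero {X : Type} [Preorder X] {d u : ℕ} {x y : X} (h : Pu d u x y) : d = 0 → x ≤ y := by
  induction h with
  | refl x => intro _; exact le_refl x
  | up _ h ih => intro hd; exact (ih hd).trans h
  | dn _ h ih => intro hd; omega

section chains
variable {P : Type} [PartialOrder P]

theorem chain_comp {l : List P} (hl : l.Pairwise (· < ·)) {x y : P} (hx : x ∈ l) (hy : y ∈ l) :
    x ≤ y ∨ y ≤ x := by
  induction l with
  | nil => simp at hx
  | cons a l ih =>
    rw [List.pairwise_cons] at hl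
    rw [List.mem_cons] at hx hy
    rcases hx with rfl | hx
    · rcases hy with rfl | hy
      · exact Or.inl le_rfl
      · exact Or.inl (hl.1 y hy).le
    · rcases hy with rfl | hy
      · exact Or.inr (hl.1 x hx).le
      · exact ih hl.2 hx hy

theorem chain_sub {l : List P} (hl : l.Pairwise (· < ·)) {x y : P} (hx : x ∈ l) (hy : y ∈ l)
    (hxy : x < y) : [x, y].Sublist l := by
  induction l with
  | nil => simp at hx
  | cons a l ih =>
    rw [List.pairwise_cons] at hl
    rw [List.mem_cons] at hx hy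
    rcases hx with rfl | hx
    · rcases hy with rfl | hy
      · exact absurd hxy (lt_irrefl _)
      · exact (List.singleton_sublist.2 hy).cons_cons x
    · rcases hy with rfl | hy
      · exact absurd (hxy.trans (hl.1 x hx)) (lt_irrefl _)
      · exact (ih hl.2 hx hy).cons a

theorem head_le {a : P} {l : List P} (hl : (a :: l).Pairwise (· < ·)) {x : P} (hx : x ∈ a :: l) :
    a ≤ x := by
  rw [List.mem_cons] at hx
  rcases hx with rfl | hx
  · exact le_rfl
  · exact ((List.pairwise_cons.1 hl).1 x hx).le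

variable {σ : P → P} (hσ : StrictMono σ)

theorem chMap_iter (j : ℕ) (a : Ch P) : ((chMap σ hσ)^[j] a).1 = a.1.map (σ^[j]) := by
  induction j generalizing a with
  | zero => simp
  | succ j ih =>
    rw [Function.iterate_succ_apply, ih]
    change (a.1.map σ).map (σ^[j]) = _
    rw [List.map_map]
    rfl

theorem chMap_mono : Monotone (chMap σ hσ) := by
  intro a b h
  exact List.Sublist.map σ h

theorem chMap_iter_mono (j : ℕ) : Monotone ((chMap σ hσ)^[j]) := (chMap_mono hσ).iterate j

theorem Pu_map {d u : ℕ} {a b : Ch P} (h : Pu d u a b) (j : ℕ) :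
    Pu d u ((chMap σ hσ)^[j] a) ((chMap σ hσ)^[j] b) := by
  induction h with
  | refl x => exact Pu.refl _
  | up _ h ih => exact ih.up (chMap_iter_mono hσ j h)
  | dn _ h ih => exact ih.dn (chMap_iter_mono hσ j h)

/-- following a path -/
theorem follow {d u : ℕ} {a b : Ch P} (h : Pu d u a b) :
    ∀ x ∈ a.1, ∃ y ∈ b.1, ∃ k ≤ d, Pth k x y := by
  induction h with
  | refl a => intro x hx; exact ⟨x, hx, 0, le_rfl, Pth.refl x⟩
  | up _ h ih =>
    intro x hx
    obtain ⟨y, hy, k, hk, hp⟩ := ih x hx
    exact ⟨y, List.Sublist.subset h hy, k, hk, hp⟩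
  | @dn d u a b c h' h ih =>
    intro x hx
    obtain ⟨y, hy, k, hk, hp⟩ := ih x hx
    obtain ⟨z, hz⟩ := List.exists_mem_of_ne_nil _ c.2.1
    have hz' : z ∈ b.1 := List.Sublist.subset h hz
    rcases chain_comp b.2.2 hy hz' with h1 | h1
    · exact ⟨z, hz, k + 1, by omega, hp.up h1⟩
    · exact ⟨z, hz, k + 1, by omega, hp.dn h1⟩

theorem closed_path {q M : ℕ} (hS : SysPoset q M P σ) {d u j : ℕ} (a : Ch P)
    (h : Pu d u a ((chMap σ hσ)^[j] a)) (hd : d ≤ M) : q ∣ j := by
  rcases Nat.eq_zero_or_pos d with h0 | h0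
  · have h1 := Pu_zero h h0
    have h2 : a.1.Sublist ((chMap σ hσ)^[j] a).1 := h1
    rw [chMap_iter] at h2
    have h3 := h2.eq_of_length (by simp)
    obtain ⟨x, l, hx⟩ := List.exists_cons_of_ne_nil a.2.1
    rw [hx, List.map_cons] at h3
    have h4 : x = σ^[j] x := (List.cons.inj h3).1
    refine hS.sys 0 (Nat.zero_le _) x j ?_
    rw [← h4]
    exact Pth.refl x
  · obtain ⟨b, c, d1, u1, d2, u2, h1, h2, h3, h4⟩ := Pu_split h h0
    obtain ⟨x, hx⟩ := List.exists_mem_of_ne_nil _ c.2.1
    obtain ⟨y, hy, k1, hk1, hp1⟩ := follow h3 x hx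
    obtain ⟨z, hz, k2, hk2, hp2⟩ := follow (Pu_map hσ h1 j) y hy
    have hx' : σ^[j] x ∈ ((chMap σ hσ)^[j] b).1 := by
      rw [chMap_iter]
      exact List.mem_map_of_mem (List.Sublist.subset h2 hx)
    have hp := Pth_trans hp1 hp2
    rcases chain_comp ((chMap σ hσ)^[j] b).2.2 hz hx' with h5 | h5
    · exact hS.sys (k1 + k2 + 1) (by omega) x j (hp.up h5)
    · exact hS.sys (k1 + k2 + 1) (by omega) x j (hp.dn h5)

end chains

/-- singletons -/
theorem sing_ok {P : Type} [PartialOrder P] (x : P) : [x] ≠ [] ∧ [x].Pairwise (· < ·) := by simp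

theorem stepSys : StepSysStmt := by
  intro q M P _ _ σ hσ hq _ hS
  have hper : ∀ a : Ch P, (chMap σ hσ)^[q] a = a := by
    intro a
    apply Subtype.ext
    rw [chMap_iter]
    conv_rhs => rw [← List.map_id a.1]
    apply List.map_congr_left
    intro x _
    exact hS.per x
  refine ⟨chMap_mono hσ, hper, ?_, ?_, ?_⟩
  · intro k hk a j h
    obtain ⟨d, u, h1, h2⟩ := Pu_of_Pth h
    by_cases hd : d ≤ M
    · exact closed_path hσ hS a h2 hd
    · have hu : u ≤ M := by omega
      have h3 := Pu_symm h2
      have hback : (chMap σ hσ)^[(q - 1) * j] ((chMap σ hσ)^[j] a) = a := by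
        rw [← Function.iterate_add_apply]
        have e : (q - 1) * j + j = q * j := by
          have := hq.pos
          obtain ⟨r, rfl⟩ : ∃ r, q = r + 1 := ⟨q - 1, by omega⟩
          simp; ring
        rw [e, Function.iterate_mul]
        induction j with
        | zero => rfl
        | succ j ih => rw [Function.iterate_succ_apply', Function.iterate_fixed (hper a), hper]
      have h4 : q ∣ (q - 1) * j := by
        refine closed_path hσ hS (u := d) ((chMap σ hσ)^[j] a) (j := (q - 1) * j) ?_ hu
        rw [hback]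
        exact h3
      have e : (q - 1) * j + j = q * j := by
        have := hq.pos
        obtain ⟨r, rfl⟩ : ∃ r, q = r + 1 := ⟨q - 1, by omega⟩
        simp; ring
      exact (Nat.dvd_add_right h4).1 (e ▸ Nat.dvd_mul_right q j)
  · -- connectedness
    have hsing : ∀ {k : ℕ} {x y : P}, Pth k x y →
        ∃ k', Pth k' (mkCh [x] (sing_ok x)) (mkCh [y] (sing_ok y)) := by
      intro k x y h
      induction h with
      | refl x => exact ⟨0, Pth.refl _⟩
      | @up k x y z _ h ih =>
        obtain ⟨k', hk'⟩ := ih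
        rcases eq_or_lt_of_le h with rfl | h
        · exact ⟨k', hk'⟩
        · have e : [y, z] ≠ [] ∧ [y, z].Pairwise (· < ·) := by simpa using h
          refine ⟨k' + 1 + 1, (hk'.up (z := mkCh [y, z] e) ?_).dn ?_⟩
          · change [y].Sublist [y, z]
            simp
          · change [z].Sublist [y, z]
            simp
      | @dn k x y z _ h ih =>
        obtain ⟨k', hk'⟩ := ih
        rcases eq_or_lt_of_le h with rfl | h
        · exact ⟨k', hk'⟩
        · have e : [z, y] ≠ [] ∧ [z, y].Pairwise (· < ·) := by simpa using h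
          refine ⟨k' + 1 + 1, (hk'.up (z := mkCh [z, y] e) ?_).dn ?_⟩
          · change [y].Sublist [z, y]
            simp
          · change [z].Sublist [z, y]
            simp
    intro a b
    obtain ⟨x, l, hx⟩ := List.exists_cons_of_ne_nil a.2.1
    obtain ⟨y, m, hy⟩ := List.exists_cons_of_ne_nil b.2.1
    obtain ⟨k, hk⟩ := hS.conn x y
    obtain ⟨k', hk'⟩ := hsing hk
    have h1 : Pth 1 a (mkCh [x] (sing_ok x)) := (Pth.refl a).dn (by
      change [x].Sublist a.1
      rw [hx]; simp)
    exact ⟨1 + k' + 1, (Pth_trans h1 hk').up (by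
      change [y].Sublist b.1
      rw [hy]; simp)⟩
  · -- cocycles
    classical
    intro A _ c hc
    let sg : P → Ch P := fun x => mkCh [x] (sing_ok x)
    let c' : P → P → A := fun x y =>
      if h : x < y then
        c (sg x) (mkCh [x, y] (by simpa using h)) - c (sg y) (mkCh [x, y] (by simpa using h))
      else 0
    have hcc : ∀ a : Ch P, c a a = 0 := by
      intro a
      have := hc a a a le_rfl le_rfl
      exact add_eq_left.1 this.symm
    have key : ∀ (t : Ch P) (x y : P), x ∈ t.1 → y ∈ t.1 → x ≤ y →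
        c' x y = c (sg x) t - c (sg y) t := by
      intro t x y hx hy hxy
      rcases eq_or_lt_of_le hxy with rfl | hlt
      · simp only [c', lt_irrefl, dif_neg, not_false_iff, sub_self]
      · simp only [c', dif_pos hlt]
        have e : [x, y] ≠ [] ∧ [x, y].Pairwise (· < ·) := by simpa using hlt
        have h1 : mkCh [x, y] e ≤ t := chain_sub t.2.2 hx hy hlt
        have h2 : sg x ≤ mkCh [x, y] e := by
          change [x].Sublist [x, y]; simp
        have h3 : sg y ≤ mkCh [x, y] e := by
          change [y].Sublist [x, y]; simp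
        rw [hc _ _ _ h2 h1, hc _ _ _ h3 h1]
        abel
    have hzero : ∀ x, c' x x = 0 := by
      intro x
      simp only [c', lt_irrefl, dif_neg, not_false_iff]
    obtain ⟨h', hh'⟩ := hS.h1 A c' (by
      intro x y z hxy hyz
      rcases eq_or_lt_of_le hxy with rfl | hxy'
      · rw [hzero, zero_add]
      rcases eq_or_lt_of_le hyz with rfl | hyz'
      · rw [hzero, add_zero]
      have e : [x, y, z] ≠ [] ∧ [x, y, z].Pairwise (· < ·) := by
        simp [hxy', hyz', hxy'.trans hyz']
      rw [key (mkCh [x, y, z] e) x z (by simp [mkCh]) (by simp [mkCh]) (hxy.trans hyz),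
        key (mkCh [x, y, z] e) x y (by simp [mkCh]) (by simp [mkCh]) hxy,
        key (mkCh [x, y, z] e) y z (by simp [mkCh]) (by simp [mkCh]) hyz]
      abel)
    refine ⟨fun a => h' (a.1.head a.2.1) - c (sg (a.1.head a.2.1)) a, ?_⟩
    intro a b hab
    set x := a.1.head a.2.1 with hx
    set y := b.1.head b.2.1 with hy
    have hxa : x ∈ a.1 := List.head_mem _
    have hyb : y ∈ b.1 := List.head_mem _
    have hxb : x ∈ b.1 := List.Sublist.subset hab hxa
    have hyx : y ≤ x := by
      obtain ⟨z, l, hz⟩ := List.exists_cons_of_ne_nil b.2.1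
      have h1 : y = z := by simp only [hy, hz, List.head_cons]
      rw [h1]
      have h2 := b.2.2
      rw [hz] at h2 hxb
      exact head_le h2 hxb
    have h3 := key b y x hyb hxb hyx
    rw [hh' y x hyx] at h3
    have h4 : c (sg x) b = c (sg x) a + c a b := hc _ _ _ (List.singleton_sublist.2 hxa) hab
    change c a b = h' x - c (sg x) a - (h' y - c (sg y) b)
    have h5 : h' x = h' y - (c (sg y) b - c (sg x) b) := by
      rw [← h3]; abel
    rw [h5, h4]
    abel

end Pool.Agent.W374.FBS
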