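import Pool.Agent.W374.FbsCh

/-!
# FBS-13: subdivision of the algebraic chains
-/

set_option autoImplicit false

namespace Pool.Agent.W374.FBS

open Relation Pool.Agent.W435.FB

variable {q : ℕ} {P : Type}

/-- the subdivision operator on chains of lists of length `k` -/
noncomputable def sd (q : ℕ) {P : Type} :
    ℕ → ((List P →₀ ZMod q) →ₗ[ZMod q] (List (List P) →₀ ZMod q))
  | 0 => Finsupp.linearCombination (ZMod q) (fun _ => Finsupp.single [] 1)
  | k + 1 => Finsupp.linearCombination (ZMod q)
      (fun l => ((-1 : ℤ) ^ k) • ap q l (sd q k (bdl q l)))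

theorem sd_zero_single (l : List P) : sd q 0 (Finsupp.single l 1) = Finsupp.single [] 1 := by
  simp [sd]

theorem sd_succ_single (k : ℕ) (l : List P) :
    sd q (k + 1) (Finsupp.single l 1) = ((-1 : ℤ) ^ k) • ap q l (sd q k (bdl q l)) := by
  simp [sd]

theorem mem_univ_supp (c : List P →₀ ZMod q) :
    c ∈ Finsupp.supported (ZMod q) (ZMod q) (Set.univ : Set (List P)) := by
  rw [Finsupp.supported_univ]; trivial

theorem sd_hom (k : ℕ) (c : List P →₀ ZMod q) : sd q k c ∈ Hom q (List P) k := by
  induction k generalizing c with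
  | zero =>
    refine lin_mem_on (fun l _ => ?_) (mem_univ_supp c)
    rw [sd_zero_single]
    apply single_mem
    exact rfl
  | succ k ih =>
    refine lin_mem_on (fun l _ => ?_) (mem_univ_supp c)
    rw [sd_succ_single]
    refine zsmul_mem ?_ _
    refine lin_mem_on (fun F hF => ?_) (ih (bdl q l))
    rw [ap_single]
    apply single_mem
    have : F.length = k := hF
    change (F ++ [l]).length = k + 1
    rw [List.length_append, this]; rfl

theorem bd_hom0 {c : List P →₀ ZMod q} (hc : c ∈ Hom q P 0) : bd q c = 0 := by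
  refine lin_ext_on (f := bd q) (g := 0) (fun l hl => ?_) hc
  have : l = [] := List.length_eq_zero_iff.1 hl
  subst this
  rw [bd_single_one, bdl_nil]; rfl

theorem bd_sd (k : ℕ) (c : List P →₀ ZMod q) : bd q (sd q (k + 1) c) = sd q k (bd q c) := by
  induction k generalizing c with
  | zero =>
    refine LinearMap.congr_fun (f := (bd q).comp (sd q (0 + 1))) (g := (sd q 0).comp (bd q)) ?_ c
    apply lin_ext
    intro l
    simp only [LinearMap.comp_apply]
    rw [sd_succ_single, map_zsmul, bd_ap _ (sd_hom 0 _), bd_hom0 (sd_hom 0 _), map_zero,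
      bd_single_one]
    simp
  | succ k ih =>
    refine LinearMap.congr_fun (f := (bd q).comp (sd q (k + 1 + 1)))
      (g := (sd q (k + 1)).comp (bd q)) ?_ c
    apply lin_ext
    intro l
    simp only [LinearMap.comp_apply]
    rw [sd_succ_single, map_zsmul, bd_ap _ (sd_hom (k + 1) _), ih, bd_bdl, map_zero, map_zero,
      zero_add, smul_smul, ← mul_pow, bd_single_one]
    simp

theorem mp_ap {Q : Type} (φ : P → Q) (t : P) (c : List P →₀ ZMod q) :
    mp q φ (ap q t c) = ap q (φ t) (mp q φ c) := by
  have : (mp q φ).comp (ap q t) = (ap q (φ t)).comp (mp q φ) := by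
    apply lin_ext
    intro l
    simp only [LinearMap.comp_apply]
    rw [ap_single, mp_single, mp_single, ap_single]
    simp
  exact LinearMap.congr_fun this c

theorem sd_mp (σ : P → P) (k : ℕ) (c : List P →₀ ZMod q) :
    sd q k (mp q σ c) = mp q (List.map σ) (sd q k c) := by
  induction k generalizing c with
  | zero =>
    refine LinearMap.congr_fun (f := (sd q 0).comp (mp q σ))
      (g := (mp q (List.map σ)).comp (sd q 0)) ?_ c
    apply lin_ext
    intro l
    simp only [LinearMap.comp_apply]
    rw [mp_single, sd_zero_single, sd_zero_single, mp_single]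
    rfl
  | succ k ih =>
    refine LinearMap.congr_fun (f := (sd q (k + 1)).comp (mp q σ))
      (g := (mp q (List.map σ)).comp (sd q (k + 1))) ?_ c
    apply lin_ext
    intro l
    simp only [LinearMap.comp_apply]
    rw [mp_single, sd_succ_single, sd_succ_single, map_zsmul, mp_ap, ← ih, mp_bdl]

theorem map_iter (σ : P → P) (j : ℕ) (l : List P) : (List.map σ)^[j] l = l.map (σ^[j]) := by
  induction j generalizing l with
  | zero => simp
  | succ j ih => rw [Function.iterate_succ_apply, ih, List.map_map]; rfl

theorem sd_opn (σ : P → P) (k i : ℕ) (c : List P →₀ ZMod q) :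
    sd q k (opn q σ i c) = opn q (List.map σ) i (sd q k c) := by
  have h1 : ∀ j, sd q k (act q (σ^[j]) c) = act q ((List.map σ)^[j]) (sd q k c) := by
    intro j
    rw [act_eq, sd_mp, act_eq]
    congr 2
    funext l
    rw [map_iter]
  unfold opn
  split_ifs
  · have := h1 1
    rw [Function.iterate_one, Function.iterate_one] at this
    simp only [LinearMap.sub_apply, LinearMap.id_apply, map_sub]
    rw [this]
  · rw [LinearMap.sum_apply, LinearMap.sum_apply, map_sum]
    exact Finset.sum_congr rfl fun j _ => h1 j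

theorem bdl_supp (l : List P) : bdl q l ∈ Finsupp.supported (ZMod q) (ZMod q)
    {l' : List P | l'.Sublist l ∧ l'.length + 1 = l.length} := by
  induction l with
  | nil => rw [bdl_nil]; exact Submodule.zero_mem _
  | cons x l ih =>
    rw [bdl_cons]
    refine Submodule.sub_mem _ (by
      apply single_mem
      exact ⟨List.sublist_cons_self x l, rfl⟩) ?_
    refine lin_mem_on (fun l' hl' => ?_) ih
    rw [cn_single]
    apply single_mem
    obtain ⟨h1, h2⟩ := hl'
    exact ⟨h1.cons_cons x, by simp [h2]⟩

/-- flags of sublists -/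
def Fl (l : List P) (k : ℕ) : Set (List (List P)) :=
  {F | F.length = k ∧ F.Pairwise (fun a b => a.Sublist b ∧ a ≠ b) ∧ ∀ a ∈ F, a ≠ [] ∧ a.Sublist l}

theorem sd_fl (k : ℕ) : ∀ l : List P, l.length = k →
    sd q k (Finsupp.single l 1) ∈ Finsupp.supported (ZMod q) (ZMod q) (Fl l k) := by
  induction k with
  | zero =>
    intro l _
    rw [sd_zero_single]
    apply single_mem
    exact ⟨rfl, List.Pairwise.nil, by simp⟩
  | succ k ih =>
    intro l hl
    rw [sd_succ_single]
    refine zsmul_mem ?_ _
    have h1 : sd q k (bdl q l) ∈ Finsupp.supported (ZMod q) (ZMod q)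
        {F | ∃ l' : List P, l'.Sublist l ∧ l'.length = k ∧ F ∈ Fl l' k} := by
      refine lin_mem_on (fun l' hl' => ?_) (bdl_supp l)
      obtain ⟨h2, h3⟩ := hl'
      have h4 : l'.length = k := by omega
      refine Finsupp.supported_mono ?_ (ih l' h4)
      intro F hF
      exact ⟨l', h2, h4, hF⟩
    refine lin_mem_on (fun F hF => ?_) h1
    rw [ap_single]
    apply single_mem
    obtain ⟨l', h2, h3, h4, h5, h6⟩ := hF
    refine ⟨by simp [h4], ?_, ?_⟩
    · rw [List.pairwise_append]
      refine ⟨h5, List.pairwise_singleton _ _, ?_⟩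
      intro a ha b hb
      rw [List.mem_singleton] at hb
      subst hb
      refine ⟨(h6 a ha).2.trans h2, ?_⟩
      rintro rfl
      have := (h6 a ha).2.length_le
      omega
    · intro a ha
      rw [List.mem_append, List.mem_singleton] at ha
      rcases ha with ha | rfl
      · exact ⟨(h6 a ha).1, (h6 a ha).2.trans h2⟩
      · refine ⟨?_, List.Sublist.refl _⟩
        rintro rfl
        simp at hl

section
variable [PartialOrder P]

/-- an increasing list as an element of the poset of chains -/
def mkCh (l : List P) (h : l ≠ [] ∧ l.Pairwise (· < ·)) : Ch P := ⟨l, h⟩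

open Classical in
/-- lists as elements of the poset of chains -/
noncomputable def toCh (x0 : P) (l : List P) : Ch P :=
  if h : l ≠ [] ∧ l.Pairwise (· < ·) then mkCh l h else mkCh [x0] (by simp)

theorem toCh_val (x0 : P) {l : List P} (h : l ≠ [] ∧ l.Pairwise (· < ·)) :
    (toCh x0 l).1 = l := by
  unfold toCh
  rw [dif_pos h]
  rfl

theorem toCh_map (x0 : P) (σ : P → P) (hσ : StrictMono σ) {l : List P}
    (h : l ≠ [] ∧ l.Pairwise (· < ·)) : toCh x0 (l.map σ) = chMap σ hσ (toCh x0 l) := by
  apply Subtype.ext
  have h' : l.map σ ≠ [] ∧ (l.map σ).Pairwise (· < ·) := by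
    refine ⟨by simpa using h.1, ?_⟩
    rw [List.pairwise_map]; exact h.2.imp (fun h' => hσ h')
  rw [toCh_val x0 h']
  change _ = (toCh x0 l).1.map σ
  rw [toCh_val x0 h]

theorem toCh_iter (x0 : P) (σ : P → P) (hσ : StrictMono σ) (j : ℕ) : ∀ {l : List P},
    (l ≠ [] ∧ l.Pairwise (· < ·)) → toCh x0 ((List.map σ)^[j] l) = (chMap σ hσ)^[j] (toCh x0 l) := by
  induction j with
  | zero => intro l _; rfl
  | succ j ih =>
    intro l h
    have h' : l.map σ ≠ [] ∧ (l.map σ).Pairwise (· < ·) := by
      refine ⟨by simpa using h.1, ?_⟩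
      rw [List.pairwise_map]; exact h.2.imp (fun h' => hσ h')
    rw [Function.iterate_succ_apply, Function.iterate_succ_apply, ih h', toCh_map x0 σ hσ h]

end

/-- flags of increasing lists -/
def GF (P : Type) [PartialOrder P] (k : ℕ) : Set (List (List P)) :=
  {F | F.length = k ∧ F.Pairwise (fun a b => a.Sublist b ∧ a ≠ b) ∧
    ∀ a ∈ F, a ≠ [] ∧ a.Pairwise (· < ·)}

theorem stepW : StepWStmt := by
  intro q m P _ σ hσ ⟨w, hw1, hw2, hw3⟩
  by_cases hP : Nonempty P
  · obtain ⟨x0⟩ := hP
    have hsupp : ∀ i ≤ m, sd q (i + 1) (w i) ∈ Finsupp.supported (ZMod q) (ZMod q) (GF P (i + 1)) := by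
      intro i hi
      have hc : w i ∈ Finsupp.supported (ZMod q) (ZMod q) ((w i).support : Set (List P)) := by
        rw [Finsupp.mem_supported]
      refine lin_mem_on (fun l hl => ?_) hc
      obtain ⟨h1, h2⟩ := hw1 i hi l hl
      refine Finsupp.supported_mono ?_ (sd_fl (i + 1) l h1)
      rintro F ⟨h3, h4, h5⟩
      exact ⟨h3, h4, fun a ha => ⟨(h5 a ha).1, h2.sublist (h5 a ha).2⟩⟩
    refine ⟨fun i => mp q (toCh x0) (sd q (i + 1) (w i)), ?_, ?_, ?_⟩
    · intro i hi
      have : mp q (toCh x0) (sd q (i + 1) (w i)) ∈ Finsupp.supported (ZMod q) (ZMod q)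
          {L : List (Ch P) | L.length = i + 1 ∧ L.Pairwise (· < ·)} := by
        refine lin_mem_on (fun F hF => ?_) (hsupp i hi)
        rw [mp_single]
        apply single_mem
        obtain ⟨h1, h2, h3⟩ := hF
        refine ⟨by simpa using h1, ?_⟩
        rw [List.pairwise_map]
        refine h2.imp_of_mem fun {a b} ha hb hab => ?_
        refine lt_of_le_of_ne ?_ ?_
        · change (toCh x0 a).1.Sublist (toCh x0 b).1
          rw [toCh_val x0 (h3 a ha), toCh_val x0 (h3 b hb)]
          exact hab.1
        · intro h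
          have := congrArg Subtype.val h
          rw [toCh_val x0 (h3 a ha), toCh_val x0 (h3 b hb)] at this
          exact hab.2 this
      rw [Finsupp.mem_supported] at this
      intro L hL
      exact this hL
    · rw [← mp_bd, bd_sd, hw2, sd_zero_single, mp_single]
      rfl
    · intro i hi
      simp only
      rw [← mp_bd, bd_sd, hw3 i hi, sd_opn]
      refine (opn_mp (List.map σ) (chMap σ hσ) (toCh x0) i ?_).symm
      intro F hF a ha j
      have hs := hsupp i (by omega)
      rw [Finsupp.mem_supported] at hs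
      obtain ⟨_, _, h3⟩ := hs hF
      exact toCh_iter x0 σ hσ j (h3 a ha)
  · -- the coefficient ring is trivial
    have h0 : w 0 = 0 := by
      rw [← Finsupp.support_eq_empty, Finset.eq_empty_iff_forall_notMem]
      intro l hl
      obtain ⟨h1, _⟩ := hw1 0 (Nat.zero_le _) l hl
      rcases l with _ | ⟨x, l⟩
      · simp at h1
      · exact hP ⟨x⟩
    rw [h0, map_zero] at hw2
    have h1 : (1 : ZMod q) = 0 := by
      have := DFunLike.congr_fun hw2 ([] : List P)
      rw [Finsupp.single_eq_same] at this
      exact this.symm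
    have : Subsingleton (ZMod q) := subsingleton_of_zero_eq_one h1.symm
    exact ⟨fun _ => 0, by simp, Subsingleton.elim _ _, fun _ _ => Subsingleton.elim _ _⟩

end Pool.Agent.W374.FBS
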