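import Pool.Agent.W374.FbsCyc

/-!
# FBS-3: Theorem A, the word problem modulo the schemas `SchA`
-/

set_option autoImplicit false

namespace Pool.Agent.W374.FBS

open Relation Pool.Agent.W435.FB

/-! ### words with inserted loops -/

/-- a letter with a closed walk at it -/
def good (d : ℕ × List ℕ) : Prop := ∃ m, d.1 :: d.2 = m ++ [d.1]

/-- powers of a word -/
def wpw (k : ℕ) (l : List ℕ) : List ℕ := (List.replicate k l).flatten

theorem wpw_zero (l : List ℕ) : wpw 0 l = [] := by simp [wpw]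
theorem wpw_succ (k : ℕ) (l : List ℕ) : wpw (k + 1) l = l ++ wpw k l := by
  simp [wpw, List.replicate_succ]

/-- the word with `k` copies of the inserted loops -/
def ex (k : ℕ) (D : List (ℕ × List ℕ)) : List ℕ := D.flatMap fun d => d.1 :: wpw k d.2

theorem ex_nil (k : ℕ) : ex k [] = [] := rfl
theorem ex_cons (k : ℕ) (d : ℕ × List ℕ) (D : List (ℕ × List ℕ)) :
    ex k (d :: D) = d.1 :: (wpw k d.2 ++ ex k D) := by simp [ex]
theorem ex_append (k : ℕ) (D D' : List (ℕ × List ℕ)) : ex k (D ++ D') = ex k D ++ ex k D' := by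
  simp [ex]

/-- edges of the inserted loops -/
def Om (D : List (ℕ × List ℕ)) : Multiset (ℕ × ℕ) := (D.map fun d => adjm (d.1 :: d.2)).sum

theorem adjm_append (p : List ℕ) (x : ℕ) (s : List ℕ) :
    adjm (p ++ x :: s) = adjm (p ++ [x]) + adjm (x :: s) := by
  unfold adjm
  rw [adj_append, ← Multiset.coe_add]

theorem adjm_cons (x y : ℕ) (l : List ℕ) : adjm (x :: y :: l) = {(x, y)} + adjm (y :: l) := rfl

theorem adjm_one (x : ℕ) : adjm [x] = 0 := rfl

theorem count_adjm (w : List ℕ) (p : ℕ × ℕ) : (adjm w).count p = (adj w).count p := by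
  unfold adjm
  rw [Multiset.coe_count]
  congr 1
  exact lawful_beq_subsingleton _ _

theorem map_triv (u : List ℕ) : (u.map fun z => (z, ([] : List ℕ))).map Prod.fst = u := by
  rw [List.map_map]
  exact List.map_id _

theorem adjm_good {d : ℕ × List ℕ} (h : good d) (R : List ℕ) :
    adjm (d.1 :: (d.2 ++ R)) = adjm (d.1 :: d.2) + adjm (d.1 :: R) := by
  obtain ⟨m, hm⟩ := h
  rw [← List.cons_append, hm, List.append_assoc, List.singleton_append, adjm_append]

theorem adjm_good_pw {d : ℕ × List ℕ} (h : good d) (k : ℕ) (R : List ℕ) :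
    adjm (d.1 :: (wpw k d.2 ++ R)) = k • adjm (d.1 :: d.2) + adjm (d.1 :: R) := by
  induction k with
  | zero => simp [wpw_zero]
  | succ k ih => rw [wpw_succ, List.append_assoc, adjm_good h, ih, succ_nsmul]; ac_rfl

theorem adjm_ex (k : ℕ) (R : List ℕ) (D : List (ℕ × List ℕ)) : (∀ d ∈ D, good d) → ∀ z,
    adjm (z :: (ex k D ++ R)) = adjm (z :: (D.map Prod.fst ++ R)) + k • Om D := by
  induction D with
  | nil => intro _ z; simp [ex_nil, Om]
  | cons d D ih =>
    intro h z
    rw [ex_cons, List.map_cons, List.cons_append, List.cons_append, adjm_cons, adjm_cons,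
      List.append_assoc, adjm_good_pw (h d (by simp)),
      ih (fun e he => h e (List.mem_cons_of_mem _ he))]
    simp only [Om, List.map_cons, List.sum_cons, smul_add]
    ac_rfl

theorem adjm_pw (x : ℕ) (a : List ℕ) (k : ℕ) : ∀ (Q Y : List ℕ),
    adjm (Q ++ (wpw k (x :: a) ++ x :: Y)) =
      adjm (Q ++ [x]) + k • adjm (x :: (a ++ [x])) + adjm (x :: Y) := by
  induction k with
  | zero => intro Q Y; rw [wpw_zero, List.nil_append, adjm_append, zero_smul, add_zero]
  | succ k ih =>
    intro Q Y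
    have := ih (x :: a) Y
    rw [wpw_succ, List.append_assoc, List.cons_append, adjm_append, ← List.cons_append, this,
      List.cons_append, succ_nsmul]
    ac_rfl

theorem head_pw (x : ℕ) (a : List ℕ) (k : ℕ) (Q Y : List ℕ) :
    (Q ++ (wpw k (x :: a) ++ x :: Y)).head? = (Q ++ [x]).head? := by
  rcases Q with _ | ⟨q, Q⟩
  · rcases k with _ | k
    · simp [wpw_zero]
    · simp [wpw_succ]
  · simp

theorem euler' {n : ℕ} {T : Type} [Semigroup T] (hS : SchA n T) (f : ℕ → T) {w w' : List ℕ}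
    (h1 : w.head? = w'.head?) (h2 : adjm w = adjm w') : val f w = val f w' := by
  rcases w with _ | ⟨x, w⟩
  · rcases w' with _ | ⟨y, w'⟩
    · rfl
    · simp at h1
  · rcases w' with _ | ⟨y, w'⟩
    · simp at h1
    · simp only [List.head?_cons, Option.some.injEq] at h1
      subst h1
      exact euler n T hS f x w w' (Multiset.coe_eq_coe.1 h2)

theorem val_pw {T : Type} [Semigroup T] (f : ℕ → T) (k : ℕ) (l : List ℕ) :
    val f (wpw k l) = val f l ^ k := by
  induction k with
  | zero => simp [wpw_zero, val_nil]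
  | succ k ih => rw [wpw_succ, val_append, ih, pow_succ']

/-- pumping the inserted loops -/
theorem val_ex {n : ℕ} {T : Type} [Semigroup T] (hS : SchA n T) (f : ℕ → T)
    (D : List (ℕ × List ℕ)) : (∀ d ∈ D, good d) → val f (ex 1 D) = val f (ex (n + 1) D) := by
  induction D with
  | nil => intro _; rfl
  | cons d D ih =>
    intro h
    obtain ⟨z, L⟩ := d
    obtain ⟨m, hm⟩ := h (z, L) (by simp)
    rw [ex_cons, ex_cons, val_cons, val_cons, val_append, val_append,
      ih (fun e he => h e (List.mem_cons_of_mem _ he)), ← mul_assoc, ← mul_assoc]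
    congr 1
    simp only at hm ⊢
    rw [val_pw, val_pw, pow_one]
    rcases m with _ | ⟨y, m⟩
    · simp only [List.nil_append, List.cons.injEq, true_and] at hm
      subst hm
      simp [val_nil]
    · simp only [List.cons_append, List.cons.injEq] at hm
      obtain ⟨rfl, rfl⟩ := hm
      have e : val f (m ++ [z]) = val f m * f z := by
        rw [val_append, val_cons, val_nil, mul_one]
      rw [e, ← mul_assoc, hS.s3 (f z) (val f m)]
      generalize (f z : WithOne T) = a
      generalize val f m = b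
      induction (n + 1) with
      | zero => simp
      | succ k ih2 => rw [pow_succ', mul_assoc (a * b), ih2, pow_succ' (b * a)]; simp only [mul_assoc]

/-- `W` is obtained from `u` by inserting loops -/
def Ext (u W : List ℕ) : Prop := ∃ D : List (ℕ × List ℕ), (∀ d ∈ D, good d) ∧
  D.map Prod.fst = u ∧ ex 1 D = W

theorem Ext.head {u W : List ℕ} (h : Ext u W) : W.head? = u.head? := by
  obtain ⟨D, _, rfl, rfl⟩ := h
  rcases D with _ | ⟨d, D⟩
  · rfl
  · rw [ex_cons]; rfl

theorem good_triv (z : ℕ) : good (z, []) := ⟨[], rfl⟩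

theorem ex_triv (k : ℕ) (u : List ℕ) : ex k (u.map fun z => (z, [])) = u := by
  induction u with
  | nil => rfl
  | cons z u ih => rw [List.map_cons, ex_cons, ih]; simp [wpw]

theorem Ext.refl (u : List ℕ) : Ext u u := by
  refine ⟨u.map fun z => (z, []), ?_, ?_, ex_triv 1 u⟩
  · intro d hd
    obtain ⟨z, _, rfl⟩ := List.mem_map.1 hd
    exact good_triv z
  · exact map_triv u

/-- a loop that begins with a given letter -/
theorem exists_tail {x : ℕ} {L m : List ℕ} (h : x :: L = m ++ [x]) (a : List ℕ) (k : ℕ) :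
    ∃ L', x :: L' = m ++ (wpw k (x :: a) ++ [x]) := by
  rcases m with _ | ⟨y, m⟩
  · rcases k with _ | k
    · exact ⟨[], by simp [wpw_zero]⟩
    · exact ⟨a ++ wpw k (x :: a) ++ [x], by simp [wpw_succ]⟩
  · simp only [List.cons_append, List.cons.injEq] at h
    exact ⟨m ++ (wpw k (x :: a) ++ [x]), by simp [h.1]⟩

theorem Ext.ins (p s c : List ℕ) (x k : ℕ) :
    Ext (p ++ x :: s) (p ++ (wpw k (x :: c) ++ x :: s)) := by
  obtain ⟨L, hL⟩ := exists_tail (x := x) (L := []) (m := []) rfl c k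
  rw [List.nil_append] at hL
  refine ⟨(p.map fun z => (z, [])) ++ (x, L) :: (s.map fun z => (z, [])), ?_, ?_, ?_⟩
  · intro d hd
    rw [List.mem_append, List.mem_cons] at hd
    rcases hd with hd | rfl | hd
    · obtain ⟨z, _, rfl⟩ := List.mem_map.1 hd
      exact good_triv z
    · exact ⟨_, hL⟩
    · obtain ⟨z, _, rfl⟩ := List.mem_map.1 hd
      exact good_triv z
  · rw [List.map_append, List.map_cons, map_triv, map_triv]
  · rw [ex_append, ex_cons, ex_triv, ex_triv]
    congr 1
    have : wpw 1 L = L := by simp [wpw]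
    simp only [this]
    rw [← List.cons_append, hL]
    simp

/-- inserting a closed factor -/
theorem Ext.pump {n : ℕ} {T : Type} [Semigroup T] (hS : SchA n T) (f : ℕ → T) {u W : List ℕ}
    (h : Ext u W) {x : ℕ} {a : List ℕ} (ha : (x :: a ++ [x]) <:+: u) :
    ∃ W', Ext u W' ∧ val f W' = val f W ∧ adjm W' = adjm W + n • adjm (x :: a ++ [x]) := by
  obtain ⟨D, hD, hDu, rfl⟩ := h
  obtain ⟨p, s, hps⟩ := ha
  have e0 : D.map Prod.fst = p ++ (x :: (a ++ (x :: s))) := by
    rw [hDu, ← hps]; simp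
  obtain ⟨Dp, D1, rfl, hp, h1⟩ := List.map_eq_append_iff.1 e0
  obtain ⟨d1, D2, rfl, hd1, h2⟩ := List.map_eq_cons_iff.1 h1
  obtain ⟨Da, D3, rfl, h3, h4⟩ := List.map_eq_append_iff.1 h2
  obtain ⟨d2, Ds, rfl, hd2, h5⟩ := List.map_eq_cons_iff.1 h4
  obtain ⟨x', L1⟩ := d1
  obtain ⟨x'', L2⟩ := d2
  simp only at hd1 hd2
  subst hd1
  subst hd2
  have hgDa : ∀ d ∈ Da, good d := fun d hd => hD d (by simp [hd])
  obtain ⟨m, hm⟩ := hD (x'', L1) (by simp)
  simp only at hm
  set x := x''
  have w1 : ∀ L, wpw 1 L = L := by intro L; simp [wpw]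
  set Q := ex 1 Dp ++ m with hQ
  set R := L2 ++ ex 1 Ds with hR
  have eW : ex 1 (Dp ++ (x, L1) :: (Da ++ (x, L2) :: Ds)) = Q ++ x :: (ex 1 Da ++ x :: R) := by
    rw [ex_append, ex_cons, ex_append, ex_cons]
    simp only [w1]
    rw [← List.cons_append, hm, hQ, hR]
    simp
  obtain ⟨L', hL'⟩ := exists_tail hm a n
  refine ⟨Q ++ (wpw n (x :: a) ++ x :: (ex 1 Da ++ x :: R)), ?_, ?_, ?_⟩
  · refine ⟨Dp ++ (x, L') :: (Da ++ (x, L2) :: Ds), ?_, ?_, ?_⟩
    · intro d hd
      rw [List.mem_append, List.mem_cons] at hd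
      rcases hd with hd | rfl | hd
      · exact hD d (by simp [hd])
      · exact ⟨m ++ wpw n (x :: a), by simpa using hL'⟩
      · exact hD d (List.mem_append_right _ (List.mem_cons_of_mem _ hd))
    · rw [← hDu]; simp
    · rw [ex_append, ex_cons, ex_append, ex_cons]
      simp only [w1]
      rw [← List.cons_append, hL', hQ, hR]
      simp
  · rw [eW]
    -- s3
    have v1 : val f (Q ++ x :: (ex 1 Da ++ x :: R)) =
        val f (Q ++ (wpw (n + 1) (x :: ex 1 Da) ++ x :: R)) := by
      simp only [val_append, val_cons, val_pw]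
      have := hS.s3 (f x) (val f (ex 1 Da))
      calc val f Q * ((f x : WithOne T) * (val f (ex 1 Da) * (f x * val f R)))
          = val f Q * (((f x : WithOne T) * val f (ex 1 Da) * f x) * val f R) := by
            simp only [mul_assoc]
        _ = _ := by rw [this]; simp only [mul_assoc]
    have v2 : val f (Q ++ (wpw n (x :: a) ++ x :: (ex 1 Da ++ x :: R))) =
        val f (Q ++ (wpw n (x :: a) ++ x :: (ex (n + 1) Da ++ x :: R))) := by
      simp only [val_append, val_cons]
      rw [val_ex hS f Da hgDa]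
    rw [v1, v2]
    apply euler' hS f
    · rw [head_pw, head_pw]
    · rw [adjm_pw, adjm_pw, adjm_ex _ _ _ hgDa, adjm_ex _ _ _ hgDa, h3, adjm_split x a x R]
      simp only [add_smul, smul_add, one_smul]
      abel
  · rw [eW, adjm_pw, adjm_append Q x (ex 1 Da ++ x :: R)]
    rw [List.cons_append]
    ac_rfl

/-- combinations of closed words -/
def SS (g : ℤ → ℕ) (ls : List (ℤ × ℕ × List ℕ)) : Multiset (ℕ × ℕ) :=
  (ls.map fun c => g c.1 • adjm (c.2.1 :: c.2.2 ++ [c.2.1])).sum

theorem SS_sub (ls : List (ℤ × ℕ × List ℕ)) (p : ℕ × ℕ) :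
    (((SS Int.toNat ls).count p : ℕ) : ℤ) - ((SS (fun c => (-c).toNat) ls).count p : ℕ) =
      (ls.map fun c => c.1 * ((adj (c.2.1 :: c.2.2 ++ [c.2.1])).count p : ℤ)).sum := by
  induction ls with
  | nil => simp [SS]
  | cons c ls ih =>
    simp only [SS, List.map_cons, List.sum_cons, Multiset.count_add, Multiset.count_nsmul] at ih ⊢
    rw [← ih]
    have h1 := count_adjm (c.2.1 :: c.2.2 ++ [c.2.1]) p
    rw [h1]
    have h2 := Int.toNat_sub_toNat_neg c.1
    push_cast
    linear_combination ((adj (c.2.1 :: c.2.2 ++ [c.2.1])).count p : ℤ) * h2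

/-- iteration -/
theorem iter {n : ℕ} {T : Type} [Semigroup T] (f : ℕ → T) (St : List ℕ → Prop)
    (K : ℕ × List ℕ → Prop)
    (hstep : ∀ c, K c → ∀ W, St W → ∃ W', St W' ∧ val f W' = val f W ∧
      adjm W' = adjm W + n • adjm (c.1 :: c.2 ++ [c.1]))
    (g : ℤ → ℕ) (ls : List (ℤ × ℕ × List ℕ)) : (∀ c ∈ ls, K c.2) → ∀ W, St W →
    ∃ W', St W' ∧ val f W' = val f W ∧ adjm W' = adjm W + n • SS g ls := by
  have hk : ∀ c, K c → ∀ k : ℕ, ∀ W, St W → ∃ W', St W' ∧ val f W' = val f W ∧
      adjm W' = adjm W + n • (k • adjm (c.1 :: c.2 ++ [c.1])) := by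
    intro c hc k
    induction k with
    | zero => intro W hW; exact ⟨W, hW, rfl, by simp⟩
    | succ k ih =>
      intro W hW
      obtain ⟨W1, h1, h2, h3⟩ := ih W hW
      obtain ⟨W2, h4, h5, h6⟩ := hstep c hc W1 h1
      refine ⟨W2, h4, h5.trans h2, ?_⟩
      rw [h6, h3, succ_nsmul, smul_add]
      ac_rfl
  induction ls with
  | nil => intro _ W hW; exact ⟨W, hW, rfl, by simp [SS]⟩
  | cons c ls ih =>
    intro h W hW
    obtain ⟨W1, h1, h2, h3⟩ := ih (fun d hd => h d (List.mem_cons_of_mem _ hd)) W hW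
    obtain ⟨W2, h4, h5, h6⟩ := hk c.2 (h c (by simp)) (g c.1) W1 h1
    refine ⟨W2, h4, h5.trans h2, ?_⟩
    rw [h6, h3]
    simp only [SS, List.map_cons, List.sum_cons, smul_add]
    ac_rfl

theorem mem_adjm {w : List ℕ} {p : ℕ × ℕ} : p ∈ adjm w ↔ p ∈ adj w := Multiset.mem_coe

/-- inserting a closed word with edges of `u` -/
theorem M1 {n : ℕ} {T : Type} [Semigroup T] (hS : SchA n T) (f : ℕ → T) (u : List ℕ)
    (x : ℕ) (c : List ℕ) (hc : ∀ p ∈ adj (x :: c ++ [x]), p ∈ adj u) :
    ∃ W, W.head? = u.head? ∧ val f W = val f u ∧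
      adjm W = adjm u + n • adjm (x :: c ++ [x]) := by
  have hx : x ∈ u := by
    rcases c with _ | ⟨y, c⟩
    · exact mem_fst (hc (x, x) (by simp))
    · exact mem_fst (hc (x, y) (by simp))
  have hall : ∀ z ∈ x :: c ++ [x], z ∈ u.toFinset := by
    intro z hz
    rw [List.mem_toFinset]
    exact closed_mem (fun z => z ∈ u) (c ++ [x]) x hx
      (fun a b hab _ => mem_right (hc _ (by simpa using hab))) z (by simpa using hz)
  obtain ⟨p, s, hps⟩ := List.append_of_mem hx
  obtain ⟨ls, h1, h2⟩ := cyc u (fun a b => ((adj (x :: c ++ [x])).count (a, b) : ℤ))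
    (by
      intro a b hab
      refine hc (a, b) ?_
      by_contra h
      exact hab (by simp only [List.count_eq_zero_of_not_mem h]; rfl))
    (by
      intro z
      have := closed_bal u.toFinset x c hall z
      exact_mod_cast this)
  set V := p ++ (wpw n (x :: c) ++ x :: s) with hV
  have hVe : Ext u V := by rw [hps]; exact Ext.ins p s c x n
  have hVa : adjm V = adjm u + n • adjm (x :: c ++ [x]) := by
    rw [hV, hps, adjm_pw, adjm_append p x s, List.cons_append]
    ac_rfl
  have hst : ∀ d : ℕ × List ℕ, (d.1 :: d.2 ++ [d.1]) <:+: u → ∀ W, Ext u W → ∃ W', Ext u W' ∧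
      val f W' = val f W ∧ adjm W' = adjm W + n • adjm (d.1 :: d.2 ++ [d.1]) :=
    fun d hd W hW => Ext.pump hS f hW hd
  obtain ⟨U1, hU1, hU2, hU3⟩ := iter f (Ext u) _ hst Int.toNat ls h1 u (Ext.refl u)
  obtain ⟨V1, hV1, hV2, hV3⟩ := iter f (Ext u) _ hst (fun c => (-c).toNat) ls h1 V hVe
  refine ⟨V, hVe.head, ?_, hVa⟩
  rw [← hV2, ← hU2]
  apply euler' hS f
  · rw [hV1.head, hU1.head]
  · rw [hV3, hU3, hVa, add_assoc, ← smul_add]
    congr 2
    ext q
    have h3 := SS_sub ls q
    obtain ⟨a, b⟩ := q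
    rw [← h2 a b] at h3
    rw [Multiset.count_add]
    have h4 := count_adjm (x :: c ++ [x]) (a, b)
    rw [h4]
    have h5 : (((adj (x :: c ++ [x])).count (a, b) + (SS (fun c => (-c).toNat) ls).count (a, b) :
        ℕ) : ℤ) = ((SS Int.toNat ls).count (a, b) : ℕ) := by
      push_cast
      linarith
    exact_mod_cast h5

theorem head_last_count {w : List ℕ} (hw : w ≠ []) (z : ℕ) :
    w.dropLast.count z + (if w.getLast? = some z then 1 else 0) =
      w.tail.count z + (if w.head? = some z then 1 else 0) := by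
  have h1 : w.dropLast.count z + (if w.getLast? = some z then 1 else 0) = w.count z := by
    conv_rhs => rw [← List.dropLast_append_getLast hw]
    rw [List.count_append, List.getLast?_eq_some_getLast hw, List.count_singleton]
    simp
  have h2 : w.tail.count z + (if w.head? = some z then 1 else 0) = w.count z := by
    rcases w with _ | ⟨a, w⟩
    · exact absurd rfl hw
    · simp [List.count_cons]
  rw [h1, h2]

theorem ta : TAStmt := by
  intro n hn T _ hS f u v hu hv hh hl hE hc
  have hn' : (n : ℤ) ≠ 0 := by exact_mod_cast hn.ne'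
  -- all letters of v are in u
  have hvu : ∀ z ∈ v, z ∈ u := by
    rcases v with _ | ⟨y, v⟩
    · exact absurd rfl hv
    · refine closed_mem (fun z => z ∈ u) v y ?_ ?_
      · exact List.mem_of_mem_head? (by rw [hh]; rfl)
      · intro a b hab _
        exact mem_right ((hE _).2 hab)
  have hdvd : ∀ p, (n : ℤ) ∣ ((adj v).count p : ℤ) - ((adj u).count p : ℤ) := by
    intro p
    have := (Nat.modEq_iff_dvd).1 (hc p)
    exact this
  set δ : ℕ → ℕ → ℤ := fun a b => (((adj v).count (a, b) : ℤ) - ((adj u).count (a, b) : ℤ)) / n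
    with hδ
  have hδn : ∀ a b, (n : ℤ) * δ a b = ((adj v).count (a, b) : ℤ) - ((adj u).count (a, b) : ℤ) := by
    intro a b
    exact Int.mul_ediv_cancel' (hdvd (a, b))
  have hbal : ∀ z, ∑ y ∈ u.toFinset, δ z y = ∑ y ∈ u.toFinset, δ y z := by
    intro z
    apply mul_left_cancel₀ hn'
    rw [Finset.mul_sum, Finset.mul_sum]
    simp only [hδn, Finset.sum_sub_distrib]
    have o1 := out_sum u.toFinset z v (fun x hx => List.mem_toFinset.2 (hvu x hx))
    have o2 := out_sum u.toFinset z u (fun x hx => List.mem_toFinset.2 hx)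
    have i1 := in_sum u.toFinset z v (fun x hx => List.mem_toFinset.2 (hvu x hx))
    have i2 := in_sum u.toFinset z u (fun x hx => List.mem_toFinset.2 hx)
    have c1 := head_last_count hv z
    have c2 := head_last_count hu z
    rw [hh, hl] at c2
    rw [← Nat.cast_sum, ← Nat.cast_sum, ← Nat.cast_sum, ← Nat.cast_sum, o1, o2, i1, i2]
    omega
  have hsup : ∀ a b, δ a b ≠ 0 → E u a b := by
    intro a b hab
    by_contra h
    have h1 : (a, b) ∉ adj u := h
    have h2 : (a, b) ∉ adj v := fun h3 => h1 ((hE _).2 h3)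
    apply hab
    simp only [hδ]
    rw [List.count_eq_zero_of_not_mem h1, List.count_eq_zero_of_not_mem h2]
    simp
  obtain ⟨ls, h1, h2⟩ := cyc u δ hsup hbal
  have hK : ∀ c ∈ ls, ∀ p ∈ adj (c.2.1 :: c.2.2 ++ [c.2.1]), p ∈ adj u := by
    intro c hc p hp
    obtain ⟨s, t, hst⟩ := h1 c hc
    obtain ⟨a, b⟩ := p
    obtain ⟨q, r, hqr⟩ := mem_adj.1 hp
    exact mem_adj.2 ⟨s ++ q, r ++ t, by rw [← hst, hqr]; simp⟩
  have hst : ∀ d : ℕ × List ℕ, (∀ p ∈ adj (d.1 :: d.2 ++ [d.1]), p ∈ adj u) →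
      ∀ W, (W.head? = u.head? ∧ ∀ p ∈ adj u, p ∈ adj W) →
      ∃ W', (W'.head? = u.head? ∧ ∀ p ∈ adj u, p ∈ adj W') ∧
      val f W' = val f W ∧ adjm W' = adjm W + n • adjm (d.1 :: d.2 ++ [d.1]) := by
    intro d hd W hW
    obtain ⟨W', h3, h4, h5⟩ := M1 hS f W d.1 d.2 (fun p hp => hW.2 p (hd p hp))
    refine ⟨W', ⟨h3.trans hW.1, fun p hp => ?_⟩, h4, h5⟩
    rw [← mem_adjm, h5, Multiset.mem_add]
    exact Or.inl (hW.2 p hp)
  obtain ⟨U1, hU1, hU2, hU3⟩ := iter f _ _ hst Int.toNat ls hK u ⟨rfl, fun p hp => hp⟩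
  obtain ⟨V1, hV1, hV2, hV3⟩ := iter f _ _ hst (fun c => (-c).toNat) ls hK v
    ⟨hh.symm, fun p hp => (hE p).1 hp⟩
  rw [← hU2, ← hV2]
  apply euler' hS f
  · rw [hU1.1, hV1.1]
  · rw [hU3, hV3]
    ext q
    have h3 := SS_sub ls q
    obtain ⟨a, b⟩ := q
    rw [← h2 a b] at h3
    have h4 := hδn a b
    simp only [Multiset.count_add, Multiset.count_nsmul]
    have h5 := count_adjm u (a, b)
    have h6 := count_adjm v (a, b)
    rw [h5, h6]
    have h7 : (((adj u).count (a, b) + n * (SS Int.toNat ls).count (a, b) : ℕ) : ℤ) =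
        (((adj v).count (a, b) + n * (SS (fun c => (-c).toNat) ls).count (a, b) : ℕ) : ℤ) := by
      push_cast
      linear_combination (n : ℤ) * h3 + h4
    exact_mod_cast h7

end Pool.Agent.W374.FBS
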