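import Pool.Agent.W792.Bk.Stms
import Pool.Agent.W561.Sallee.Crofton

/-!
# Cauchy's formula for the perimeter of a convex set: rotations and widths
-/

namespace Pool.Agent.W374.BkPer
open MeasureTheory Set Pool.Agent.W792.Bk
open scoped ContDiff ENNReal

/-- linear functional in direction `θ` -/
noncomputable def ell (θ : ℝ) (z : ℝ × ℝ) : ℝ := Real.cos θ * z.1 + Real.sin θ * z.2

/-- rotation -/
noncomputable def R (θ : ℝ) (p : ℝ × ℝ) : ℝ × ℝ :=
  (p.1 * Real.cos θ - p.2 * Real.sin θ, p.1 * Real.sin θ + p.2 * Real.cos θ)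

theorem continuous_R (θ : ℝ) : Continuous (R θ) := by unfold R; fun_prop

theorem mp_R (θ : ℝ) : MeasurePreserving (R θ) (volume : Measure (ℝ × ℝ)) volume := by
  have h1 := Complex.volume_preserving_equiv_real_prod
  have h2 := (rotation (Circle.exp θ)).measurePreserving
  have h3 := h1.comp (h2.comp h1.symm)
  have e : R θ = Complex.measurableEquivRealProd ∘ (rotation (Circle.exp θ)) ∘
      Complex.measurableEquivRealProd.symm := by
    funext p
    simp only [Function.comp_apply, Complex.measurableEquivRealProd_apply, rotation_apply,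
      Circle.coe_exp, R]
    rw [Complex.exp_mul_I, ← Complex.ofReal_cos, ← Complex.ofReal_sin]
    have hp : Complex.measurableEquivRealProd.symm p = ⟨p.1, p.2⟩ := rfl
    rw [hp]
    ext
    · simp
      rw [Complex.cos_ofReal_re, Complex.sin_ofReal_re]
      ring
    · simp
      rw [Complex.cos_ofReal_re, Complex.sin_ofReal_re]
      ring
  rw [e]
  exact h3

theorem R_ell (θ : ℝ) (z : ℝ × ℝ) : R θ (ell θ z, ell (θ + Real.pi / 2) z) = z := by
  have h := Real.sin_sq_add_cos_sq θ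
  unfold R ell
  rw [Real.cos_add_pi_div_two, Real.sin_add_pi_div_two]
  ext
  · simp only
    linear_combination z.1 * h
  · simp only
    linear_combination z.2 * h

theorem ell_R (θ x y : ℝ) : ell (θ + Real.pi / 2) (R θ (x, y)) = y := by
  have h := Real.sin_sq_add_cos_sq θ
  unfold R ell
  rw [Real.cos_add_pi_div_two, Real.sin_add_pi_div_two]
  simp only
  linear_combination y * h

theorem ell_pi (θ : ℝ) (z : ℝ × ℝ) : ell (θ + Real.pi) z = - ell θ z := by
  unfold ell
  rw [Real.cos_add_pi, Real.sin_add_pi]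
  ring

theorem supp_eq (E : Set (ℝ × ℝ)) (θ : ℝ) : supp E θ = sSup (ell θ '' E) := rfl

/-- the projection of `E` along the direction `θ` -/
def prj (E : Set (ℝ × ℝ)) (θ : ℝ) : Set ℝ := {y | ∃ x, R θ (x, y) ∈ E}

theorem prj_eq (E : Set (ℝ × ℝ)) (θ : ℝ) : prj E θ = ell (θ + Real.pi / 2) '' E := by
  ext y
  constructor
  · rintro ⟨x, hx⟩
    exact ⟨_, hx, ell_R θ x y⟩
  · rintro ⟨z, hz, rfl⟩
    exact ⟨ell θ z, by rw [R_ell]; exact hz⟩

/-- the width -/
noncomputable def wd (E : Set (ℝ × ℝ)) (θ : ℝ) : ℝ :=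
  supp E (θ + Real.pi / 2) + supp E (θ + Real.pi / 2 + Real.pi)

theorem ell_convex {E : Set (ℝ × ℝ)} (hE : Convex ℝ E) (θ : ℝ) : Convex ℝ (ell θ '' E) := by
  rintro _ ⟨x, hx, rfl⟩ _ ⟨y, hy, rfl⟩ a b ha hb hab
  refine ⟨a • x + b • y, hE hx hy ha hb hab, ?_⟩
  unfold ell
  simp only [Prod.fst_add, Prod.smul_fst, Prod.snd_add, Prod.smul_snd, smul_eq_mul]
  ring

theorem ell_bound {z : ℝ × ℝ} {M : ℝ} (hz : ‖z‖ ≤ M) (θ : ℝ) : |ell θ z| ≤ 2 * M := by
  have h1 : |z.1| ≤ M := (norm_fst_le z).trans hz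
  have h2 : |z.2| ≤ M := (norm_snd_le z).trans hz
  unfold ell
  calc |Real.cos θ * z.1 + Real.sin θ * z.2| ≤ |Real.cos θ * z.1| + |Real.sin θ * z.2| :=
        abs_add_le _ _
    _ = |Real.cos θ| * |z.1| + |Real.sin θ| * |z.2| := by rw [abs_mul, abs_mul]
    _ ≤ 1 * M + 1 * M := by
        gcongr
        · exact Real.abs_cos_le_one θ
        · exact Real.abs_sin_le_one θ
    _ = 2 * M := by ring

theorem exists_bd {E : Set (ℝ × ℝ)} (hE : Bornology.IsBounded E) :
    ∃ M : ℝ, 0 < M ∧ ∀ z ∈ E, ‖z‖ ≤ M := by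
  obtain ⟨M, hM⟩ := hE.exists_norm_le
  exact ⟨max M 1, lt_max_of_lt_right one_pos, fun z hz => (hM z hz).trans (le_max_left _ _)⟩

theorem bddAbove_ell {E : Set (ℝ × ℝ)} (hE : Bornology.IsBounded E) (θ : ℝ) :
    BddAbove (ell θ '' E) := by
  obtain ⟨M, _, hM⟩ := exists_bd hE
  refine ⟨2 * M, ?_⟩
  rintro _ ⟨z, hz, rfl⟩
  exact (le_abs_self _).trans (ell_bound (hM z hz) θ)

theorem bddBelow_ell {E : Set (ℝ × ℝ)} (hE : Bornology.IsBounded E) (θ : ℝ) :
    BddBelow (ell θ '' E) := by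
  obtain ⟨M, _, hM⟩ := exists_bd hE
  refine ⟨-(2 * M), ?_⟩
  rintro _ ⟨z, hz, rfl⟩
  exact (abs_le.1 (ell_bound (hM z hz) θ)).1

theorem supp_pi {E : Set (ℝ × ℝ)} (θ : ℝ) :
    supp E (θ + Real.pi) = - sInf (ell θ '' E) := by
  rw [supp_eq, ← Real.sSup_neg]
  congr 1
  ext y
  constructor
  · rintro ⟨z, hz, rfl⟩
    rw [ell_pi]
    exact ⟨z, hz, (neg_neg _).symm⟩
  · rintro ⟨z, hz, h⟩
    exact ⟨z, hz, by rw [ell_pi, h, neg_neg]⟩

/-- the measure of a bounded convex subset of the line -/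
theorem vol_convex {S : Set ℝ} (hS : Convex ℝ S) (ha : BddAbove S) (hb : BddBelow S)
    (hne : S.Nonempty) : volume S = ENNReal.ofReal (sSup S - sInf S) := by
  refine le_antisymm ?_ ?_
  · calc volume S ≤ volume (Icc (sInf S) (sSup S)) :=
          measure_mono fun x hx => ⟨csInf_le hb hx, le_csSup ha hx⟩
      _ = _ := Real.volume_Icc
  · calc _ = volume (Ioo (sInf S) (sSup S)) := Real.volume_Ioo.symm
      _ ≤ volume S := by
        refine measure_mono fun x hx => ?_
        obtain ⟨u, hu, hux⟩ := exists_lt_of_csInf_lt hne hx.1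
        obtain ⟨v, hv, hxv⟩ := exists_lt_of_lt_csSup hne hx.2
        exact hS.ordConnected.out hu hv ⟨hux.le, hxv.le⟩

theorem vol_prj {E : Set (ℝ × ℝ)} (hE : Convex ℝ E) (hb : Bornology.IsBounded E)
    (hne : E.Nonempty) (θ : ℝ) : volume (prj E θ) = ENNReal.ofReal (wd E θ) := by
  rw [prj_eq, vol_convex (ell_convex hE _) (bddAbove_ell hb _) (bddBelow_ell hb _)
    (hne.image _), wd, supp_pi, ← supp_eq, sub_eq_add_neg]

theorem wd_nonneg {E : Set (ℝ × ℝ)} (hb : Bornology.IsBounded E)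
    (hne : E.Nonempty) (θ : ℝ) : 0 ≤ wd E θ := by
  rw [wd, supp_pi, supp_eq, ← sub_eq_add_neg, sub_nonneg]
  obtain ⟨z, hz⟩ := hne
  exact (csInf_le (bddBelow_ell hb _) (mem_image_of_mem _ hz)).trans
    (le_csSup (bddAbove_ell hb _) (mem_image_of_mem _ hz))

theorem supp_sub_le {E : Set (ℝ × ℝ)} (hb : Bornology.IsBounded E) (hne : E.Nonempty)
    {M : ℝ} (hM : ∀ z ∈ E, ‖z‖ ≤ M) (θ θ' : ℝ) :
    supp E θ ≤ supp E θ' + M * (|Real.cos θ - Real.cos θ'| + |Real.sin θ - Real.sin θ'|) := by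
  rw [supp_eq]
  refine csSup_le (hne.image _) ?_
  rintro _ ⟨z, hz, rfl⟩
  have h1 : ell θ' z ≤ supp E θ' := le_csSup (bddAbove_ell hb _) (mem_image_of_mem _ hz)
  have h2 : |z.1| ≤ M := (norm_fst_le z).trans (hM z hz)
  have h3 : |z.2| ≤ M := (norm_snd_le z).trans (hM z hz)
  have h4 : (Real.cos θ - Real.cos θ') * z.1 ≤ |Real.cos θ - Real.cos θ'| * M := by
    calc (Real.cos θ - Real.cos θ') * z.1 ≤ |(Real.cos θ - Real.cos θ') * z.1| := le_abs_self _
      _ = |Real.cos θ - Real.cos θ'| * |z.1| := abs_mul _ _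
      _ ≤ _ := by gcongr
  have h5 : (Real.sin θ - Real.sin θ') * z.2 ≤ |Real.sin θ - Real.sin θ'| * M := by
    calc (Real.sin θ - Real.sin θ') * z.2 ≤ |(Real.sin θ - Real.sin θ') * z.2| := le_abs_self _
      _ = |Real.sin θ - Real.sin θ'| * |z.2| := abs_mul _ _
      _ ≤ _ := by gcongr
  have e : ell θ z = ell θ' z + (Real.cos θ - Real.cos θ') * z.1 +
      (Real.sin θ - Real.sin θ') * z.2 := by unfold ell; ring
  rw [e]
  linarith

theorem continuous_supp {E : Set (ℝ × ℝ)} (hb : Bornology.IsBounded E) (hne : E.Nonempty) :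
    Continuous (supp E) := by
  obtain ⟨M, hM0, hM⟩ := exists_bd hb
  rw [continuous_iff_continuousAt]
  intro θ₀
  have hlim : Filter.Tendsto (fun θ => M * (|Real.cos θ - Real.cos θ₀| +
      |Real.sin θ - Real.sin θ₀|)) (nhds θ₀) (nhds 0) := by
    have : Continuous (fun θ => M * (|Real.cos θ - Real.cos θ₀| + |Real.sin θ - Real.sin θ₀|)) := by
      fun_prop
    have h := this.tendsto θ₀
    simpa using h
  rw [ContinuousAt, tendsto_iff_dist_tendsto_zero]
  refine squeeze_zero (fun _ => dist_nonneg) (fun θ => ?_) hlim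
  rw [Real.dist_eq, abs_le]
  have h1 := supp_sub_le hb hne hM θ θ₀
  have h2 := supp_sub_le hb hne hM θ₀ θ
  rw [abs_sub_comm (Real.cos θ₀), abs_sub_comm (Real.sin θ₀)] at h2
  constructor <;> linarith

theorem supp_periodic (E : Set (ℝ × ℝ)) : Function.Periodic (supp E) (2 * Real.pi) := by
  intro θ
  rw [supp_eq, supp_eq]
  congr 1
  have : ell (θ + 2 * Real.pi) = ell θ := by
    funext z
    unfold ell
    rw [Real.cos_add_two_pi, Real.sin_add_two_pi]
  rw [this]

theorem continuous_wd {E : Set (ℝ × ℝ)} (hb : Bornology.IsBounded E) (hne : E.Nonempty) :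
    Continuous (wd E) := by
  have := continuous_supp hb hne
  unfold wd
  fun_prop

theorem int_wd {E : Set (ℝ × ℝ)} (hb : Bornology.IsBounded E) (hne : E.Nonempty) :
    ∫ θ in (0 : ℝ)..(2 * Real.pi), wd E θ = 2 * Cau E := by
  have hc := continuous_supp hb hne
  have key : ∀ s : ℝ, ∫ θ in (0 : ℝ)..(2 * Real.pi), supp E (θ + s) = Cau E := by
    intro s
    rw [intervalIntegral.integral_comp_add_right (fun θ => supp E θ) s, zero_add,
      add_comm (2 * Real.pi) s, (supp_periodic E).intervalIntegral_add_eq s 0, zero_add]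
    rfl
  unfold wd
  rw [intervalIntegral.integral_add]
  · have e : ∀ θ : ℝ, θ + Real.pi / 2 + Real.pi = θ + (Real.pi / 2 + Real.pi) := fun θ => by ring
    simp only [e]
    rw [key, key]
    ring
  · exact (Continuous.comp hc (by fun_prop)).intervalIntegrable _ _
  · exact (Continuous.comp hc (by fun_prop)).intervalIntegrable _ _

theorem lint_wd {E : Set (ℝ × ℝ)} (hb : Bornology.IsBounded E) (hne : E.Nonempty) :
    ∫⁻ θ in Ioc (0 : ℝ) (2 * Real.pi), ENNReal.ofReal (wd E θ) =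
      ENNReal.ofReal (2 * Cau E) := by
  have hpi := Real.pi_pos
  rw [← int_wd hb hne, intervalIntegral.integral_of_le (by linarith),
    ofReal_integral_eq_lintegral_ofReal]
  · exact ((continuous_wd hb hne).continuousOn.integrableOn_compact isCompact_Icc).mono_set
      Ioc_subset_Icc_self
  · exact Filter.Eventually.of_forall fun θ => wd_nonneg hb hne θ

/-- the angular integral -/
theorem angle (a b : ℝ) : ∫⁻ θ in Ioc (0 : ℝ) (2 * Real.pi),
    ENNReal.ofReal |Real.cos θ * a + Real.sin θ * b| =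
      4 * ENNReal.ofReal (√(a ^ 2 + b ^ 2)) := by
  have hpi := Real.pi_pos
  have h := Pool.Agent.W561.Sallee.int_abs_pr ⟨a, b⟩
  have hn : ‖(⟨a, b⟩ : ℂ)‖ = √(a ^ 2 + b ^ 2) := by
    rw [Complex.norm_eq_sqrt_sq_add_sq]
  rw [hn] at h
  unfold Pool.Agent.W561.Sallee.II Pool.Agent.W561.Sallee.pr at h
  have e : ∀ θ : ℝ, Real.cos θ * a + Real.sin θ * b = a * Real.cos θ + b * Real.sin θ := by
    intro θ; ring
  simp only [e]
  rw [← ofReal_integral_eq_lintegral_ofReal, ← intervalIntegral.integral_of_le (by linarith)]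
  · change ENNReal.ofReal (∫ θ in (0 : ℝ)..2 * Real.pi, |a * Real.cos θ + b * Real.sin θ|) = _
    rw [h, ENNReal.ofReal_mul (by norm_num)]
    norm_num
  · have : Continuous (fun θ : ℝ => |a * Real.cos θ + b * Real.sin θ|) := by fun_prop
    exact (this.continuousOn.integrableOn_compact isCompact_Icc).mono_set Ioc_subset_Icc_self
  · exact Filter.Eventually.of_forall fun θ => abs_nonneg _

/-- the derivative in direction `θ` -/
noncomputable def dn (f : ℝ × ℝ → ℝ) (θ : ℝ) (z : ℝ × ℝ) : ℝ :=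
  Real.cos θ * dx f z + Real.sin θ * dy f z

theorem dn_eq (f : ℝ × ℝ → ℝ) (θ : ℝ) (z : ℝ × ℝ) :
    dn f θ z = fderiv ℝ f z (Real.cos θ, Real.sin θ) := by
  have : ((Real.cos θ, Real.sin θ) : ℝ × ℝ) =
      Real.cos θ • ((1 : ℝ), (0 : ℝ)) + Real.sin θ • ((0 : ℝ), (1 : ℝ)) := by
    ext <;> simp
  rw [this, map_add, map_smul, map_smul]
  rfl

theorem continuous_dx {f : ℝ × ℝ → ℝ} (hf : ContDiff ℝ 1 f) : Continuous (dx f) :=
  (hf.continuous_fderiv one_ne_zero).clm_apply continuous_const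

theorem continuous_dy {f : ℝ × ℝ → ℝ} (hf : ContDiff ℝ 1 f) : Continuous (dy f) :=
  (hf.continuous_fderiv one_ne_zero).clm_apply continuous_const

/-- the integral of the length of the gradient -/
theorem grad_lint {f : ℝ × ℝ → ℝ} (hf : ContDiff ℝ 1 f) :
    4 * ∫⁻ z, ENNReal.ofReal (√(dx f z ^ 2 + dy f z ^ 2)) =
      ∫⁻ θ in Ioc (0 : ℝ) (2 * Real.pi), ∫⁻ z, ENNReal.ofReal |dn f θ z| := by
  have hx := continuous_dx hf
  have hy := continuous_dy hf
  rw [← lintegral_const_mul _ (by fun_prop)]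
  simp only [← angle]
  rw [lintegral_lintegral_swap]
  · rfl
  · refine Measurable.aemeasurable ?_
    have : Continuous (fun p : (ℝ × ℝ) × ℝ => |Real.cos p.2 * dx f p.1 + Real.sin p.2 * dy f p.1|) := by
      fun_prop
    exact this.measurable.ennreal_ofReal

end Pool.Agent.W374.BkPer
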