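import Pool.Agent.W374.BkPer1

/-!
# Cauchy's formula for the perimeter of a convex set: mollified indicator functions
-/

namespace Pool.Agent.W374.BkPer
open MeasureTheory Set Pool.Agent.W792.Bk
open scoped ContDiff ENNReal

/-- mollifiers -/
structure Ker (k : ℝ × ℝ → ℝ) (δ : ℝ) : Prop where
  smooth : ContDiff ℝ 2 k
  cs : HasCompactSupport k
  nn : ∀ t, 0 ≤ k t
  int : ∫ t, k t = 1
  zero : ∀ t, δ ≤ ‖t‖ → k t = 0

theorem exists_ker {δ : ℝ} (hδ : 0 < δ) : ∃ k, Ker k δ := by
  let b : ContDiffBump (0 : ℝ × ℝ) := ⟨δ / 2, δ, by positivity, by linarith⟩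
  refine ⟨b.normed volume, b.contDiff_normed, b.hasCompactSupport_normed, fun t =>
    b.nonneg_normed t, b.integral_normed, fun t ht => ?_⟩
  have h1 : t ∉ Function.support (b.normed volume) := by
    rw [b.support_normed_eq]
    simp only [Metric.mem_ball, dist_zero_right, not_lt]
    exact ht
  exact Function.notMem_support.1 h1

/-- indicator function -/
noncomputable def ind (E : Set (ℝ × ℝ)) : ℝ × ℝ → ℝ := E.indicator (fun _ => 1)

theorem ind_nonneg (E : Set (ℝ × ℝ)) (z : ℝ × ℝ) : 0 ≤ ind E z :=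
  indicator_nonneg (fun _ _ => zero_le_one) z

theorem ind_le (E : Set (ℝ × ℝ)) (z : ℝ × ℝ) : ind E z ≤ 1 :=
  indicator_le' (fun _ _ => le_rfl) (fun _ _ => zero_le_one) z

theorem ind_mem {E : Set (ℝ × ℝ)} {z : ℝ × ℝ} (h : z ∈ E) : ind E z = 1 := indicator_of_mem h _

theorem ind_notMem {E : Set (ℝ × ℝ)} {z : ℝ × ℝ} (h : z ∉ E) : ind E z = 0 :=
  indicator_of_notMem h _

theorem meas_ind {E : Set (ℝ × ℝ)} (hE : IsOpen E) : Measurable (ind E) :=
  measurable_const.indicator hE.measurableSet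

/-- the mollified indicator function -/
noncomputable def mf (k : ℝ × ℝ → ℝ) (E : Set (ℝ × ℝ)) : ℝ × ℝ → ℝ :=
  convolution k (ind E) (ContinuousLinearMap.mul ℝ ℝ) volume

theorem mf_apply (k : ℝ × ℝ → ℝ) (E : Set (ℝ × ℝ)) (z : ℝ × ℝ) :
    mf k E z = ∫ t, k t * ind E (z - t) := rfl

theorem mf_smooth {k : ℝ × ℝ → ℝ} {δ : ℝ} (hk : Ker k δ) {E : Set (ℝ × ℝ)} (hE : IsOpen E) :
    ContDiff ℝ 2 (mf k E) := by
  refine hk.cs.contDiff_convolution_left _ hk.smooth ?_
  exact (locallyIntegrable_const (1 : ℝ)).indicator hE.measurableSet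

theorem mf_cs {k : ℝ × ℝ → ℝ} {δ : ℝ} (hk : Ker k δ) {E : Set (ℝ × ℝ)}
    (hb : Bornology.IsBounded E) : HasCompactSupport (mf k E) := by
  refine HasCompactSupport.convolution _ hk.cs ?_
  refine HasCompactSupport.of_support_subset_isCompact hb.isCompact_closure ?_
  intro z hz
  refine subset_closure ?_
  by_contra hc
  exact hz (ind_notMem hc)

theorem int_k_ind {k : ℝ × ℝ → ℝ} {δ : ℝ} (hk : Ker k δ) {E : Set (ℝ × ℝ)} (hE : IsOpen E)
    (z : ℝ × ℝ) : Integrable (fun t => k t * ind E (z - t)) := by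
  have hki : Integrable k := hk.smooth.continuous.integrable_of_hasCompactSupport hk.cs
  refine hki.mul_bdd (c := 1) ?_ ?_
  · exact ((meas_ind hE).comp (measurable_const.sub measurable_id)).aestronglyMeasurable
  · refine Filter.Eventually.of_forall fun t => ?_
    rw [Real.norm_eq_abs, abs_of_nonneg (ind_nonneg _ _)]
    exact ind_le _ _

theorem mf_one {k : ℝ × ℝ → ℝ} {δ : ℝ} (hk : Ker k δ) {E : Set (ℝ × ℝ)} {z : ℝ × ℝ}
    (hz : ∀ t : ℝ × ℝ, ‖t‖ < δ → z - t ∈ E) : mf k E z = 1 := by
  rw [mf_apply, ← hk.int]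
  refine integral_congr_ae (Filter.Eventually.of_forall fun t => ?_)
  simp only
  rcases lt_or_ge ‖t‖ δ with h | h
  · rw [ind_mem (hz t h), mul_one]
  · rw [hk.zero t h, zero_mul]

/-- one dimensional variation -/
theorem var_one {g : ℝ → ℝ} (hg : ContDiff ℝ 1 g) (hc : HasCompactSupport g) {x₀ : ℝ}
    (h1 : g x₀ = 1) : 2 ≤ ∫⁻ x, ENNReal.ofReal |deriv g x| := by
  obtain ⟨M, hM⟩ := hc.isCompact.isBounded.exists_norm_le
  set A := max (M + 1) (|x₀| + 1) with hA
  have hA1 : M < A := lt_of_lt_of_le (by linarith) (le_max_left _ _)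
  have hA2 : |x₀| < A := lt_of_lt_of_le (by linarith) (le_max_right _ _)
  have hx := abs_lt.1 hA2
  have hAp : 0 < A := (abs_nonneg x₀).trans_lt hA2
  have z1 : g A = 0 := by
    refine image_eq_zero_of_notMem_tsupport fun h => ?_
    have := hM A h
    rw [Real.norm_eq_abs, abs_of_pos hAp] at this
    linarith
  have z2 : g (-A) = 0 := by
    refine image_eq_zero_of_notMem_tsupport fun h => ?_
    have := hM (-A) h
    rw [Real.norm_eq_abs, abs_neg, abs_of_pos hAp] at this
    linarith
  have hd : Continuous (deriv g) := hg.continuous_deriv le_rfl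
  have hdiff : ∀ x, HasDerivAt g (deriv g x) x := fun x =>
    (hg.differentiable one_ne_zero x).hasDerivAt
  have i1 : ∫ x in (-A)..x₀, deriv g x = 1 := by
    rw [intervalIntegral.integral_deriv_eq_sub (fun x _ => (hdiff x).differentiableAt)
      (hd.intervalIntegrable _ _), h1, z2, sub_zero]
  have i2 : ∫ x in x₀..A, deriv g x = -1 := by
    rw [intervalIntegral.integral_deriv_eq_sub (fun x _ => (hdiff x).differentiableAt)
      (hd.intervalIntegrable _ _), h1, z1, zero_sub]
  have j1 : 1 ≤ ∫ x in (-A)..x₀, |deriv g x| := by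
    rw [← i1]
    exact intervalIntegral.integral_mono_on hx.1.le (hd.intervalIntegrable _ _)
      (hd.abs.intervalIntegrable _ _) fun x _ => le_abs_self _
  have j2 : 1 ≤ ∫ x in x₀..A, |deriv g x| := by
    have : ∫ x in x₀..A, -deriv g x = 1 := by rw [intervalIntegral.integral_neg, i2, neg_neg]
    rw [← this]
    exact intervalIntegral.integral_mono_on hx.2.le (hd.neg.intervalIntegrable _ _)
      (hd.abs.intervalIntegrable _ _) fun x _ => neg_le_abs _
  have j3 : 2 ≤ ∫ x in (-A)..A, |deriv g x| := by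
    rw [← intervalIntegral.integral_add_adjacent_intervals (hd.abs.intervalIntegrable _ _)
      (hd.abs.intervalIntegrable x₀ A)]
    linarith
  rw [intervalIntegral.integral_of_le (by linarith)] at j3
  calc (2 : ℝ≥0∞) = ENNReal.ofReal 2 := by norm_num
    _ ≤ ENNReal.ofReal (∫ x in Ioc (-A) A, |deriv g x|) := ENNReal.ofReal_le_ofReal j3
    _ = ∫⁻ x in Ioc (-A) A, ENNReal.ofReal |deriv g x| := by
        rw [ofReal_integral_eq_lintegral_ofReal]
        · exact (hd.abs.continuousOn.integrableOn_compact isCompact_Icc).mono_set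
            Ioc_subset_Icc_self
        · exact Filter.Eventually.of_forall fun x => abs_nonneg _
    _ ≤ _ := setLIntegral_le_lintegral _ _

/-- the derivative along a rotated line -/
theorem deriv_line {f : ℝ × ℝ → ℝ} (hf : ContDiff ℝ 1 f) (θ x y : ℝ) :
    HasDerivAt (fun x => f (R θ (x, y))) (dn f θ (R θ (x, y))) x := by
  have h1 : HasFDerivAt f (fderiv ℝ f (R θ (x, y))) (R θ (x, y)) :=
    (hf.differentiable one_ne_zero _).hasFDerivAt
  have h2 : HasDerivAt (fun x => R θ (x, y)) (Real.cos θ, Real.sin θ) x := by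
    unfold R
    refine HasDerivAt.prodMk ?_ ?_
    · simpa using ((hasDerivAt_id x).mul_const (Real.cos θ)).sub_const (y * Real.sin θ)
    · simpa using ((hasDerivAt_id x).mul_const (Real.sin θ)).add_const (y * Real.cos θ)
  rw [dn_eq]
  exact h1.comp_hasDerivAt x h2

theorem line_contDiff {f : ℝ × ℝ → ℝ} (hf : ContDiff ℝ 1 f) (θ y : ℝ) :
    ContDiff ℝ 1 (fun x => f (R θ (x, y))) := by
  refine hf.comp ?_
  unfold R
  fun_prop

theorem line_cs {f : ℝ × ℝ → ℝ} (hf : HasCompactSupport f) (θ y : ℝ) :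
    HasCompactSupport (fun x => f (R θ (x, y))) := by
  obtain ⟨M, hM⟩ := hf.isCompact.isBounded.exists_norm_le
  refine HasCompactSupport.of_support_subset_isCompact (isCompact_Icc (a := -(2 * M)) (b := 2 * M))
    ?_
  intro x hx
  have h1 : R θ (x, y) ∈ tsupport f := subset_tsupport _ hx
  have h2 := ell_bound (hM _ h1) θ
  have h3 : ell θ (R θ (x, y)) = x := by
    have h := Real.sin_sq_add_cos_sq θ
    unfold R ell
    simp only
    linear_combination x * h
  rw [h3] at h2
  exact abs_le.1 h2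

/-- lower bound of the variation in direction `θ` -/
theorem dir_low {f : ℝ × ℝ → ℝ} (hf : ContDiff ℝ 1 f) (hc : HasCompactSupport f)
    {G : Set (ℝ × ℝ)} (hG : Convex ℝ G) (h1 : ∀ z ∈ G, f z = 1) (θ : ℝ) :
    2 * volume (prj G θ) ≤ ∫⁻ z, ENNReal.ofReal |dn f θ z| := by
  have hcont : Continuous (fun z => |dn f θ z|) := by
    unfold dn
    have := continuous_dx hf
    have := continuous_dy hf
    fun_prop
  have hm : Measurable (fun z => ENNReal.ofReal |dn f θ z|) := hcont.measurable.ennreal_ofReal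
  rw [← (mp_R θ).lintegral_comp hm, Measure.volume_eq_prod, lintegral_prod_symm]
  · have hmeas : MeasurableSet (prj G θ) := by
      rw [prj_eq]
      exact (ell_convex hG _).ordConnected.measurableSet
    calc 2 * volume (prj G θ) = ∫⁻ _ in prj G θ, 2 := by rw [setLIntegral_const]
      _ ≤ ∫⁻ y in prj G θ, ∫⁻ x, ENNReal.ofReal |dn f θ (R θ (x, y))| := by
          refine setLIntegral_mono' hmeas fun y hy => ?_
          obtain ⟨x₀, hx₀⟩ := hy
          have := var_one (line_contDiff hf θ y) (line_cs hc θ y) (x₀ := x₀) (h1 _ hx₀)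
          simp only [(deriv_line hf θ _ y).deriv] at this
          exact this
      _ ≤ _ := setLIntegral_le_lintegral _ _
  · exact (hm.comp (continuous_R θ).measurable).aemeasurable

end Pool.Agent.W374.BkPer
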