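import Pool.Agent.W374.BkPer2

/-!
# Cauchy's formula for the perimeter of a convex set: upper bound in one direction, Fubini
-/

namespace Pool.Agent.W374.BkPer
open MeasureTheory Set Pool.Agent.W792.Bk
open scoped ContDiff ENNReal Topology

/-- the shifted interval -/
theorem shift_one {I : Set ℝ} (hI : Convex ℝ I) (ha : BddAbove I) (hb : BddBelow I) {t : ℝ}
    (ht : 0 < t) : ∫⁻ x, ‖I.indicator (fun _ => (1 : ℝ)) (x + t) - I.indicator (fun _ => 1) x‖ₑ ≤
      2 * ENNReal.ofReal t := by
  rcases I.eq_empty_or_nonempty with rfl | hne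
  · simp
  have hsub : ∀ x, ‖I.indicator (fun _ => (1 : ℝ)) (x + t) - I.indicator (fun _ => 1) x‖ₑ ≤
      (Icc (sSup I - t) (sSup I)).indicator (fun _ => (1 : ℝ≥0∞)) x +
        (Icc (sInf I - t) (sInf I)).indicator (fun _ => 1) x := by
    intro x
    by_cases h1 : x ∈ I
    · by_cases h2 : x + t ∈ I
      · rw [indicator_of_mem h1, indicator_of_mem h2]
        simp
      · have hx : x ∈ Icc (sSup I - t) (sSup I) := by
          refine ⟨?_, le_csSup ha h1⟩
          by_contra hc
          push Not at hc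
          obtain ⟨v, hv, hxv⟩ := exists_lt_of_lt_csSup hne (show x + t < sSup I by linarith)
          exact h2 (hI.ordConnected.out h1 hv ⟨by linarith, hxv.le⟩)
        rw [indicator_of_mem h1, indicator_of_notMem h2, indicator_of_mem hx]
        simp
    · by_cases h2 : x + t ∈ I
      · have hx : x ∈ Icc (sInf I - t) (sInf I) := by
          refine ⟨by linarith [csInf_le hb h2], ?_⟩
          by_contra hc
          push Not at hc
          obtain ⟨v, hv, hxv⟩ := exists_lt_of_csInf_lt hne hc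
          exact h1 (hI.ordConnected.out hv h2 ⟨hxv.le, by linarith⟩)
        rw [indicator_of_notMem h1, indicator_of_mem h2, indicator_of_mem hx]
        simp
      · rw [indicator_of_notMem h1, indicator_of_notMem h2]
        simp
  refine (lintegral_mono hsub).trans ?_
  rw [lintegral_add_left (measurable_const.indicator measurableSet_Icc),
    lintegral_indicator measurableSet_Icc, lintegral_indicator measurableSet_Icc,
    setLIntegral_const, setLIntegral_const, Real.volume_Icc, Real.volume_Icc, one_mul, one_mul,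
    sub_sub_cancel, sub_sub_cancel, two_mul]

/-- direction vector -/
noncomputable def nv (θ : ℝ) : ℝ × ℝ := (Real.cos θ, Real.sin θ)

theorem R_add (θ x y t : ℝ) : R θ (x + t, y) = R θ (x, y) + t • nv θ := by
  unfold R nv
  ext
  · simp only [Prod.fst_add, Prod.smul_fst, smul_eq_mul]
    ring
  · simp only [Prod.snd_add, Prod.smul_snd, smul_eq_mul]
    ring

theorem convex_line {E : Set (ℝ × ℝ)} (hE : Convex ℝ E) (θ y : ℝ) :
    Convex ℝ {x | R θ (x, y) ∈ E} := by
  intro a ha b hb u v hu hv huv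
  have := hE ha hb hu hv huv
  change R θ (u • a + v • b, y) ∈ E
  have e : R θ (u • a + v • b, y) = u • R θ (a, y) + v • R θ (b, y) := by
    unfold R
    have h : y = (u + v) * y := by rw [huv, one_mul]
    ext
    · simp only [Prod.fst_add, Prod.smul_fst, smul_eq_mul]
      linear_combination (-Real.sin θ) * h
    · simp only [Prod.snd_add, Prod.smul_snd, smul_eq_mul]
      linear_combination (Real.cos θ) * h
  rw [e]
  exact this

theorem bdd_line {E : Set (ℝ × ℝ)} (hb : Bornology.IsBounded E) (θ y : ℝ) :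
    BddAbove {x | R θ (x, y) ∈ E} ∧ BddBelow {x | R θ (x, y) ∈ E} := by
  obtain ⟨M, _, hM⟩ := exists_bd hb
  have h3 : ∀ x, ell θ (R θ (x, y)) = x := by
    intro x
    have h := Real.sin_sq_add_cos_sq θ
    unfold R ell
    simp only
    linear_combination x * h
  have h4 : ∀ x, R θ (x, y) ∈ E → |x| ≤ 2 * M := by
    intro x hx
    have := ell_bound (hM _ hx) θ
    rwa [h3] at this
  exact ⟨⟨2 * M, fun x hx => (abs_le.1 (h4 x hx)).2⟩, ⟨-(2 * M), fun x hx => (abs_le.1 (h4 x hx)).1⟩⟩

theorem shift_two {E : Set (ℝ × ℝ)} (hE : Cvx E) (θ : ℝ) {t : ℝ} (ht : 0 < t) :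
    ∫⁻ z, ‖ind E (z + t • nv θ) - ind E z‖ₑ ≤ 2 * ENNReal.ofReal t * volume (prj E θ) := by
  have hm : Measurable (fun z => ‖ind E (z + t • nv θ) - ind E z‖ₑ) :=
    (((meas_ind hE.op).comp (measurable_id.add_const _)).sub (meas_ind hE.op)).enorm
  rw [← (mp_R θ).lintegral_comp hm, Measure.volume_eq_prod, lintegral_prod_symm]
  · have hmeas : MeasurableSet (prj E θ) := by
      rw [prj_eq]
      exact (ell_convex hE.co _).ordConnected.measurableSet
    have hpt : ∀ y, ∫⁻ x, ‖ind E (R θ (x, y) + t • nv θ) - ind E (R θ (x, y))‖ₑ ≤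
        (prj E θ).indicator (fun _ => 2 * ENNReal.ofReal t) y := by
      intro y
      by_cases hy : y ∈ prj E θ
      · rw [indicator_of_mem hy]
        have h := shift_one (convex_line hE.co θ y) (bdd_line hE.bd θ y).1 (bdd_line hE.bd θ y).2 ht
        refine le_trans (le_of_eq ?_) h
        refine lintegral_congr fun x => ?_
        rw [← R_add]
        rfl
      · have h0 : ∀ x, R θ (x, y) ∉ E := fun x hx => hy ⟨x, hx⟩
        have : ∀ x, ind E (R θ (x, y) + t • nv θ) - ind E (R θ (x, y)) = 0 := by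
          intro x
          rw [← R_add, ind_notMem (h0 _), ind_notMem (h0 _), sub_zero]
        simp [this]
    calc _ ≤ ∫⁻ y, (prj E θ).indicator (fun _ => 2 * ENNReal.ofReal t) y := lintegral_mono hpt
      _ = 2 * ENNReal.ofReal t * volume (prj E θ) := by
          rw [lintegral_indicator hmeas, setLIntegral_const]
  · exact (hm.comp (continuous_R θ).measurable).aemeasurable

theorem lint_k {k : ℝ × ℝ → ℝ} {δ : ℝ} (hk : Ker k δ) : ∫⁻ t, ‖k t‖ₑ = 1 := by
  have hki : Integrable k := hk.smooth.continuous.integrable_of_hasCompactSupport hk.cs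
  have : ∀ t, ‖k t‖ₑ = ENNReal.ofReal (k t) := fun t => by
    rw [Real.enorm_eq_ofReal (hk.nn t)]
  simp only [this]
  rw [← ofReal_integral_eq_lintegral_ofReal hki (Filter.Eventually.of_forall hk.nn), hk.int,
    ENNReal.ofReal_one]

theorem shift_mf {k : ℝ × ℝ → ℝ} {δ : ℝ} (hk : Ker k δ) {E : Set (ℝ × ℝ)} (hE : IsOpen E)
    (v : ℝ × ℝ) : ∫⁻ z, ‖mf k E (z + v) - mf k E z‖ₑ ≤ ∫⁻ z, ‖ind E (z + v) - ind E z‖ₑ := by
  have hK : Measurable (fun z => ‖ind E (z + v) - ind E z‖ₑ) :=
    (((meas_ind hE).comp (measurable_id.add_const _)).sub (meas_ind hE)).enorm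
  have h1 : ∀ z, ‖mf k E (z + v) - mf k E z‖ₑ ≤
      ∫⁻ t, ‖k t‖ₑ * ‖ind E (z - t + v) - ind E (z - t)‖ₑ := by
    intro z
    rw [mf_apply, mf_apply, ← integral_sub (int_k_ind hk hE _) (int_k_ind hk hE _)]
    refine (enorm_integral_le_lintegral_enorm _).trans (le_of_eq (lintegral_congr fun t => ?_))
    rw [← mul_sub, enorm_mul, add_sub_right_comm]
  have hmk : Measurable (fun t => ‖k t‖ₑ) := hk.smooth.continuous.measurable.enorm
  calc ∫⁻ z, ‖mf k E (z + v) - mf k E z‖ₑ
      ≤ ∫⁻ z, ∫⁻ t, ‖k t‖ₑ * ‖ind E (z - t + v) - ind E (z - t)‖ₑ := lintegral_mono h1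
    _ = ∫⁻ t, ∫⁻ z, ‖k t‖ₑ * ‖ind E (z - t + v) - ind E (z - t)‖ₑ := by
        rw [lintegral_lintegral_swap]
        refine Measurable.aemeasurable ?_
        exact (hmk.comp measurable_snd).mul (hK.comp (measurable_fst.sub measurable_snd))
    _ = ∫⁻ t, ‖k t‖ₑ * ∫⁻ z, ‖ind E (z + v) - ind E z‖ₑ := by
        refine lintegral_congr fun t => ?_
        have hKt : Measurable (fun z => ‖ind E (z - t + v) - ind E (z - t)‖ₑ) :=
          hK.comp (measurable_id.sub_const t)
        rw [lintegral_const_mul _ hKt]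
        rw [lintegral_sub_right_eq_self (fun z => ‖ind E (z + v) - ind E z‖ₑ) t]
    _ = _ := by
        rw [lintegral_mul_const _ hmk, lint_k hk, one_mul]

/-- upper bound of the variation in direction `θ` -/
theorem dir_up {k : ℝ × ℝ → ℝ} {δ : ℝ} (hk : Ker k δ) {E : Set (ℝ × ℝ)} (hE : Cvx E) (θ : ℝ) :
    ∫⁻ z, ENNReal.ofReal |dn (mf k E) θ z| ≤ 2 * volume (prj E θ) := by
  have hf : ContDiff ℝ 1 (mf k E) := (mf_smooth hk hE.op).of_le (by norm_num)
  set f := mf k E with hfd
  set τ : ℕ → ℝ := fun j => 1 / ((j : ℝ) + 1) with hτ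
  have hτ0 : ∀ j, 0 < τ j := fun j => by rw [hτ]; positivity
  have hlim : ∀ z, Filter.Tendsto (fun j => ‖(τ j)⁻¹ • (f (z + τ j • nv θ) - f z)‖ₑ) Filter.atTop
      (𝓝 (ENNReal.ofReal |dn f θ z|)) := by
    intro z
    have hd : HasDerivAt (fun t : ℝ => f (z + t • nv θ)) (dn f θ z) 0 := by
      have h1 : HasFDerivAt f (fderiv ℝ f z) (z + (0 : ℝ) • nv θ) := by
        rw [zero_smul, add_zero]
        exact (hf.differentiable one_ne_zero z).hasFDerivAt
      have h2 : HasDerivAt (fun t : ℝ => z + t • nv θ) (nv θ) 0 := by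
        simpa using ((hasDerivAt_id (0 : ℝ)).smul_const (nv θ)).const_add z
      rw [dn_eq]
      exact h1.comp_hasDerivAt 0 h2
    have h3 := hd.tendsto_slope_zero
    have h4 : Filter.Tendsto τ Filter.atTop (𝓝[≠] 0) := by
      refine tendsto_nhdsWithin_iff.2 ⟨tendsto_one_div_add_atTop_nhds_zero_nat, ?_⟩
      exact Filter.Eventually.of_forall fun j => (hτ0 j).ne'
    have h5 := h3.comp h4
    simp only [zero_add, zero_smul, add_zero] at h5
    have h6 := h5.enorm
    rw [Real.enorm_eq_ofReal_abs] at h6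
    exact h6
  have hm : ∀ j, Measurable (fun z => ‖(τ j)⁻¹ • (f (z + τ j • nv θ) - f z)‖ₑ) := by
    intro j
    have : Continuous (fun z => (τ j)⁻¹ • (f (z + τ j • nv θ) - f z)) := by
      have := hf.continuous
      fun_prop
    exact this.measurable.enorm
  have hb : ∀ j, ∫⁻ z, ‖(τ j)⁻¹ • (f (z + τ j • nv θ) - f z)‖ₑ ≤ 2 * volume (prj E θ) := by
    intro j
    have hmf : Measurable (fun z => ‖f (z + τ j • nv θ) - f z‖ₑ) := by
      have : Continuous (fun z => f (z + τ j • nv θ) - f z) := by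
        have := hf.continuous
        fun_prop
      exact this.measurable.enorm
    simp only [enorm_smul]
    rw [lintegral_const_mul _ hmf]
    calc ‖(τ j)⁻¹‖ₑ * ∫⁻ z, ‖f (z + τ j • nv θ) - f z‖ₑ
        ≤ ‖(τ j)⁻¹‖ₑ * (2 * ENNReal.ofReal (τ j) * volume (prj E θ)) := by
          gcongr
          exact (shift_mf hk hE.op _).trans (shift_two hE θ (hτ0 j))
      _ = (‖(τ j)⁻¹‖ₑ * ENNReal.ofReal (τ j)) * (2 * volume (prj E θ)) := by ring
      _ = 2 * volume (prj E θ) := by
          rw [Real.enorm_eq_ofReal (inv_nonneg.2 (hτ0 j).le), ← ENNReal.ofReal_mul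
            (inv_nonneg.2 (hτ0 j).le), inv_mul_cancel₀ (hτ0 j).ne', ENNReal.ofReal_one, one_mul]
  calc ∫⁻ z, ENNReal.ofReal |dn f θ z|
      = ∫⁻ z, Filter.liminf (fun j => ‖(τ j)⁻¹ • (f (z + τ j • nv θ) - f z)‖ₑ) Filter.atTop :=
        lintegral_congr fun z => (hlim z).liminf_eq.symm
    _ ≤ Filter.liminf (fun j => ∫⁻ z, ‖(τ j)⁻¹ • (f (z + τ j • nv θ) - f z)‖ₑ) Filter.atTop :=
        lintegral_liminf_le hm
    _ ≤ Filter.liminf (fun _ : ℕ => 2 * volume (prj E θ)) Filter.atTop :=
        Filter.liminf_le_liminf (Filter.Eventually.of_forall hb)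
    _ = _ := Filter.liminf_const _

/-- Fubini -/
theorem mf_fubini {k : ℝ × ℝ → ℝ} {δ : ℝ} (hk : Ker k δ) {E : Set (ℝ × ℝ)} (hE : IsOpen E)
    {D : ℝ × ℝ → ℝ} (hD : Continuous D) (hDc : HasCompactSupport D) :
    Integrable (fun t => k t * ∫ z in E, D (z + t)) ∧
      ∫ z, mf k E z * D z = ∫ t, k t * ∫ z in E, D (z + t) := by
  have hki : Integrable k := hk.smooth.continuous.integrable_of_hasCompactSupport hk.cs
  have hDi : Integrable D := hD.integrable_of_hasCompactSupport hDc
  set F : (ℝ × ℝ) × (ℝ × ℝ) → ℝ := fun p => k p.2 * ind E (p.1 - p.2) * D p.1 with hF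
  have hFi : Integrable F ((volume : Measure (ℝ × ℝ)).prod volume) := by
    have hdom : Integrable (fun p : (ℝ × ℝ) × (ℝ × ℝ) => D p.1 * k p.2)
        ((volume : Measure (ℝ × ℝ)).prod volume) := hDi.mul_prod hki
    refine hdom.mono ?_ ?_
    · have h1 : Measurable (fun p : (ℝ × ℝ) × (ℝ × ℝ) => k p.2) :=
        hk.smooth.continuous.measurable.comp measurable_snd
      have h2 : Measurable (fun p : (ℝ × ℝ) × (ℝ × ℝ) => ind E (p.1 - p.2)) :=
        (meas_ind hE).comp (measurable_fst.sub measurable_snd)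
      have h3 : Measurable (fun p : (ℝ × ℝ) × (ℝ × ℝ) => D p.1) :=
        hD.measurable.comp measurable_fst
      exact ((h1.mul h2).mul h3).aestronglyMeasurable
    · refine Filter.Eventually.of_forall fun p => ?_
      rw [hF]
      simp only [Real.norm_eq_abs, abs_mul]
      have h1 := ind_le E (p.1 - p.2)
      have h0 := ind_nonneg E (p.1 - p.2)
      rw [abs_of_nonneg h0, mul_comm (|D p.1|)]
      have : |k p.2| * ind E (p.1 - p.2) ≤ |k p.2| * 1 := by gcongr
      calc |k p.2| * ind E (p.1 - p.2) * |D p.1| ≤ |k p.2| * 1 * |D p.1| := by gcongr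
        _ = _ := by ring
  have e1 : ∀ t, ∫ z, F (z, t) = k t * ∫ z in E, D (z + t) := by
    intro t
    have : ∀ z, F (z, t) = k t * (ind E (z - t) * D z) := fun z => by rw [hF]; ring
    simp only [this]
    rw [integral_const_mul]
    congr 1
    rw [← integral_add_right_eq_self (fun z => ind E (z - t) * D z) t, ← integral_indicator
      hE.measurableSet]
    refine integral_congr_ae (Filter.Eventually.of_forall fun z => ?_)
    simp only [add_sub_cancel_right]
    by_cases hz : z ∈ E
    · rw [ind_mem hz, indicator_of_mem hz, one_mul]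
    · rw [ind_notMem hz, indicator_of_notMem hz, zero_mul]
  have e2 : ∀ z, ∫ t, F (z, t) = mf k E z * D z := by
    intro z
    rw [mf_apply, ← integral_mul_const]
  refine ⟨?_, ?_⟩
  · have := hFi.integral_prod_right
    simp only [e1] at this
    exact this
  · simp only [← e1, ← e2]
    exact integral_integral_swap hFi

/-- integration by parts -/
theorem parts {f φ ψ : ℝ × ℝ → ℝ} (hf : ContDiff ℝ 1 f) (hfc : HasCompactSupport f)
    (hφ : ContDiff ℝ 1 φ) (hφc : HasCompactSupport φ) (hψ : ContDiff ℝ 1 ψ)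
    (hψc : HasCompactSupport ψ) :
    ∫ z, f z * (dx φ z + dy ψ z) = - ∫ z, (dx f z * φ z + dy f z * ψ z) := by
  have c1 := continuous_dx hf
  have c2 := continuous_dy hf
  have c3 := continuous_dx hφ
  have c4 := continuous_dy hψ
  have c5 := hf.continuous
  have c6 := hφ.continuous
  have c7 := hψ.continuous
  have p1 : ∫ z, f z * dx φ z = - ∫ z, dx f z * φ z :=
    integral_mul_fderiv_eq_neg_fderiv_mul_of_integrable
      ((c1.mul c6).integrable_of_hasCompactSupport hφc.mul_left)
      ((c5.mul c3).integrable_of_hasCompactSupport hfc.mul_right)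
      ((c5.mul c6).integrable_of_hasCompactSupport hfc.mul_right)
      (fun x _ => hf.differentiable one_ne_zero x) (fun x _ => hφ.differentiable one_ne_zero x)
  have p2 : ∫ z, f z * dy ψ z = - ∫ z, dy f z * ψ z :=
    integral_mul_fderiv_eq_neg_fderiv_mul_of_integrable
      ((c2.mul c7).integrable_of_hasCompactSupport hψc.mul_left)
      ((c5.mul c4).integrable_of_hasCompactSupport hfc.mul_right)
      ((c5.mul c7).integrable_of_hasCompactSupport hfc.mul_right)
      (fun x _ => hf.differentiable one_ne_zero x) (fun x _ => hψ.differentiable one_ne_zero x)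
  have i1 : Integrable (fun z => f z * dx φ z) :=
    (c5.mul c3).integrable_of_hasCompactSupport hfc.mul_right
  have i2 : Integrable (fun z => f z * dy ψ z) :=
    (c5.mul c4).integrable_of_hasCompactSupport hfc.mul_right
  have i3 : Integrable (fun z => dx f z * φ z) :=
    (c1.mul c6).integrable_of_hasCompactSupport hφc.mul_left
  have i4 : Integrable (fun z => dy f z * ψ z) :=
    (c2.mul c7).integrable_of_hasCompactSupport hψc.mul_left
  simp only [mul_add]
  rw [integral_add i1 i2, integral_add i3 i4, p1, p2]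
  ring

end Pool.Agent.W374.BkPer
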