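import Pool.Agent.W374.BkPer3

/-!
# Cauchy's formula for the De Giorgi perimeter of a bounded open convex set in the plane
-/

namespace Pool.Agent.W374.BkPer
open MeasureTheory Set Pool.Agent.W792.Bk
open scoped ContDiff ENNReal Topology

/-- length of the gradient -/
noncomputable def gr (f : ℝ × ℝ → ℝ) (z : ℝ × ℝ) : ℝ := √(dx f z ^ 2 + dy f z ^ 2)

theorem gr_nonneg (f : ℝ × ℝ → ℝ) (z : ℝ × ℝ) : 0 ≤ gr f z := Real.sqrt_nonneg _

theorem continuous_gr {f : ℝ × ℝ → ℝ} (hf : ContDiff ℝ 1 f) : Continuous (gr f) := by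
  have := continuous_dx hf
  have := continuous_dy hf
  unfold gr
  fun_prop

theorem dx_zero {f : ℝ × ℝ → ℝ} {z : ℝ × ℝ} (hz : z ∉ tsupport f) : dx f z = 0 := by
  have : fderiv ℝ f z = 0 := by
    have h := (support_fderiv_subset ℝ (f := f)).trans subset_rfl
    by_contra hc
    exact hz (h hc)
  unfold dx
  rw [this]
  rfl

theorem dy_zero {f : ℝ × ℝ → ℝ} {z : ℝ × ℝ} (hz : z ∉ tsupport f) : dy f z = 0 := by
  have : fderiv ℝ f z = 0 := by
    have h := (support_fderiv_subset ℝ (f := f)).trans subset_rfl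
    by_contra hc
    exact hz (h hc)
  unfold dy
  rw [this]
  rfl

theorem cs_of_zero {f g : ℝ × ℝ → ℝ} (hf : HasCompactSupport f)
    (h : ∀ z, z ∉ tsupport f → g z = 0) : HasCompactSupport g :=
  HasCompactSupport.intro hf.isCompact h

theorem gr_cs {f : ℝ × ℝ → ℝ} (hf : HasCompactSupport f) : HasCompactSupport (gr f) :=
  cs_of_zero hf fun z hz => by
    unfold gr
    rw [dx_zero hz, dy_zero hz]
    simp

theorem integrable_gr {f : ℝ × ℝ → ℝ} (hf : ContDiff ℝ 1 f) (hc : HasCompactSupport f) :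
    Integrable (gr f) := (continuous_gr hf).integrable_of_hasCompactSupport (gr_cs hc)

theorem ofReal_int_gr {f : ℝ × ℝ → ℝ} (hf : ContDiff ℝ 1 f) (hc : HasCompactSupport f) :
    ENNReal.ofReal (∫ z, gr f z) = ∫⁻ z, ENNReal.ofReal (√(dx f z ^ 2 + dy f z ^ 2)) := by
  rw [ofReal_integral_eq_lintegral_ofReal (integrable_gr hf hc)
    (Filter.Eventually.of_forall (gr_nonneg f))]
  rfl

/-- lower bound of the gradient integral -/
theorem gr_low {f : ℝ × ℝ → ℝ} (hf : ContDiff ℝ 1 f) (hc : HasCompactSupport f)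
    {G : Set (ℝ × ℝ)} (hG : Convex ℝ G) (hb : Bornology.IsBounded G) (hne : G.Nonempty)
    (h1 : ∀ z ∈ G, f z = 1) : Cau G ≤ ∫ z, gr f z := by
  have h2 : ENNReal.ofReal (4 * Cau G) ≤ ENNReal.ofReal (4 * ∫ z, gr f z) := by
    rw [ENNReal.ofReal_mul (by norm_num : (0:ℝ) ≤ 4), ENNReal.ofReal_mul (by norm_num : (0:ℝ) ≤ 4),
      ofReal_int_gr hf hc]
    have e4 : ENNReal.ofReal 4 = 4 := by norm_num
    rw [e4, grad_lint hf]
    calc 4 * ENNReal.ofReal (Cau G) = 2 * ENNReal.ofReal (2 * Cau G) := by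
          rw [ENNReal.ofReal_mul (by norm_num : (0:ℝ) ≤ 2)]
          have e2 : ENNReal.ofReal 2 = 2 := by norm_num
          rw [e2, ← mul_assoc]
          norm_num
      _ = 2 * ∫⁻ θ in Ioc (0 : ℝ) (2 * Real.pi), ENNReal.ofReal (wd G θ) := by rw [lint_wd hb hne]
      _ = ∫⁻ θ in Ioc (0 : ℝ) (2 * Real.pi), 2 * ENNReal.ofReal (wd G θ) := by
          rw [lintegral_const_mul _ (continuous_wd hb hne).measurable.ennreal_ofReal]
      _ ≤ _ := by
          refine lintegral_mono fun θ => ?_
          rw [← vol_prj hG hb hne θ]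
          exact dir_low hf hc hG h1 θ
  have h3 : 0 ≤ ∫ z, gr f z := integral_nonneg (gr_nonneg f)
  have := (ENNReal.ofReal_le_ofReal_iff (by linarith)).1 h2
  linarith

theorem Cau_nonneg {E : Set (ℝ × ℝ)} (hb : Bornology.IsBounded E) (hne : E.Nonempty) :
    0 ≤ Cau E := by
  have h := int_wd hb hne
  have : 0 ≤ ∫ θ in (0 : ℝ)..(2 * Real.pi), wd E θ :=
    intervalIntegral.integral_nonneg (by linarith [Real.pi_pos]) fun θ _ => wd_nonneg hb hne θ
  linarith

/-- upper bound of the gradient integral -/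
theorem gr_up {k : ℝ × ℝ → ℝ} {δ : ℝ} (hk : Ker k δ) {E : Set (ℝ × ℝ)} (hE : Cvx E) :
    ∫ z, gr (mf k E) z ≤ Cau E := by
  have hf : ContDiff ℝ 1 (mf k E) := (mf_smooth hk hE.op).of_le (by norm_num)
  have hc := mf_cs hk hE.bd
  have h2 : ENNReal.ofReal (4 * ∫ z, gr (mf k E) z) ≤ ENNReal.ofReal (4 * Cau E) := by
    rw [ENNReal.ofReal_mul (by norm_num : (0:ℝ) ≤ 4), ENNReal.ofReal_mul (by norm_num : (0:ℝ) ≤ 4),
      ofReal_int_gr hf hc]
    have e4 : ENNReal.ofReal 4 = 4 := by norm_num
    rw [e4, grad_lint hf]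
    calc ∫⁻ θ in Ioc (0 : ℝ) (2 * Real.pi), ∫⁻ z, ENNReal.ofReal |dn (mf k E) θ z|
        ≤ ∫⁻ θ in Ioc (0 : ℝ) (2 * Real.pi), 2 * ENNReal.ofReal (wd E θ) := by
          refine lintegral_mono fun θ => ?_
          rw [← vol_prj hE.co hE.bd hE.ne θ]
          exact dir_up hk hE θ
      _ = 2 * ∫⁻ θ in Ioc (0 : ℝ) (2 * Real.pi), ENNReal.ofReal (wd E θ) := by
          rw [lintegral_const_mul _ (continuous_wd hE.bd hE.ne).measurable.ennreal_ofReal]
      _ = 4 * ENNReal.ofReal (Cau E) := by
          rw [lint_wd hE.bd hE.ne, ENNReal.ofReal_mul (by norm_num : (0:ℝ) ≤ 2)]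
          have e2 : ENNReal.ofReal 2 = 2 := by norm_num
          rw [e2, ← mul_assoc]
          norm_num
  have h3 := Cau_nonneg hE.bd hE.ne
  have := (ENNReal.ofReal_le_ofReal_iff (by linarith)).1 h2
  linarith

/-- admissible fields -/
def Adm (φ ψ : ℝ × ℝ → ℝ) : Prop :=
  ContDiff ℝ 1 φ ∧ HasCompactSupport φ ∧ ContDiff ℝ 1 ψ ∧ HasCompactSupport ψ ∧
    ∀ z, φ z ^ 2 + ψ z ^ 2 ≤ 1

theorem adm_shift {φ ψ : ℝ × ℝ → ℝ} (h : Adm φ ψ) (t : ℝ × ℝ) :
    Adm (fun z => φ (z + t)) (fun z => ψ (z + t)) := by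
  obtain ⟨h1, h2, h3, h4, h5⟩ := h
  refine ⟨h1.comp (by fun_prop), h2.comp_homeomorph (Homeomorph.addRight t), h3.comp (by fun_prop),
    h4.comp_homeomorph (Homeomorph.addRight t), fun z => h5 _⟩

theorem div_shift (φ ψ : ℝ × ℝ → ℝ) (t z : ℝ × ℝ) :
    dx (fun z => φ (z + t)) z + dy (fun z => ψ (z + t)) z = dx φ (z + t) + dy ψ (z + t) := by
  unfold dx dy
  rw [fderiv_comp_add_right, fderiv_comp_add_right]

theorem adm_le {E : Set (ℝ × ℝ)} (hP : per E ≠ ⊤) {φ ψ : ℝ × ℝ → ℝ} (h : Adm φ ψ) :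
    ∫ z in E, (dx φ z + dy ψ z) ≤ (per E).toReal := by
  rw [← ENNReal.ofReal_le_iff_le_toReal hP]
  unfold per
  exact le_iSup_of_le φ (le_iSup_of_le ψ (le_iSup_of_le h le_rfl))

theorem div_cont {φ ψ : ℝ × ℝ → ℝ} (h : Adm φ ψ) :
    Continuous (fun z => dx φ z + dy ψ z) ∧ HasCompactSupport (fun z => dx φ z + dy ψ z) := by
  obtain ⟨h1, h2, h3, h4, _⟩ := h
  refine ⟨(continuous_dx h1).add (continuous_dy h3), ?_⟩
  have a1 : HasCompactSupport (dx φ) := cs_of_zero h2 fun z hz => dx_zero hz
  have a2 : HasCompactSupport (dy ψ) := cs_of_zero h4 fun z hz => dy_zero hz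
  exact a1.add a2

theorem claimA {k : ℝ × ℝ → ℝ} {δ : ℝ} (hk : Ker k δ) {E : Set (ℝ × ℝ)} (hE : IsOpen E)
    (hP : per E ≠ ⊤) {φ ψ : ℝ × ℝ → ℝ} (h : Adm φ ψ) :
    ∫ z, mf k E z * (dx φ z + dy ψ z) ≤ (per E).toReal := by
  obtain ⟨h1, h2⟩ := div_cont h
  obtain ⟨h3, h4⟩ := mf_fubini hk hE h1 h2
  rw [h4]
  have hki : Integrable k := hk.smooth.continuous.integrable_of_hasCompactSupport hk.cs
  calc ∫ t, k t * ∫ z in E, (dx φ (z + t) + dy ψ (z + t)) ≤ ∫ t, k t * (per E).toReal := by
        refine integral_mono h3 (hki.mul_const _) fun t => ?_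
        refine mul_le_mul_of_nonneg_left ?_ (hk.nn t)
        have := adm_le hP (adm_shift h t)
        simp only [div_shift] at this
        exact this
    _ = (per E).toReal := by rw [integral_mul_const, hk.int, one_mul]

theorem contDiff_dx {f : ℝ × ℝ → ℝ} (hf : ContDiff ℝ 2 f) : ContDiff ℝ 1 (dx f) :=
  (hf.fderiv_right (m := 1) (by norm_num)).clm_apply contDiff_const

theorem contDiff_dy {f : ℝ × ℝ → ℝ} (hf : ContDiff ℝ 2 f) : ContDiff ℝ 1 (dy f) :=
  (hf.fderiv_right (m := 1) (by norm_num)).clm_apply contDiff_const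

theorem claimB {k : ℝ × ℝ → ℝ} {δ : ℝ} (hk : Ker k δ) {E : Set (ℝ × ℝ)} (hE : IsOpen E)
    (hb : Bornology.IsBounded E) (hP : per E ≠ ⊤) :
    ∫ z, gr (mf k E) z ≤ (per E).toReal := by
  have hf2 : ContDiff ℝ 2 (mf k E) := mf_smooth hk hE
  have hc := mf_cs hk hb
  set f := mf k E with hfd
  have hf : ContDiff ℝ 1 f := hf2.of_le (by norm_num)
  set m : ℝ := volume.real (tsupport f) with hm
  have key : ∀ η : ℝ, 0 < η → ∫ z, gr f z ≤ (per E).toReal + η * m := by
    intro η hη
    set Nf : ℝ × ℝ → ℝ := fun z => √(dx f z ^ 2 + dy f z ^ 2 + η ^ 2) with hN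
    have hpos : ∀ z, 0 < dx f z ^ 2 + dy f z ^ 2 + η ^ 2 := fun z => by positivity
    have hNpos : ∀ z, 0 < Nf z := fun z => Real.sqrt_pos.2 (hpos z)
    have hNs : ∀ z, Nf z ^ 2 = dx f z ^ 2 + dy f z ^ 2 + η ^ 2 := fun z => Real.sq_sqrt (hpos z).le
    have hNc : ContDiff ℝ 1 Nf := by
      refine ContDiff.sqrt ?_ fun z => (hpos z).ne'
      have := contDiff_dx hf2
      have := contDiff_dy hf2
      fun_prop
    set φ : ℝ × ℝ → ℝ := fun z => - dx f z / Nf z with hφ
    set ψ : ℝ × ℝ → ℝ := fun z => - dy f z / Nf z with hψ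
    have hadm : Adm φ ψ := by
      refine ⟨(contDiff_dx hf2).neg.div hNc fun z => (hNpos z).ne', ?_,
        (contDiff_dy hf2).neg.div hNc fun z => (hNpos z).ne', ?_, fun z => ?_⟩
      · exact cs_of_zero hc fun z hz => by rw [hφ]; simp only; rw [dx_zero hz]; simp
      · exact cs_of_zero hc fun z hz => by rw [hψ]; simp only; rw [dy_zero hz]; simp
      · rw [hφ, hψ]
        simp only
        rw [div_pow, div_pow, ← add_div, div_le_one (by have := hNpos z; positivity), hNs z]
        nlinarith [sq_nonneg η]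
    have h1 := claimA hk hE hP hadm
    rw [parts hf hc hadm.1 hadm.2.1 hadm.2.2.1 hadm.2.2.2.1, ← integral_neg] at h1
    have e1 : ∀ z, -(dx f z * φ z + dy f z * ψ z) = (dx f z ^ 2 + dy f z ^ 2) / Nf z := by
      intro z
      rw [hφ, hψ]
      simp only
      ring
    simp only [e1] at h1
    have i1 : Integrable (fun z => (dx f z ^ 2 + dy f z ^ 2) / Nf z) := by
      have c1 := continuous_dx hf
      have c2 := continuous_dy hf
      have c3 := hNc.continuous
      have : Continuous (fun z => (dx f z ^ 2 + dy f z ^ 2) / Nf z) :=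
        ((c1.pow 2).add (c2.pow 2)).div c3 fun z => (hNpos z).ne'
      exact this.integrable_of_hasCompactSupport (cs_of_zero hc fun z hz => by
        rw [dx_zero hz, dy_zero hz]; simp)
    have i2 : Integrable ((tsupport f).indicator (fun _ => η)) :=
      (integrable_indicator_iff hc.isCompact.measurableSet).2
        (integrableOn_const hc.isCompact.measure_ne_top)
    have h2 : ∫ z, gr f z ≤ ∫ z, ((dx f z ^ 2 + dy f z ^ 2) / Nf z +
        (tsupport f).indicator (fun _ => η) z) := by
      refine integral_mono (integrable_gr hf hc) (i1.add i2) fun z => ?_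
      simp only
      by_cases hz : z ∈ tsupport f
      · rw [indicator_of_mem hz]
        have g0 := gr_nonneg f z
        have g2 : gr f z ^ 2 = dx f z ^ 2 + dy f z ^ 2 := Real.sq_sqrt (by positivity)
        have hle : Nf z ≤ gr f z + η := by
          refine Real.sqrt_le_iff.2 ⟨by positivity, ?_⟩
          nlinarith
        rw [← g2]
        have : gr f z - η ≤ gr f z ^ 2 / Nf z := by
          rw [le_div_iff₀ (hNpos z)]
          rcases le_total (gr f z) η with hc1 | hc1
          · nlinarith [hNpos z, sq_nonneg (gr f z), mul_nonneg (sub_nonneg.2 hc1) (hNpos z).le]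
          · nlinarith [mul_le_mul_of_nonneg_left hle (sub_nonneg.2 hc1), sq_nonneg η]
        linarith
      · rw [indicator_of_notMem hz]
        unfold gr
        rw [dx_zero hz, dy_zero hz]
        simp
    rw [integral_add i1 i2, integral_indicator hc.isCompact.measurableSet, setIntegral_const,
      smul_eq_mul] at h2
    calc ∫ z, gr f z ≤ _ := h2
      _ ≤ (per E).toReal + m * η := by
          gcongr
      _ = _ := by ring
  have hm0 : 0 ≤ m := measureReal_nonneg
  refine le_of_forall_pos_le_add fun ε hε => ?_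
  have := key (ε / (m + 1)) (by positivity)
  refine this.trans ?_
  have : ε / (m + 1) * m ≤ ε := by
    rw [div_mul_eq_mul_div, div_le_iff₀ (by positivity)]
    nlinarith
  linarith

theorem int_ell (z₀ : ℝ × ℝ) : ∫ θ in (0 : ℝ)..(2 * Real.pi), ell θ z₀ = 0 := by
  unfold ell
  rw [intervalIntegral.integral_add, intervalIntegral.integral_mul_const,
    intervalIntegral.integral_mul_const, integral_cos, integral_sin]
  · simp
  · exact Continuous.intervalIntegrable (by fun_prop) _ _
  · exact Continuous.intervalIntegrable (by fun_prop) _ _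

theorem t_perlow : S_perlow := by
  intro E hE
  by_cases hP : per E = ⊤
  · rw [hP]; exact le_top
  rw [ENNReal.ofReal_le_iff_le_toReal hP]
  obtain ⟨z₀, hz₀⟩ := hE.ne
  obtain ⟨r, hr, hball⟩ := Metric.isOpen_iff.1 hE.op z₀ hz₀
  have key : ∀ s : ℝ, 0 < s → s < 1 → (1 - s) * Cau E ≤ (per E).toReal := by
    intro s hs0 hs1
    have h1s : 0 < 1 - s := by linarith
    obtain ⟨k, hk⟩ := exists_ker (mul_pos hs0 hr)
    set G : Set (ℝ × ℝ) := (fun z => (1 - s) • z + s • z₀) '' E with hG
    have hGE : G ⊆ E := by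
      rintro _ ⟨z, hz, rfl⟩
      exact hE.co hz hz₀ h1s.le hs0.le (by ring)
    have hGb : Bornology.IsBounded G := hE.bd.subset hGE
    have hGne : G.Nonempty := hE.ne.image _
    have hGc : Convex ℝ G := by
      rintro _ ⟨x, hx, rfl⟩ _ ⟨y, hy, rfl⟩ a b ha hb hab
      refine ⟨a • x + b • y, hE.co hx hy ha hb hab, ?_⟩
      have : s • z₀ = (a + b) • (s • z₀) := by rw [hab, one_smul]
      simp only
      conv_lhs => rw [this]
      module
    have hG1 : ∀ z ∈ G, mf k E z = 1 := by
      rintro _ ⟨z, hz, rfl⟩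
      refine mf_one hk fun t ht => ?_
      have h2 : z₀ - s⁻¹ • t ∈ E := by
        refine hball ?_
        rw [Metric.mem_ball, dist_eq_norm, sub_sub_cancel_left, norm_neg, norm_smul,
          Real.norm_eq_abs, abs_of_pos (inv_pos.2 hs0), inv_mul_lt_iff₀ hs0]
        exact ht
      have h3 := hE.co hz h2 h1s.le hs0.le (by ring)
      have e : (1 - s) • z + s • z₀ - t = (1 - s) • z + s • (z₀ - s⁻¹ • t) := by
        rw [smul_sub, smul_smul, mul_inv_cancel₀ hs0.ne', one_smul]
        abel
      rw [e]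
      exact h3
    have hf : ContDiff ℝ 1 (mf k E) := (mf_smooth hk hE.op).of_le (by norm_num)
    have h4 := gr_low hf (mf_cs hk hE.bd) hGc hGb hGne hG1
    have h5 := claimB hk hE.op hE.bd hP
    have h6 : (1 - s) * Cau E ≤ Cau G := by
      have h7 : ∀ θ, (1 - s) * supp E θ + s * ell θ z₀ ≤ supp G θ := by
        intro θ
        have : supp E θ ≤ (supp G θ - s * ell θ z₀) / (1 - s) := by
          rw [supp_eq E]
          refine csSup_le (hE.ne.image _) ?_
          rintro _ ⟨z, hz, rfl⟩
          rw [le_div_iff₀ h1s]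
          have h8 : ell θ ((1 - s) • z + s • z₀) ≤ supp G θ :=
            le_csSup (bddAbove_ell hGb _) ⟨_, ⟨z, hz, rfl⟩, rfl⟩
          have h9 : ell θ ((1 - s) • z + s • z₀) = (1 - s) * ell θ z + s * ell θ z₀ := by
            unfold ell
            simp only [Prod.fst_add, Prod.smul_fst, Prod.snd_add, Prod.smul_snd, smul_eq_mul]
            ring
          linarith
        rw [le_div_iff₀ h1s] at this
        linarith
      have cE := continuous_supp hE.bd hE.ne
      have cG := continuous_supp hGb hGne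
      have cl : Continuous (fun θ => ell θ z₀) := by unfold ell; fun_prop
      have h10 : ∫ θ in (0 : ℝ)..(2 * Real.pi), ((1 - s) * supp E θ + s * ell θ z₀) ≤ Cau G :=
        intervalIntegral.integral_mono_on (by linarith [Real.pi_pos])
          (Continuous.intervalIntegrable (by fun_prop) _ _) (cG.intervalIntegrable _ _)
          fun θ _ => h7 θ
      rw [intervalIntegral.integral_add (Continuous.intervalIntegrable (by fun_prop) _ _)
        (Continuous.intervalIntegrable (by fun_prop) _ _), intervalIntegral.integral_const_mul,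
        intervalIntegral.integral_const_mul, int_ell, mul_zero, add_zero] at h10
      exact h10
    linarith
  have hC := Cau_nonneg hE.bd hE.ne
  refine le_of_forall_pos_le_add fun ε hε => ?_
  set s := min (1 / 2) (ε / (Cau E + 1)) with hs
  have hs0 : 0 < s := lt_min (by norm_num) (by positivity)
  have hs1 : s < 1 := (min_le_left _ _).trans_lt (by norm_num)
  have h1 := key s hs0 hs1
  have h2 : s * Cau E ≤ ε := by
    calc s * Cau E ≤ ε / (Cau E + 1) * Cau E := by
          gcongr
          exact min_le_right _ _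
      _ ≤ ε := by
          rw [div_mul_eq_mul_div, div_le_iff₀ (by positivity)]
          nlinarith
  linarith

theorem cs_ineq (a b p q : ℝ) (h : p ^ 2 + q ^ 2 ≤ 1) : -(a * p + b * q) ≤ √(a ^ 2 + b ^ 2) := by
  refine Real.le_sqrt_of_sq_le ?_
  nlinarith [sq_nonneg (a * q - b * p), sq_nonneg a, sq_nonneg b,
    mul_nonneg (add_nonneg (sq_nonneg a) (sq_nonneg b)) (sub_nonneg.2 h)]

theorem t_perup : S_perup := by
  intro E hE
  unfold per
  refine iSup_le fun φ => iSup_le fun ψ => iSup_le fun h => ENNReal.ofReal_le_ofReal ?_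
  have hA : Adm φ ψ := h
  obtain ⟨hDc, hDs⟩ := div_cont hA
  set D : ℝ × ℝ → ℝ := fun z => dx φ z + dy ψ z with hD
  have hEfin : volume E ≠ ⊤ := hE.bd.measure_lt_top.ne
  set m : ℝ := volume.real E with hm
  have hm0 : 0 ≤ m := measureReal_nonneg
  have key : ∀ ε : ℝ, 0 < ε → ∫ z in E, D z ≤ Cau E + ε * m := by
    intro ε hε
    have huc := hDs.uniformContinuous_of_continuous hDc
    rw [Metric.uniformContinuous_iff] at huc
    obtain ⟨δ, hδ, hδ'⟩ := huc ε hε
    obtain ⟨k, hk⟩ := exists_ker hδ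
    have hki : Integrable k := hk.smooth.continuous.integrable_of_hasCompactSupport hk.cs
    have hf : ContDiff ℝ 1 (mf k E) := (mf_smooth hk hE.op).of_le (by norm_num)
    have hfc := mf_cs hk hE.bd
    obtain ⟨h3, h4⟩ := mf_fubini hk hE.op hDc hDs
    have hDi : Integrable D := hDc.integrable_of_hasCompactSupport hDs
    have h5 : ∫ z in E, D z ≤ (∫ z, mf k E z * D z) + ε * m := by
      have e1 : ∫ z in E, D z = ∫ t, k t * ∫ z in E, D z := by
        rw [integral_mul_const, hk.int, one_mul]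
      have e2 : (∫ z, mf k E z * D z) + ε * m = ∫ t, (k t * (∫ z in E, D (z + t)) + k t * (ε * m)) := by
        rw [integral_add h3 (hki.mul_const _), integral_mul_const, hk.int, one_mul, h4]
      rw [e1, e2]
      refine integral_mono (hki.mul_const _) (h3.add (hki.mul_const _)) fun t => ?_
      simp only
      rw [← mul_add]
      rcases lt_or_ge ‖t‖ δ with ht | ht
      · refine mul_le_mul_of_nonneg_left ?_ (hk.nn t)
        have hDt : Integrable (fun z => D (z + t)) := hDi.comp_add_right t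
        have hsub : ∫ z in E, D z ≤ ∫ z in E, (D (z + t) + ε) := by
          refine setIntegral_mono_on hDi.integrableOn
            (hDt.integrableOn.add (integrableOn_const hEfin)) hE.op.measurableSet fun z _ => ?_
          have := hδ' (a := z) (b := z + t) (by
            rw [dist_eq_norm]
            simpa using ht)
          rw [Real.dist_eq] at this
          have := (abs_lt.1 this).2
          linarith
        rw [integral_add hDt.integrableOn (integrableOn_const hEfin), setIntegral_const,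
          smul_eq_mul] at hsub
        linarith
      · rw [hk.zero t ht]
        simp
    have h6 : ∫ z, mf k E z * D z ≤ ∫ z, gr (mf k E) z := by
      rw [hD, parts hf hfc hA.1 hA.2.1 hA.2.2.1 hA.2.2.2.1, ← integral_neg]
      have c1 := continuous_dx hf
      have c2 := continuous_dy hf
      have c3 := hA.1.continuous
      have c4 := hA.2.2.1.continuous
      have i1 : Integrable (fun z => -(dx (mf k E) z * φ z + dy (mf k E) z * ψ z)) := by
        have : Continuous (fun z => -(dx (mf k E) z * φ z + dy (mf k E) z * ψ z)) := by fun_prop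
        exact this.integrable_of_hasCompactSupport (cs_of_zero hfc fun z hz => by
          rw [dx_zero hz, dy_zero hz]; simp)
      exact integral_mono i1 (integrable_gr hf hfc) fun z => cs_ineq _ _ _ _ (hA.2.2.2.2 z)
    have h7 := gr_up hk hE
    linarith
  refine le_of_forall_pos_le_add fun ε hε => ?_
  have := key (ε / (m + 1)) (by positivity)
  refine this.trans ?_
  have : ε / (m + 1) * m ≤ ε := by
    rw [div_mul_eq_mul_div, div_le_iff₀ (by positivity)]
    nlinarith
  linarith

end Pool.Agent.W374.BkPer
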