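import Pool.Agent.W503.EH.Stmts

/-!
# The elementary part of the interval inequality
-/

namespace Pool.Agent.W374.EHALG

open MeasureTheory Set Pool.Agent.W503.EH

theorem cont_b {q : ℝ} (hq : 0 < q) : Continuous (fun t : ℝ => q ^ t) :=
  Real.continuous_const_rpow hq.ne'

/-- Chebyshev's integral inequality in a special case -/
theorem cheb {r : ℝ} (hr0 : 0 < r) (hr1 : r < 1) :
    1 / 2 ≤ (∫ t in (0:ℝ)..1, t * r ^ (1 - t)) * (∫ t in (0:ℝ)..1, (1 / r) ^ t) := by
  set b : ℝ → ℝ := fun t => (1 / r) ^ (1 - t) with hb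
  set a : ℝ → ℝ := fun t => t * r ^ (1 - t) with ha
  have hq : 0 < 1 / r := by positivity
  have hq1 : 1 ≤ 1 / r := by rw [le_div_iff₀ hr0]; linarith
  have cb : Continuous b := (cont_b hq).comp (by fun_prop)
  have ca : Continuous a := continuous_id.mul ((cont_b hr0).comp (by fun_prop))
  have e1 : (∫ t in (0:ℝ)..1, (1 / r) ^ t) = ∫ t in (0:ℝ)..1, b t := by
    have := intervalIntegral.integral_comp_sub_left (a := 0) (b := 1)
      (fun t : ℝ => (1 / r) ^ t) 1
    simp only [sub_self, sub_zero] at this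
    rw [hb, this]
  have hab : ∀ t, a t * b t = t := by
    intro t
    rw [ha, hb]
    simp only
    rw [mul_assoc, ← Real.mul_rpow hr0.le hq.le, mul_one_div_cancel hr0.ne', Real.one_rpow, mul_one]
  have bmono : ∀ s t, s ≤ t → b t ≤ b s := by
    intro s t hst
    exact Real.rpow_le_rpow_of_exponent_le hq1 (by linarith)
  have amono : ∀ s t, 0 ≤ s → s ≤ t → a s ≤ a t := by
    intro s t hs hst
    rw [ha]
    simp only
    have : r ^ (1 - s) ≤ r ^ (1 - t) :=
      Real.rpow_le_rpow_of_exponent_ge hr0 hr1.le (by linarith)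
    exact mul_le_mul hst this (by positivity) (by linarith)
  obtain ⟨s, hs, hsb⟩ : ∃ s ∈ Icc (0:ℝ) 1, b s = ∫ t in (0:ℝ)..1, b t := by
    have h0 : (∫ t in (0:ℝ)..1, b t) ≤ b 0 := by
      have := intervalIntegral.integral_mono_on (a := (0:ℝ)) (b := 1) (f := b)
        (g := fun _ => b 0) (μ := volume) zero_le_one (cb.intervalIntegrable _ _)
        (continuous_const.intervalIntegrable _ _) (fun t ht => bmono 0 t ht.1)
      simpa using this
    have h1 : b 1 ≤ (∫ t in (0:ℝ)..1, b t) := by
      have := intervalIntegral.integral_mono_on (a := (0:ℝ)) (b := 1) (g := b)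
        (f := fun _ => b 1) (μ := volume) zero_le_one (continuous_const.intervalIntegrable _ _)
        (cb.intervalIntegrable _ _) (fun t ht => bmono t 1 ht.2)
      simpa using this
    obtain ⟨s, hs, hs'⟩ := intermediate_value_Icc' zero_le_one cb.continuousOn
      (show (∫ t in (0:ℝ)..1, b t) ∈ Icc (b 1) (b 0) from ⟨h1, h0⟩)
    exact ⟨s, hs, hs'⟩
  have hneg : ∀ t ∈ Icc (0:ℝ) 1, a t * b t ≤ a s * b t + b s * a t - a s * b s := by
    intro t ht
    rcases le_total s t with h | h
    · nlinarith [amono s t hs.1 h, bmono s t h,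
        mul_nonneg (sub_nonneg.2 (amono s t hs.1 h)) (sub_nonneg.2 (bmono s t h))]
    · nlinarith [amono t s ht.1 h, bmono t s h,
        mul_nonneg (sub_nonneg.2 (amono t s ht.1 h)) (sub_nonneg.2 (bmono t s h))]
  have hint := intervalIntegral.integral_mono_on (a := (0:ℝ)) (b := 1)
    (f := fun t => a t * b t) (g := fun t => a s * b t + b s * a t - a s * b s) (μ := volume) zero_le_one
    (Continuous.intervalIntegrable (ca.mul cb) _ _)
    (Continuous.intervalIntegrable (by fun_prop) _ _) hneg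
  have i1 : (∫ t in (0:ℝ)..1, a t * b t) = 1 / 2 := by
    simp only [hab]
    simp
  have i2 : (∫ t in (0:ℝ)..1, (a s * b t + b s * a t - a s * b s)) =
      a s * (∫ t in (0:ℝ)..1, b t) + b s * (∫ t in (0:ℝ)..1, a t) - a s * b s := by
    rw [intervalIntegral.integral_sub, intervalIntegral.integral_add,
      intervalIntegral.integral_const_mul, intervalIntegral.integral_const_mul]
    · simp
    · exact Continuous.intervalIntegrable (by fun_prop) _ _
    · exact Continuous.intervalIntegrable (by fun_prop) _ _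
    · exact Continuous.intervalIntegrable (by fun_prop) _ _
    · exact Continuous.intervalIntegrable (by fun_prop) _ _
  rw [i1, i2, hsb] at hint
  rw [e1]
  linarith

theorem half_le {q : ℝ} (hq : 1 ≤ q) : 1 / 2 ≤ ∫ t in (0:ℝ)..1, t * q ^ (1 - t) := by
  have := intervalIntegral.integral_mono_on (a := (0:ℝ)) (b := 1)
    (f := fun t : ℝ => t) (g := fun t : ℝ => t * q ^ (1 - t)) (μ := volume) zero_le_one
    (continuous_id.intervalIntegrable _ _)
    (Continuous.intervalIntegrable (continuous_id.mul ((cont_b (by linarith)).comp (by fun_prop)))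
      _ _) (fun t ht => by
        have : (1:ℝ) ≤ q ^ (1 - t) := Real.one_le_rpow hq (by linarith [ht.2])
        nlinarith [ht.1])
  simpa using this

theorem sgn_one (m : ℕ) : Sgn (fun _ : Fin m => (1:ℝ)) := fun _ => Or.inl rfl

theorem t_ALG : S_ALG := by
  intro m f0 f1 F T p0 p1 G hf0 hf1 hp0 hp1 hG hF hG2 h0 h1 hF0 hT1 hT2
  have hmin : av m (fun η => min (p0 η) (p1 η)) ≤ av m G := av_mono hG
  by_cases c0 : ∃ η, Sgn η ∧ p1 η = 0
  · obtain ⟨η, hη, hz⟩ := c0
    have := h1 η hη hz
    linarith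
  by_cases c1 : ∃ η, Sgn η ∧ p1 η ≤ p0 η
  · obtain ⟨η, hη, hle⟩ := c1
    have hp : 0 < p1 η := lt_of_le_of_ne (hp1 η hη) (fun h => c0 ⟨η, hη, h.symm⟩)
    have hF' := hF η hη (hp.trans_le hle) hp
    have hI := half_le (q := p0 η / p1 η) (by rwa [le_div_iff₀ hp, one_mul])
    have : (f1 - f0) * (1 / 2) ≤ (f1 - f0) * ∫ t in (0:ℝ)..1, t * (p0 η / p1 η) ^ (1 - t) :=
      mul_le_mul_of_nonneg_left hI (by linarith)
    linarith
  push Not at c0 c1
  have hmin' : av m (fun η => min (p0 η) (p1 η)) = av m p0 :=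
    av_congr fun η hη => min_eq_left (c1 η hη).le
  have hpw : ∀ η, Sgn η → 0 ≤ F - f0 ∧ (f1 - f0) / 2 * p0 η ≤ (F - f0) * G η := by
    intro η hη
    rcases (hp0 η hη).eq_or_lt with hz | hz
    · have := h0 η hη hz.symm
      have hG' := hG η hη
      rw [← hz, min_eq_left (hp1 η hη)] at hG'
      rw [← hz, this]
      refine ⟨by linarith, ?_⟩
      rw [mul_zero, sub_zero]
      exact mul_nonneg hF0 hG'
    · have hp : 0 < p1 η := hz.trans (c1 η hη)
      have hF' := hF η hη hz hp
      have hG' := hG2 η hη hz hp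
      have hr1 : p0 η / p1 η < 1 := by rw [div_lt_one hp]; exact c1 η hη
      have hr0 : 0 < p0 η / p1 η := by positivity
      have hc := cheb hr0 hr1
      rw [one_div_div] at hc
      set I := ∫ t in (0:ℝ)..1, t * (p0 η / p1 η) ^ (1 - t) with hI
      set J := ∫ t in (0:ℝ)..1, (p1 η / p0 η) ^ t with hJ
      have hJ0 : 0 ≤ J := intervalIntegral.integral_nonneg zero_le_one (fun t _ => by positivity)
      have hI0 : 0 ≤ I := intervalIntegral.integral_nonneg zero_le_one
        (fun t ht => mul_nonneg ht.1 (by positivity))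
      have hx : (f1 - f0) * I ≤ F - f0 := by linarith
      have hx0 : 0 ≤ (f1 - f0) * I := mul_nonneg (by linarith) hI0
      refine ⟨hx0.trans hx, ?_⟩
      calc (f1 - f0) / 2 * p0 η = (f1 - f0) * p0 η * (1 / 2) := by ring
        _ ≤ (f1 - f0) * p0 η * (I * J) :=
          mul_le_mul_of_nonneg_left hc (mul_nonneg (by linarith) hz.le)
        _ = ((f1 - f0) * I) * (p0 η * J) := by ring
        _ ≤ (F - f0) * G η := mul_le_mul hx hG' (by positivity) (hx0.trans hx)
  have hx : 0 ≤ F - f0 := (hpw _ (sgn_one m)).1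
  have hav : (f1 - f0) / 2 * av m p0 ≤ (F - f0) * av m G := by
    rw [← av_const_mul, ← av_const_mul]
    exact av_mono fun η hη => (hpw η hη).2
  rw [hmin'] at hmin ⊢
  have hg0 : 0 ≤ av m p0 := av_nonneg hp0
  rcases le_or_gt (av m p0) (F - f0) with hc | hc
  · linarith
  · have hg : 0 < av m p0 := hx.trans_lt hc
    have h3 : (f1 - f0) / 2 ≤ (F - f0) * av m G / av m p0 := by
      rw [le_div_iff₀ hg]; exact hav
    have h4 : 0 ≤ (av m p0 - (F - f0)) * (av m G - av m p0) / av m p0 :=
      div_nonneg (mul_nonneg (by linarith) (by linarith)) hg.le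
    have h5 : (av m p0 - (F - f0)) * (av m G - av m p0) / av m p0 =
        (F - f0) + av m G - av m p0 - (F - f0) * av m G / av m p0 := by
      field_simp
      ring
    rw [h5] at h4
    linarith

end Pool.Agent.W374.EHALG
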