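import Pool.Agent.W503.EH.Stmts
import Pool.Agent.W503.EH.Basic

/-!
# Bonnesen's refinement of the Brunn-Minkowski inequality (weak form)
-/

namespace Pool.Agent.W374.EHBON

open MeasureTheory Set Pool.Agent.W503.EH

theorem pointwise {a b w : ℝ → ℝ} (hw : Antitone w)
    (ha1 : ∀ x, a x ≤ 1) (hb1 : ∀ x, b x ≤ 1) (ha0 : a 0 = 1) (hb0 : b 0 = 1)
    {M : ℝ} (haM : ∀ x, M < x → a x = 0) (hbM : ∀ x, M < x → b x = 0)
    (hwM : ∀ x, M < x → w x = 0)
    {t : ℝ} (ht0 : 0 < t) (ht1 : t < 1)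
    (h : ∀ x y, 0 ≤ x → 0 ≤ y → min (a x) (b y) ≤ w ((1 - t) * x + t * y)) {l : ℝ} (hl : 0 < l) :
    ENNReal.ofReal (1 - t) * (volume.restrict (Ioi 0)) {r | l ≤ a r} +
      ENNReal.ofReal t * (volume.restrict (Ioi 0)) {r | l ≤ b r} ≤
      (volume.restrict (Ioi 0)) {r | l ≤ w r} := by
  rcases lt_or_ge 1 l with hl1 | hl1
  · have e1 : {r | l ≤ a r} = ∅ := by
      ext r; simp only [mem_ofPred_eq, mem_empty_iff_false, iff_false, not_le]
      exact (ha1 r).trans_lt hl1
    have e2 : {r | l ≤ b r} = ∅ := by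
      ext r; simp only [mem_ofPred_eq, mem_empty_iff_false, iff_false, not_le]
      exact (hb1 r).trans_lt hl1
    rw [e1, e2]
    simp
  · -- the sets
    have up : ∀ f : ℝ → ℝ, f 0 = 1 → (∀ x, M < x → f x = 0) →
        (volume.restrict (Ioi 0)) {r | l ≤ f r} ≤ ENNReal.ofReal (sSup {r | 0 ≤ r ∧ l ≤ f r}) := by
      intro f hf0 hfM
      rw [Measure.restrict_apply' measurableSet_Ioi]
      have hbd : BddAbove {r | 0 ≤ r ∧ l ≤ f r} := by
        refine ⟨M, ?_⟩
        rintro r ⟨_, hr⟩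
        by_contra hc
        rw [hfM r (not_le.mp hc)] at hr
        linarith
      calc volume ({r | l ≤ f r} ∩ Ioi 0) ≤ volume (Icc 0 (sSup {r | 0 ≤ r ∧ l ≤ f r})) := by
            refine measure_mono ?_
            rintro r ⟨hr, hr0⟩
            exact ⟨le_of_lt hr0, le_csSup hbd ⟨le_of_lt hr0, hr⟩⟩
        _ = _ := by rw [Real.volume_Icc, sub_zero]
    have lw : ENNReal.ofReal (sSup {r | 0 ≤ r ∧ l ≤ w r}) ≤
        (volume.restrict (Ioi 0)) {r | l ≤ w r} := by
      rw [Measure.restrict_apply' measurableSet_Ioi]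
      have hw0 : l ≤ w 0 := by
        have := h 0 0 le_rfl le_rfl
        rw [ha0, hb0] at this
        simp only [min_self, mul_zero, add_zero] at this
        linarith
      calc ENNReal.ofReal (sSup {r | 0 ≤ r ∧ l ≤ w r})
          = volume (Ioo 0 (sSup {r | 0 ≤ r ∧ l ≤ w r})) := by rw [Real.volume_Ioo, sub_zero]
        _ ≤ _ := by
            refine measure_mono ?_
            rintro r ⟨hr0, hr⟩
            obtain ⟨r', ⟨_, hr'⟩, hlt⟩ := exists_lt_of_lt_csSup
              (s := {r | 0 ≤ r ∧ l ≤ w r}) ⟨0, le_rfl, hw0⟩ hr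
            exact ⟨hr'.trans (hw hlt.le), hr0⟩
    have hbw : BddAbove {r | 0 ≤ r ∧ l ≤ w r} := by
      refine ⟨M, ?_⟩
      rintro r ⟨_, hr⟩
      by_contra hc
      rw [hwM r (not_le.mp hc)] at hr
      linarith
    have key : (1 - t) * sSup {r | 0 ≤ r ∧ l ≤ a r} + t * sSup {r | 0 ≤ r ∧ l ≤ b r} ≤
        sSup {r | 0 ≤ r ∧ l ≤ w r} := by
      have h1t : 0 < 1 - t := by linarith
      have s1 : ∀ x, 0 ≤ x → l ≤ a x → ∀ y, 0 ≤ y → l ≤ b y →
          (1 - t) * x + t * y ≤ sSup {r | 0 ≤ r ∧ l ≤ w r} := by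
        intro x hx hax y hy hby
        refine le_csSup hbw ⟨by positivity, ?_⟩
        exact (le_min hax hby).trans (h x y hx hy)
      have s2 : ∀ y, 0 ≤ y → l ≤ b y →
          (1 - t) * sSup {r | 0 ≤ r ∧ l ≤ a r} + t * y ≤ sSup {r | 0 ≤ r ∧ l ≤ w r} := by
        intro y hy hby
        have : sSup {r | 0 ≤ r ∧ l ≤ a r} ≤
            (sSup {r | 0 ≤ r ∧ l ≤ w r} - t * y) / (1 - t) := by
          refine csSup_le ⟨0, le_rfl, by rw [ha0]; exact hl1⟩ ?_
          rintro x ⟨hx, hax⟩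
          rw [le_div_iff₀ h1t]
          have := s1 x hx hax y hy hby
          linarith
        rw [le_div_iff₀ h1t] at this
        linarith
      have : sSup {r | 0 ≤ r ∧ l ≤ b r} ≤
          (sSup {r | 0 ≤ r ∧ l ≤ w r} - (1 - t) * sSup {r | 0 ≤ r ∧ l ≤ a r}) / t := by
        refine csSup_le ⟨0, le_rfl, by rw [hb0]; exact hl1⟩ ?_
        rintro y ⟨hy, hby⟩
        rw [le_div_iff₀ ht0]
        have := s2 y hy hby
        linarith
      rw [le_div_iff₀ ht0] at this
      linarith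
    have nn : ∀ f : ℝ → ℝ, 0 ≤ sSup {r | 0 ≤ r ∧ l ≤ f r} := fun f =>
      Real.sSup_nonneg (fun x hx => hx.1)
    calc ENNReal.ofReal (1 - t) * (volume.restrict (Ioi 0)) {r | l ≤ a r} +
          ENNReal.ofReal t * (volume.restrict (Ioi 0)) {r | l ≤ b r}
        ≤ ENNReal.ofReal (1 - t) * ENNReal.ofReal (sSup {r | 0 ≤ r ∧ l ≤ a r}) +
          ENNReal.ofReal t * ENNReal.ofReal (sSup {r | 0 ≤ r ∧ l ≤ b r}) := by
          gcongr
          · exact up a ha0 haM
          · exact up b hb0 hbM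
      _ = ENNReal.ofReal ((1 - t) * sSup {r | 0 ≤ r ∧ l ≤ a r} +
            t * sSup {r | 0 ≤ r ∧ l ≤ b r}) := by
          rw [← ENNReal.ofReal_mul (by linarith), ← ENNReal.ofReal_mul ht0.le,
            ← ENNReal.ofReal_add (mul_nonneg (by linarith) (nn a)) (mul_nonneg ht0.le (nn b))]
      _ ≤ ENNReal.ofReal (sSup {r | 0 ≤ r ∧ l ≤ w r}) := ENNReal.ofReal_le_ofReal key
      _ ≤ _ := lw

/-- one dimensional inequality -/
theorem oneD {a b w : ℝ → ℝ} (ha : Antitone a) (hb : Antitone b) (hw : Antitone w)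
    (ha1 : ∀ x, a x ≤ 1) (hb1 : ∀ x, b x ≤ 1) (ha0 : a 0 = 1) (hb0 : b 0 = 1)
    (ha2 : ∀ x, 0 ≤ a x) (hb2 : ∀ x, 0 ≤ b x) (hw2 : ∀ x, 0 ≤ w x)
    {M : ℝ} (haM : ∀ x, M < x → a x = 0) (hbM : ∀ x, M < x → b x = 0)
    (hwM : ∀ x, M < x → w x = 0)
    {t : ℝ} (ht0 : 0 < t) (ht1 : t < 1)
    (h : ∀ x y, 0 ≤ x → 0 ≤ y → min (a x) (b y) ≤ w ((1 - t) * x + t * y)) :
    ENNReal.ofReal (1 - t) * (∫⁻ r in Ioi 0, ENNReal.ofReal (a r)) +
      ENNReal.ofReal t * (∫⁻ r in Ioi 0, ENNReal.ofReal (b r)) ≤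
      ∫⁻ r in Ioi 0, ENNReal.ofReal (w r) := by
  rw [lintegral_eq_lintegral_meas_le (f := a) _ (Filter.Eventually.of_forall ha2)
      ha.measurable.aemeasurable,
    lintegral_eq_lintegral_meas_le (f := b) _ (Filter.Eventually.of_forall hb2)
      hb.measurable.aemeasurable,
    lintegral_eq_lintegral_meas_le (f := w) _ (Filter.Eventually.of_forall hw2)
      hw.measurable.aemeasurable]
  calc _ ≤ (∫⁻ l in Ioi (0 : ℝ), ENNReal.ofReal (1 - t) *
            (volume.restrict (Ioi 0)) {r | l ≤ a r}) +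
          (∫⁻ l in Ioi (0 : ℝ), ENNReal.ofReal t * (volume.restrict (Ioi 0)) {r | l ≤ b r}) := by
        gcongr
        · exact lintegral_const_mul_le _ _
        · exact lintegral_const_mul_le _ _
    _ ≤ ∫⁻ l in Ioi (0 : ℝ), (ENNReal.ofReal (1 - t) *
            (volume.restrict (Ioi 0)) {r | l ≤ a r} +
          ENNReal.ofReal t * (volume.restrict (Ioi 0)) {r | l ≤ b r}) := le_lintegral_add _ _
    _ ≤ _ := by
        refine lintegral_mono_ae ?_
        rw [ae_restrict_iff' measurableSet_Ioi]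
        refine Filter.Eventually.of_forall fun l hl => ?_
        exact pointwise hw ha1 hb1 ha0 hb0 haM hbM hwM ht0 ht1 h hl


variable {m : ℕ}

/-- length of the fibre -/
noncomputable def fl (η : Fin m → ℝ) (K : Set (Fin (m + 1) → ℝ)) (z : Fin m → ℝ) : ℝ :=
  volume.real {s : ℝ | cs s (z + s • η) ∈ K}

/-- the points of `A` whose translate by `r • (1, η)` is in `A` -/
def sh (η : Fin m → ℝ) (A : Set (Fin (m + 1) → ℝ)) (r : ℝ) : Set (Fin (m + 1) → ℝ) :=
  A ∩ {x | x + r • cs 1 η ∈ A}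

theorem isCompact_sh {A : Set (Fin (m + 1) → ℝ)} (hA : IsCompact A) (η : Fin m → ℝ) (r : ℝ) :
    IsCompact (sh η A r) := by
  refine hA.inter_right ?_
  exact hA.isClosed.preimage (f := fun x : Fin (m + 1) → ℝ => x + r • cs 1 η) (by fun_prop)

theorem exists_bound {K : Set (Fin (m + 1) → ℝ)} (hK : IsCompact K) :
    ∃ R : ℝ, 0 ≤ R ∧ ∀ x ∈ K, |x 0| ≤ R := by
  obtain ⟨R, hR⟩ := hK.isBounded.exists_norm_le
  refine ⟨max R 0, le_max_right _ _, fun x hx => ?_⟩
  exact ((norm_le_pi_norm x 0).trans (hR x hx)).trans (le_max_left _ _)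

theorem fibre_subset {K : Set (Fin (m + 1) → ℝ)} {R : ℝ} (hR : ∀ x ∈ K, |x 0| ≤ R)
    (η : Fin m → ℝ) (z : Fin m → ℝ) : {s : ℝ | cs s (z + s • η) ∈ K} ⊆ Icc (-R) R := by
  intro s hs
  have := hR _ hs
  rw [cs_zero, abs_le] at this
  exact this

theorem isCompact_fibre {K : Set (Fin (m + 1) → ℝ)} (hK : IsCompact K) (η : Fin m → ℝ)
    (z : Fin m → ℝ) : IsCompact {s : ℝ | cs s (z + s • η) ∈ K} := by
  obtain ⟨R, _, hR⟩ := exists_bound hK
  refine isCompact_Icc.of_isClosed_subset ?_ (fibre_subset hR η z)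
  exact hK.isClosed.preimage (f := fun s : ℝ => cs s (z + s • η))
    (continuous_cs.comp (by fun_prop : Continuous (fun s : ℝ => (s, z + s • η))))

theorem fl_nonneg (η : Fin m → ℝ) (K : Set (Fin (m + 1) → ℝ)) (z : Fin m → ℝ) : 0 ≤ fl η K z :=
  measureReal_nonneg

theorem ofReal_fl {K : Set (Fin (m + 1) → ℝ)} (hK : IsCompact K) (η : Fin m → ℝ)
    (z : Fin m → ℝ) : ENNReal.ofReal (fl η K z) = volume {s : ℝ | cs s (z + s • η) ∈ K} :=
  ENNReal.ofReal_toReal (isCompact_fibre hK η z).measure_ne_top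

theorem fl_le {K : Set (Fin (m + 1) → ℝ)} {R : ℝ} (hR0 : 0 ≤ R) (hR : ∀ x ∈ K, |x 0| ≤ R)
    (η : Fin m → ℝ) (z : Fin m → ℝ) : fl η K z ≤ 2 * R := by
  refine (measureReal_mono (fibre_subset hR η z) (by rw [Real.volume_Icc]; simp)).trans ?_
  rw [measureReal_def, Real.volume_Icc, ENNReal.toReal_ofReal (by linarith)]
  linarith

theorem measurable_fl {K : Set (Fin (m + 1) → ℝ)} (hK : IsCompact K) (η : Fin m → ℝ) :
    Measurable (fl η K) := by
  have hm : MeasurableSet {p : ℝ × (Fin m → ℝ) | cs p.1 (p.2 + p.1 • η) ∈ K} := by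
    have : Measurable (fun p : ℝ × (Fin m → ℝ) => cs p.1 (p.2 + p.1 • η)) :=
      (continuous_cs.comp (by fun_prop : Continuous
        (fun p : ℝ × (Fin m → ℝ) => (p.1, p.2 + p.1 • η)))).measurable
    exact this hK.measurableSet
  exact (measurable_measure_prodMk_right (μ := (volume : Measure ℝ)) hm).ennreal_toReal

theorem volume_eq_fl {K : Set (Fin (m + 1) → ℝ)} (hK : IsCompact K) (η : Fin m → ℝ) :
    volume K = ∫⁻ r in Ioi (0 : ℝ), volume {z | r ≤ fl η K z} := by
  rw [volume_fibres hK.measurableSet η]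
  rw [← lintegral_eq_lintegral_meas_le volume
    (Filter.Eventually.of_forall (fl_nonneg η K)) (measurable_fl hK η).aemeasurable]
  refine lintegral_congr fun z => ?_
  rw [ofReal_fl hK]

/-- fibres of convex sets -/
theorem mem_sh {A : Set (Fin (m + 1) → ℝ)} (hA : IsCompact A) (hc : Convex ℝ A) (η : Fin m → ℝ)
    {r : ℝ} (hr : 0 < r) {z : Fin m → ℝ} (hz : r ≤ fl η A z) : z ∈ pr η (sh η A r) := by
  have hcomp := isCompact_fibre hA η z
  have hne : {s : ℝ | cs s (z + s • η) ∈ A}.Nonempty := by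
    by_contra hne
    rw [not_nonempty_iff_eq_empty] at hne
    unfold fl at hz
    rw [hne, measureReal_empty] at hz
    linarith
  set I := {s : ℝ | cs s (z + s • η) ∈ A} with hI
  have hsub : I ⊆ Icc (sInf I) (sSup I) := fun s hs =>
    ⟨csInf_le hcomp.bddBelow hs, le_csSup hcomp.bddAbove hs⟩
  have hle : sInf I ≤ sSup I := by
    obtain ⟨s, hs⟩ := hne
    exact (hsub hs).1.trans (hsub hs).2
  have h1 : r ≤ sSup I - sInf I := by
    refine hz.trans ((measureReal_mono hsub (by rw [Real.volume_Icc]; simp)).trans ?_)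
    rw [measureReal_def, Real.volume_Icc, ENNReal.toReal_ofReal (by linarith)]
  have ha : sInf I ∈ I := hcomp.sInf_mem hne
  have hb : sSup I ∈ I := hcomp.sSup_mem hne
  have hconv : Convex ℝ I := by
    intro x hx y hy α β hα hβ hαβ
    have h2 := hc hx hy hα hβ hαβ
    rw [comb_cs] at h2
    change cs (α • x + β • y) (z + (α • x + β • y) • η) ∈ A
    have e : z + (α • x + β • y) • η = α • (z + x • η) + β • (z + y • η) := by
      have : z = (α + β) • z := by rw [hαβ, one_smul]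
      conv_lhs => rw [this]
      simp only [smul_eq_mul]
      module
    rw [e]
    exact h2
  have hmid : sInf I + r ∈ I := by
    have := hconv.ordConnected.out ha hb
    exact this ⟨by linarith, by linarith⟩
  refine ⟨sInf I, ha, ?_⟩
  change cs (sInf I) (z + sInf I • η) + r • cs 1 η ∈ A
  have e : cs (sInf I) (z + sInf I • η) + r • cs 1 η =
      cs (sInf I + r) (z + (sInf I + r) • η) := by
    rw [cs_smul, cs_add]
    congr 1
    · ring
    · module
  rw [e]
  exact hmid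

/-- volume of a convex set by the measures of the projections of the intersections with the
translates -/
theorem vol_le_sh {A : Set (Fin (m + 1) → ℝ)} (hA : IsCompact A) (hc : Convex ℝ A)
    (η : Fin m → ℝ) :
    volume A ≤ ∫⁻ r in Ioi (0 : ℝ), ENNReal.ofReal (vol (pr η (sh η A (max r 0)))) := by
  rw [volume_eq_fl hA η]
  refine lintegral_mono_ae ?_
  rw [ae_restrict_iff' measurableSet_Ioi]
  refine Filter.Eventually.of_forall fun r hr => ?_
  have hr : 0 < r := hr
  have hcc := isCompact_pr (isCompact_sh hA η r) η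
  rw [max_eq_left hr.le, vol, measureReal_def, ENNReal.ofReal_toReal hcc.measure_ne_top]
  exact measure_mono fun z hz => mem_sh hA hc η hr hz

theorem sh_anti {A : Set (Fin (m + 1) → ℝ)} (hc : Convex ℝ A) (η : Fin m → ℝ) {r r' : ℝ}
    (h0 : 0 ≤ r) (h : r ≤ r') : sh η A r' ⊆ sh η A r := by
  rintro x ⟨hx, hx'⟩
  refine ⟨hx, ?_⟩
  rcases h0.eq_or_lt with h0 | h0
  · subst h0
    simpa using hx
  · have hr' : 0 < r' := h0.trans_le h
    have := hc hx hx' (a := 1 - r / r') (b := r / r')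
      (by rw [sub_nonneg, div_le_one hr']; exact h) (by positivity) (by ring)
    change x + r • cs 1 η ∈ A
    convert this using 1
    rw [smul_add, smul_smul, div_mul_cancel₀ _ hr'.ne']
    module

/-- the fibres of `C` over combinations -/
theorem fl_ge {A B C : Set (Fin (m + 1) → ℝ)} (hcA : Convex ℝ A) (hcB : Convex ℝ B)
    (hC : IsCompact C) {t : ℝ} (h : ∀ x ∈ A, ∀ y ∈ B, (1 - t) • x + t • y ∈ C)
    (η : Fin m → ℝ) {x y : ℝ} (hxy : 0 ≤ (1 - t) * x + t * y) {z₀ z₁ : Fin m → ℝ}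
    (hz₀ : z₀ ∈ pr η (sh η A x)) (hz₁ : z₁ ∈ pr η (sh η B y)) :
    (1 - t) • z₀ + t • z₁ ∈ pr η C ∧
      (1 - t) * x + t * y ≤ fl η C ((1 - t) • z₀ + t • z₁) := by
  obtain ⟨s₀, h₀, h₀'⟩ := hz₀
  obtain ⟨s₁, h₁, h₁'⟩ := hz₁
  have h₀' : cs s₀ (z₀ + s₀ • η) + x • cs 1 η ∈ A := h₀'
  have h₁' : cs s₁ (z₁ + s₁ • η) + y • cs 1 η ∈ B := h₁'
  refine ⟨pr_comb h η ⟨s₀, h₀⟩ ⟨s₁, h₁⟩, ?_⟩
  set σ := (1 - t) * s₀ + t * s₁ with hσ
  set l := (1 - t) * x + t * y with hl
  have hsub : Icc σ (σ + l) ⊆ {s : ℝ | cs s (((1 - t) • z₀ + t • z₁) + s • η) ∈ C} := by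
    intro s hs
    obtain ⟨τ, hτ0, hτ1, hτ⟩ : ∃ τ : ℝ, 0 ≤ τ ∧ τ ≤ 1 ∧ s = σ + τ * l := by
      rcases hxy.eq_or_lt with h0 | h0
      · refine ⟨0, le_rfl, zero_le_one, ?_⟩
        have := hs.1
        have := hs.2
        linarith
      · refine ⟨(s - σ) / l, div_nonneg (by linarith [hs.1]) h0.le, ?_, ?_⟩
        · rw [div_le_one h0]
          linarith [hs.2]
        · rw [div_mul_cancel₀ _ h0.ne']
          ring
    have p₀ := hcA h₀ h₀' (a := 1 - τ) (b := τ) (by linarith) hτ0 (by ring)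
    have p₁ := hcB h₁ h₁' (a := 1 - τ) (b := τ) (by linarith) hτ0 (by ring)
    have p := h _ p₀ _ p₁
    change cs s (((1 - t) • z₀ + t • z₁) + s • η) ∈ C
    have e : cs s (((1 - t) • z₀ + t • z₁) + s • η) =
        (1 - t) • ((1 - τ) • cs s₀ (z₀ + s₀ • η) + τ • (cs s₀ (z₀ + s₀ • η) + x • cs 1 η)) +
        t • ((1 - τ) • cs s₁ (z₁ + s₁ • η) + τ • (cs s₁ (z₁ + s₁ • η) + y • cs 1 η)) := by
      simp only [cs_smul, cs_add]
      congr 1
      · rw [hτ, hσ, hl]; ring
      · rw [hτ, hσ, hl]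
        module
    rw [e]
    exact p
  calc l = volume.real (Icc σ (σ + l)) := by
        rw [measureReal_def, Real.volume_Icc, ENNReal.toReal_ofReal (by linarith)]
        ring
    _ ≤ _ := measureReal_mono hsub (isCompact_fibre hC η _).measure_ne_top


theorem min_le_gm {u v t : ℝ} (hu : 0 ≤ u) (hv : 0 ≤ v) (ht0 : 0 < t) (ht1 : t < 1) :
    min u v ≤ u ^ (1 - t) * v ^ t := by
  have hm : 0 ≤ min u v := le_min hu hv
  have e : min u v = (min u v) ^ (1 - t) * (min u v) ^ t := by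
    rw [← Real.rpow_add_of_nonneg hm (by linarith) ht0.le]
    simp
  calc min u v = (min u v) ^ (1 - t) * (min u v) ^ t := e
    _ ≤ u ^ (1 - t) * v ^ t := by
      have h1 : (min u v) ^ (1 - t) ≤ u ^ (1 - t) :=
        Real.rpow_le_rpow hm (min_le_left _ _) (by linarith)
      have h2 : (min u v) ^ t ≤ v ^ t := Real.rpow_le_rpow hm (min_le_right _ _) ht0.le
      exact mul_le_mul h1 h2 (by positivity) (by positivity)

theorem final_ineq {f₀ f₁ p₀ p₁ V t : ℝ} (hf₀ : 0 ≤ f₀) (hp₀ : 0 < p₀)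
    (hp₁ : 0 < p₁) (ht0 : 0 < t) (ht1 : t < 1)
    (h : p₀ ^ (1 - t) * p₁ ^ t * ((1 - t) * (f₀ / p₀) + t * (f₁ / p₁)) ≤ V) :
    f₀ + (f₁ - f₀) * (t * (p₀ / p₁) ^ (1 - t)) ≤ V := by
  have e0 : p₀ ^ (1 - t) * p₁ ^ t / p₀ = (p₁ / p₀) ^ t := by
    rw [Real.div_rpow hp₁.le hp₀.le, div_eq_div_iff hp₀.ne' (by positivity)]
    rw [mul_assoc, mul_comm (p₁ ^ t) (p₀ ^ t), ← mul_assoc, ← Real.rpow_add hp₀]
    simp
    ring
  have e1 : p₀ ^ (1 - t) * p₁ ^ t / p₁ = (p₀ / p₁) ^ (1 - t) := by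
    rw [Real.div_rpow hp₀.le hp₁.le, div_eq_div_iff hp₁.ne' (by positivity)]
    rw [mul_assoc, ← Real.rpow_add hp₁]
    simp
  have am : 1 ≤ (1 - t) * (p₁ / p₀) ^ t + t * (p₀ / p₁) ^ (1 - t) := by
    have := Real.geom_mean_le_arith_mean2_weighted (w₁ := 1 - t) (w₂ := t)
      (p₁ := (p₁ / p₀) ^ t) (p₂ := (p₀ / p₁) ^ (1 - t)) (by linarith) ht0.le (by positivity)
      (by positivity) (by ring)
    refine le_trans (le_of_eq ?_) this
    rw [← Real.rpow_mul (by positivity), ← Real.rpow_mul (by positivity),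
      mul_comm (1 - t) t, ← Real.mul_rpow (by positivity) (by positivity)]
    have : p₁ / p₀ * (p₀ / p₁) = 1 := by field_simp
    rw [this, Real.one_rpow]
  have e2 : p₀ ^ (1 - t) * p₁ ^ t * ((1 - t) * (f₀ / p₀) + t * (f₁ / p₁)) =
      (1 - t) * f₀ * (p₁ / p₀) ^ t + t * f₁ * (p₀ / p₁) ^ (1 - t) := by
    rw [← e0, ← e1]
    field_simp
  rw [e2] at h
  have : f₀ * 1 ≤ f₀ * ((1 - t) * (p₁ / p₀) ^ t + t * (p₀ / p₁) ^ (1 - t)) :=
    mul_le_mul_of_nonneg_left am hf₀
  nlinarith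

theorem t_BON (hBM : S_BM) : S_BON := by
  intro m A B C hA hB hC hcA hcB hAn hBn t ht0 ht1 h η hp₀ hp₁ hf
  have h1t : 0 < 1 - t := by linarith
  obtain ⟨RA, hRA0, hRA⟩ := exists_bound hA
  obtain ⟨RB, hRB0, hRB⟩ := exists_bound hB
  obtain ⟨RC, hRC0, hRC⟩ := exists_bound hC
  set p₀ := vol (pr η A) with hp₀d
  set p₁ := vol (pr η B) with hp₁d
  set gm := p₀ ^ (1 - t) * p₁ ^ t with hgm
  have hgm0 : 0 < gm := by positivity
  -- the functions
  set a : ℝ → ℝ := fun r => vol (pr η (sh η A (max r 0))) / p₀ with ha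
  set b : ℝ → ℝ := fun r => vol (pr η (sh η B (max r 0))) / p₁ with hb
  set w : ℝ → ℝ := fun r => volume.real {z | z ∈ pr η C ∧ r ≤ fl η C z} / gm with hw
  have sub0 : ∀ (X : Set (Fin (m + 1) → ℝ)) (r : ℝ), sh η X r ⊆ X := fun X r => inter_subset_left
  have van : ∀ (X : Set (Fin (m + 1) → ℝ)) (R : ℝ), 0 ≤ R → (∀ x ∈ X, |x 0| ≤ R) → ∀ r, 2 * R < r →
      sh η X (max r 0) = ∅ := by
    intro X R hR0 hR r hr
    rw [eq_empty_iff_forall_notMem]
    rintro x ⟨hx, hx'⟩
    have h1 := hR x hx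
    have h2 := hR _ hx'
    rw [max_eq_left (by linarith)] at h2
    simp only [Pi.add_apply, Pi.smul_apply, cs_zero, smul_eq_mul, mul_one] at h2
    rw [abs_le] at h1 h2
    linarith [h1.1, h2.2]
  have zero_sh : ∀ X : Set (Fin (m + 1) → ℝ), sh η X (max 0 0) = X := by
    intro X
    ext x
    simp [sh]
  have main := oneD (a := a) (b := b) (w := w) (M := 2 * max RA (max RB RC)) (t := t)
    (fun r r' hr => by
      refine div_le_div_of_nonneg_right ?_ hp₀.le
      exact vol_mono (pr_mono (sh_anti hcA η (le_max_right _ _) (max_le_max_right 0 hr)) η)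
        (isCompact_pr (isCompact_sh hA η _) η))
    (fun r r' hr => by
      refine div_le_div_of_nonneg_right ?_ hp₁.le
      exact vol_mono (pr_mono (sh_anti hcB η (le_max_right _ _) (max_le_max_right 0 hr)) η)
        (isCompact_pr (isCompact_sh hB η _) η))
    (fun r r' hr => by
      refine div_le_div_of_nonneg_right ?_ hgm0.le
      refine measureReal_mono ?_ ?_
      · rintro z ⟨hz, hz'⟩
        exact ⟨hz, hr.trans hz'⟩
      · exact ((measure_mono fun z hz => hz.1).trans_lt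
          (isCompact_pr hC η).measure_lt_top).ne)
    (fun r => by
      rw [ha]
      simp only
      rw [div_le_one hp₀]
      exact vol_mono (pr_mono (sub0 _ _) η) (isCompact_pr hA η))
    (fun r => by
      rw [hb]
      simp only
      rw [div_le_one hp₁]
      exact vol_mono (pr_mono (sub0 _ _) η) (isCompact_pr hB η))
    (by rw [ha]; simp only; rw [zero_sh, ← hp₀d, div_self hp₀.ne'])
    (by rw [hb]; simp only; rw [zero_sh, ← hp₁d, div_self hp₁.ne'])
    (fun r => div_nonneg (vol_nonneg _) hp₀.le)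
    (fun r => div_nonneg (vol_nonneg _) hp₁.le)
    (fun r => div_nonneg measureReal_nonneg hgm0.le)
    (fun r hr => by
      rw [ha]
      simp only
      rw [van A RA hRA0 hRA r (by
        have := le_max_left RA (max RB RC)
        linarith), pr_empty, vol_empty, zero_div])
    (fun r hr => by
      rw [hb]
      simp only
      rw [van B RB hRB0 hRB r (by
        have h1 := le_max_right RA (max RB RC)
        have h2 := le_max_left RB RC
        linarith), pr_empty, vol_empty, zero_div])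
    (fun r hr => by
      rw [hw]
      simp only
      have : {z | z ∈ pr η C ∧ r ≤ fl η C z} = ∅ := by
        rw [eq_empty_iff_forall_notMem]
        rintro z ⟨_, hz⟩
        have h0 := fl_le hRC0 hRC η z
        have h1 := le_max_right RA (max RB RC)
        have h2 := le_max_right RB RC
        linarith
      rw [this, measureReal_empty, zero_div])
    ht0 ht1
    (fun x y hx hy => by
      rw [ha, hb, hw]
      simp only
      rw [max_eq_left hx, max_eq_left hy]
      refine (min_le_gm (div_nonneg (vol_nonneg _) hp₀.le) (div_nonneg (vol_nonneg _) hp₁.le)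
        ht0 ht1).trans ?_
      rw [Real.div_rpow (vol_nonneg _) hp₀.le, Real.div_rpow (vol_nonneg _) hp₁.le, div_mul_div_comm]
      refine div_le_div_of_nonneg_right ?_ hgm0.le
      rcases eq_empty_or_nonempty (pr η (sh η A x)) with hX | hX
      · rw [hX, vol_empty, Real.zero_rpow h1t.ne', zero_mul]
        exact measureReal_nonneg
      rcases eq_empty_or_nonempty (pr η (sh η B y)) with hY | hY
      · rw [hY, vol_empty, Real.zero_rpow ht0.ne', mul_zero]
        exact measureReal_nonneg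
      have cX := isCompact_pr (isCompact_sh hA η x) η
      have cY := isCompact_pr (isCompact_sh hB η y) η
      have cZ : IsCompact ((fun p : (Fin m → ℝ) × (Fin m → ℝ) => (1 - t) • p.1 + t • p.2) ''
          (pr η (sh η A x) ×ˢ pr η (sh η B y))) := (cX.prod cY).image (by fun_prop)
      refine (hBM m _ _ _ cX cY cZ hX hY t ht0 ht1
        (fun u hu v hv => ⟨(u, v), ⟨hu, hv⟩, rfl⟩)).trans ?_
      refine measureReal_mono ?_ ?_
      · rintro _ ⟨⟨u, v⟩, ⟨hu, hv⟩, rfl⟩
        exact fl_ge hcA hcB hC h η (by positivity) hu hv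
      · exact ((measure_mono fun z hz => hz.1).trans_lt
          (isCompact_pr hC η).measure_lt_top).ne)
  -- conclusion
  have iA : ENNReal.ofReal (vol A / p₀) ≤ ∫⁻ r in Ioi 0, ENNReal.ofReal (a r) := by
    have e : ∀ r, ENNReal.ofReal (a r) = ENNReal.ofReal (1 / p₀) *
        ENNReal.ofReal (vol (pr η (sh η A (max r 0)))) := by
      intro r
      rw [← ENNReal.ofReal_mul (by positivity)]
      congr 1
      rw [ha]
      simp only
      ring
    simp only [e]
    rw [lintegral_const_mul' _ _ ENNReal.ofReal_ne_top]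
    have : ENNReal.ofReal (vol A / p₀) = ENNReal.ofReal (1 / p₀) * volume A := by
      rw [div_eq_mul_one_div, mul_comm, ENNReal.ofReal_mul (by positivity), vol, measureReal_def,
        ENNReal.ofReal_toReal hA.measure_ne_top]
    rw [this]
    gcongr
    exact vol_le_sh hA hcA η
  have iB : ENNReal.ofReal (vol B / p₁) ≤ ∫⁻ r in Ioi 0, ENNReal.ofReal (b r) := by
    have e : ∀ r, ENNReal.ofReal (b r) = ENNReal.ofReal (1 / p₁) *
        ENNReal.ofReal (vol (pr η (sh η B (max r 0)))) := by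
      intro r
      rw [← ENNReal.ofReal_mul (by positivity)]
      congr 1
      rw [hb]
      simp only
      ring
    simp only [e]
    rw [lintegral_const_mul' _ _ ENNReal.ofReal_ne_top]
    have : ENNReal.ofReal (vol B / p₁) = ENNReal.ofReal (1 / p₁) * volume B := by
      rw [div_eq_mul_one_div, mul_comm, ENNReal.ofReal_mul (by positivity), vol, measureReal_def,
        ENNReal.ofReal_toReal hB.measure_ne_top]
    rw [this]
    gcongr
    exact vol_le_sh hB hcB η
  have iC : ∫⁻ r in Ioi 0, ENNReal.ofReal (w r) ≤ ENNReal.ofReal (vol C / gm) := by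
    have : ENNReal.ofReal (vol C / gm) = ENNReal.ofReal (1 / gm) * volume C := by
      rw [div_eq_mul_one_div, mul_comm, ENNReal.ofReal_mul (by positivity), vol, measureReal_def,
        ENNReal.ofReal_toReal hC.measure_ne_top]
    rw [this, volume_eq_fl hC η, ← lintegral_const_mul' _ _ ENNReal.ofReal_ne_top]
    refine lintegral_mono fun r => ?_
    rw [hw]
    simp only
    rw [div_eq_mul_one_div, mul_comm, ENNReal.ofReal_mul (by positivity), measureReal_def]
    gcongr
    refine ENNReal.ofReal_toReal_le.trans (measure_mono fun z hz => hz.2)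
  refine final_ineq (vol_nonneg A) hp₀ hp₁ ht0 ht1 ?_
  have fin : ENNReal.ofReal ((1 - t) * (vol A / p₀) + t * (vol B / p₁)) ≤
      ENNReal.ofReal (vol C / gm) := by
    rw [ENNReal.ofReal_add (mul_nonneg h1t.le (div_nonneg (vol_nonneg _) hp₀.le))
      (mul_nonneg ht0.le (div_nonneg (vol_nonneg _) hp₁.le)), ENNReal.ofReal_mul h1t.le,
      ENNReal.ofReal_mul ht0.le]
    refine le_trans ?_ (main.trans iC)
    gcongr
  rw [ENNReal.ofReal_le_ofReal_iff (div_nonneg (vol_nonneg _) hgm0.le), le_div_iff₀ hgm0] at fin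
  rw [← hgm]
  linarith

end Pool.Agent.W374.EHBON
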