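import Mathlib
import Pool.Agent.W868.FI.Stms
import Pool.Agent.W868.FI.Stms2

/-! The final theorem on factor of iid labelings, infinite groups. -/

set_option autoImplicit false

open MeasureTheory Set Pool.Agent.W868.FI

namespace Pool.Agent.W374.FIFin

/-- left Folner sets give right Folner sets -/
theorem folner_of_amen {Γ : Type} [Group Γ] (h : Amen Γ) : Folner Γ := by
  classical
  intro S ε hε
  obtain ⟨F, hF, hS⟩ := h (S.image (fun s => s⁻¹)) ε hε
  refine ⟨F.image (fun g => g⁻¹), hF.image _, ?_⟩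
  intro s hs
  have h1 := hS s⁻¹ (Finset.mem_image_of_mem _ hs)
  rw [Finset.card_image_of_injective _ inv_injective]
  have h2 : ((fun g => g * s) '' ((F.image (fun g => g⁻¹) : Finset Γ) : Set Γ)) \
      ((F.image (fun g => g⁻¹) : Finset Γ) : Set Γ) =
      (fun g => g⁻¹) '' (((fun g => s⁻¹ * g) '' (F : Set Γ)) \ (F : Set Γ)) := by
    ext x
    simp only [Finset.coe_image, mem_sdiff, mem_image, Finset.mem_coe]
    constructor
    · rintro ⟨⟨y, ⟨g, hg, rfl⟩, rfl⟩, hx⟩
      refine ⟨s⁻¹ * g, ⟨⟨g, hg, rfl⟩, fun h3 => hx ⟨_, h3, ?_⟩⟩, ?_⟩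
      · rw [mul_inv_rev, inv_inv]
      · rw [mul_inv_rev, inv_inv]
    · rintro ⟨y, ⟨⟨g, hg, rfl⟩, hy⟩, rfl⟩
      refine ⟨⟨g⁻¹, ⟨g, hg, rfl⟩, by rw [mul_inv_rev, inv_inv]⟩, ?_⟩
      rintro ⟨g', hg', h3⟩
      rw [inv_inj] at h3
      exact hy (h3 ▸ hg')
  rw [h2, Set.ncard_image_of_injective _ inv_injective]
  exact h1

/-- a measure which is not a point mass has a nontrivial set -/
theorem exists_set {X : Type} [MeasurableSpace X] [StandardBorelSpace X] (μ : Measure X)
    [IsProbabilityMeasure μ] (h : ∀ x, μ {x} ≠ 1) :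
    ∃ E : Set X, MeasurableSet E ∧ 0 < μ E ∧ 0 < μ Eᶜ := by
  by_contra hcon
  push Not at hcon
  have h1 : ∀ n : ℕ, ∃ b : Bool, ∀ᵐ x ∂μ, MeasurableSpace.mapNatBool X x n = b := by
    intro n
    have hm : MeasurableSet {x | MeasurableSpace.mapNatBool X x n = true} := by
      have := (measurable_pi_iff.1 (MeasurableSpace.measurable_mapNatBool (α := X))) n
      exact this (measurableSet_singleton true)
    by_cases h0 : 0 < μ {x | MeasurableSpace.mapNatBool X x n = true}
    · refine ⟨true, ?_⟩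
      have h2 := hcon _ hm h0
      rw [ae_iff]
      exact le_antisymm h2 zero_le
    · refine ⟨false, ?_⟩
      rw [not_lt] at h0
      rw [ae_iff]
      refine le_antisymm (le_trans (measure_mono ?_) h0) zero_le
      intro x hx
      simpa using hx
  choose b hb using h1
  have h2 : ∀ᵐ x ∂μ, ∀ n, MeasurableSpace.mapNatBool X x n = b n := ae_all_iff.2 hb
  obtain ⟨x0, hx0⟩ := h2.exists
  apply h x0
  have h3 : {x | ∀ n, MeasurableSpace.mapNatBool X x n = b n} = {x0} := by
    ext x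
    simp only [mem_ofPred_eq, mem_singleton_iff]
    constructor
    · intro hx
      apply MeasurableSpace.injective_mapNatBool (α := X)
      funext n
      rw [hx n, hx0 n]
    · rintro rfl
      exact hx0
  rw [← h3]
  exact (prob_compl_eq_zero_iff₀ (by rw [h3]; exact (measurableSet_singleton x0).nullMeasurableSet)).1
    (ae_iff.1 h2)

/-- the shift preserves the iid measure -/
theorem mp_sh {Γ X : Type} [Group Γ] [MeasurableSpace X] (μ : Measure X)
    [IsProbabilityMeasure μ] (γ : Γ) : MeasurePreserving (sh γ) (iid Γ μ) (iid Γ μ) := by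
  have hm : Measurable (sh (X := X) γ) := by
    unfold sh
    fun_prop
  refine ⟨hm, ?_⟩
  have h1 := Measure.infinitePi_map_piCongrLeft (X := fun _ : Γ => X) (μ := fun _ : Γ => μ)
    (Equiv.mulRight γ).symm
  have h2 : (MeasurableEquiv.piCongrLeft (fun _ : Γ => X) (Equiv.mulRight γ).symm :
      (Γ → X) → (Γ → X)) = sh γ := by
    funext x δ
    obtain ⟨δ', rfl⟩ := (Equiv.mulRight γ).symm.surjective δ
    rw [MeasurableEquiv.piCongrLeft_apply_apply]
    unfold sh
    simp
  rw [h2] at h1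
  exact h1

theorem fininf (h₁ : S_MAIN) (h₂ : S_FREE) : S_FININF := by
  intro Γ X Y _ _ _ hA _ _ _ _ μ _ ν _ hμ hν Q hQ
  classical
  obtain ⟨U, f, hUf, hUi, hU0, hfm, hfP⟩ := hQ
  obtain ⟨E, hE, hE1, hE2⟩ := exists_set μ hμ
  obtain ⟨E', hE', hE1', hE2'⟩ := exists_set ν hν
  have hfree := h₂ Γ X μ E hE hE1 hE2
  have hfree' := h₂ Γ Y ν E' hE' hE1' hE2'
  -- `U` is conull
  have hU : ∀ᵐ x ∂(iid Γ μ), x ∈ U := by
    have h3 : ∀ᵐ x ∂(iid Γ μ), x ∉ freePart Γ X \ U := by
      rw [ae_iff]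
      have h4 : {a | ¬ a ∉ freePart Γ X \ U} = freePart Γ X \ U := by
        ext a
        simp only [not_not, mem_ofPred_eq]
      rw [h4]
      exact hU0
    filter_upwards [hfree, h3] with x hx hx'
    by_contra hxU
    exact hx' ⟨hx, hxU⟩
  obtain ⟨x0, hx0⟩ := hU.exists
  haveI : Finite Q.Sg := Q.fin
  letI : Fintype Q.Sg := Fintype.ofFinite _
  haveI : Nonempty Q.Sg := ⟨f x0⟩
  letI : MeasurableSpace Q.Sg := ⊤
  haveI : MeasurableSingletonClass Q.Sg := ⟨fun _ => trivial⟩
  -- a measurable version of `f`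
  have hnm : NullMeasurable f (iid Γ μ) := by
    intro t _
    have h3 : f ⁻¹' t = ⋃ s ∈ t, f ⁻¹' {s} := by
      ext x; simp
    rw [h3]
    refine NullMeasurableSet.biUnion (to_countable t) fun s _ => ?_
    refine (hfm s).congr ?_
    filter_upwards [hU] with x hx
    have : (x ∈ U ∩ f ⁻¹' {s}) = (x ∈ f ⁻¹' {s}) := by
      rw [mem_inter_iff]
      exact propext ⟨fun h => h.2, fun h => ⟨hx, h⟩⟩
    exact this
  have hae : AEMeasurable f (iid Γ μ) := hnm.aemeasurable
  have hvalid : ∀ᵐ x ∂(iid Γ μ), (fun δ : Q.F => hae.mk f (sh δ.1 x)) ∈ Q.P := by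
    have h3 : ∀ᵐ x ∂(iid Γ μ), ∀ γ : Γ, f (sh γ x) = hae.mk f (sh γ x) := by
      rw [ae_all_iff]
      intro γ
      exact (mp_sh μ γ).quasiMeasurePreserving.ae hae.ae_eq_mk
    filter_upwards [hU, h3] with x hx hx'
    have h4 := hfP x hx
    have h5 : (fun δ : Q.F => f (sh δ.1 x)) = fun δ : Q.F => hae.mk f (sh δ.1 x) := by
      funext δ
      exact hx' δ.1
    rwa [h5] at h4
  -- the Bernoulli measure
  have hd : Measurable (fun y : Y => decide (y ∈ E')) := by
    refine measurable_to_bool ?_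
    have : (fun y : Y => decide (y ∈ E')) ⁻¹' {true} = E' := by
      ext y; simp
    rw [this]
    exact hE'
  let ν' : Measure Bool := ν.map (fun y => decide (y ∈ E'))
  haveI : IsProbabilityMeasure ν' := Measure.isProbabilityMeasure_map hd.aemeasurable
  have hT : 0 < ν' {true} := by
    rw [Measure.map_apply hd (measurableSet_singleton true)]
    have : (fun y : Y => decide (y ∈ E')) ⁻¹' {true} = E' := by
      ext y; simp
    rw [this]
    exact hE1'
  have hFl : 0 < ν' {false} := by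
    rw [Measure.map_apply hd (measurableSet_singleton false)]
    have : (fun y : Y => decide (y ∈ E')) ⁻¹' {false} = E'ᶜ := by
      ext y; simp
    rw [this]
    exact hE2'
  obtain ⟨f', hf'm, hf'P⟩ := h₁ Γ Q.Sg X (folner_of_amen hA) ν' hT hFl μ Q.F Q.P (hae.mk f)
    (fun s => hae.measurable_mk (measurableSet_singleton s)) hvalid
  -- pull back
  let pr : (Γ → Y) → (Γ → Bool) := fun y g => decide (y g ∈ E')
  have hpr : Measurable pr := by
    refine measurable_pi_lambda _ fun g => ?_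
    exact hd.comp (measurable_pi_apply g)
  have hmap : (iid Γ ν).map pr = iid Γ ν' :=
    Measure.infinitePi_map_pi (μ := fun _ : Γ => ν) (f := fun _ : Γ => fun y : Y =>
      decide (y ∈ E')) (fun _ => hd)
  have hpb : ∀ᵐ y ∂(iid Γ ν), (fun δ : Q.F => f' (sh δ.1 (pr y))) ∈ Q.P := by
    rw [← hmap] at hf'P
    exact ae_of_ae_map hpr.aemeasurable hf'P
  have hpb' : ∀ᵐ y ∂(iid Γ ν), ∀ γ : Γ, (fun δ : Q.F => f' (sh δ.1 (pr (sh γ y)))) ∈ Q.P := by
    rw [ae_all_iff]
    intro γ
    exact (mp_sh ν γ).quasiMeasurePreserving.ae hpb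
  have hconull : ∀ᵐ y ∂(iid Γ ν), y ∈ {y | y ∈ freePart Γ Y ∧
      ∀ γ : Γ, (fun δ : Q.F => f' (sh δ.1 (pr (sh γ y)))) ∈ Q.P} := by
    filter_upwards [hfree', hpb'] with y hy hy'
    exact ⟨hy, hy'⟩
  refine ⟨{y | y ∈ freePart Γ Y ∧ ∀ γ : Γ, (fun δ : Q.F => f' (sh δ.1 (pr (sh γ y)))) ∈ Q.P},
    fun y => f' (pr y), fun y hy => hy.1, ?_, ?_, ?_, ?_⟩
  · rintro γ y ⟨hy1, hy2⟩
    refine ⟨?_, ?_⟩
    · intro δ hδ h3
      rw [sh_sh] at h3
      have h4 : sh (γ⁻¹ * (δ * γ)) y = y := by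
        rw [← sh_sh, h3, sh_sh, inv_mul_cancel, sh_one]
      refine hy1 (γ⁻¹ * (δ * γ)) ?_ h4
      intro h5
      apply hδ
      have h6 : δ * γ = γ := by
        have h7 := congrArg (fun z => γ * z) h5
        simpa using h7
      exact mul_eq_right.1 h6
    · intro δ
      rw [sh_sh]
      exact hy2 _
  · have h3 := ae_iff.1 hconull
    refine measure_mono_null ?_ h3
    intro y hy
    exact hy.2
  · intro s
    refine NullMeasurableSet.inter ?_ ?_
    · exact (MeasurableSet.univ.nullMeasurableSet (μ := iid Γ ν)).congr (by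
        filter_upwards [hconull] with y hy
        exact propext ⟨fun _ => hy, fun _ => trivial⟩)
    · exact (hpr (hf'm s)).nullMeasurableSet
  · rintro y ⟨-, hy⟩
    have h3 := hy 1
    rw [sh_one] at h3
    exact h3

end Pool.Agent.W374.FIFin
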