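import Pool.Agent.W435.FB.Defs

/-!
# Algebraic chains of lists: basic facts
-/

set_option autoImplicit false

namespace Pool.Agent.W374.FBS

open Relation Pool.Agent.W435.FB

variable {q : ℕ} {P Q : Type}

/-- the map induced by a map of the entries -/
noncomputable def mp (q : ℕ) (φ : P → Q) : (List P →₀ ZMod q) →ₗ[ZMod q] (List Q →₀ ZMod q) :=
  Finsupp.lmapDomain (ZMod q) (ZMod q) (List.map φ)

/-- adding an entry in front -/
noncomputable def cn (q : ℕ) (x : P) : (List P →₀ ZMod q) →ₗ[ZMod q] (List P →₀ ZMod q) :=
  Finsupp.lmapDomain (ZMod q) (ZMod q) (List.cons x)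

/-- adding an entry at the end -/
noncomputable def ap (q : ℕ) (t : P) : (List P →₀ ZMod q) →ₗ[ZMod q] (List P →₀ ZMod q) :=
  Finsupp.lmapDomain (ZMod q) (ZMod q) (fun l => l ++ [t])

theorem mp_single (φ : P → Q) (l : List P) (a : ZMod q) :
    mp q φ (Finsupp.single l a) = Finsupp.single (l.map φ) a := by
  simp [mp]

theorem cn_single (x : P) (l : List P) (a : ZMod q) :
    cn q x (Finsupp.single l a) = Finsupp.single (x :: l) a := by
  simp [cn]

theorem ap_single (x : P) (l : List P) (a : ZMod q) :
    ap q x (Finsupp.single l a) = Finsupp.single (l ++ [x]) a := by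
  simp [ap]

theorem act_eq (σ : P → P) : act q σ = mp q σ := rfl

theorem act_single (σ : P → P) (l : List P) (a : ZMod q) :
    act q σ (Finsupp.single l a) = Finsupp.single (l.map σ) a := mp_single σ l a

theorem bd_single (l : List P) (a : ZMod q) : bd q (Finsupp.single l a) = a • bdl q l := by
  simp [bd]

theorem bd_single_one (l : List P) : bd q (Finsupp.single l 1) = bdl q l := by
  rw [bd_single, one_smul]

theorem bdl_nil : bdl q ([] : List P) = 0 := rfl

theorem bdl_cons (x : P) (l : List P) :
    bdl q (x :: l) = Finsupp.single l 1 - cn q x (bdl q l) := rfl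

/-- linear maps that agree on lists are equal -/
theorem lin_ext {M : Type} [AddCommGroup M] [Module (ZMod q) M]
    {f g : (List P →₀ ZMod q) →ₗ[ZMod q] M}
    (h : ∀ l, f (Finsupp.single l 1) = g (Finsupp.single l 1)) : f = g :=
  Finsupp.lhom_ext' fun l => LinearMap.ext_ring (h l)

theorem bd_bdl (l : List P) : bd q (bdl q l) = 0 := by
  have key : ∀ x : P, (bd q).comp (cn q x) = LinearMap.id - (cn q x).comp (bd q) := by
    intro x
    apply lin_ext
    intro l
    simp only [LinearMap.comp_apply, LinearMap.sub_apply, LinearMap.id_apply]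
    rw [cn_single, bd_single_one, bdl_cons, bd_single_one]
  induction l with
  | nil => rw [bdl_nil, map_zero]
  | cons x l ih =>
    rw [bdl_cons, map_sub, bd_single_one]
    have := LinearMap.congr_fun (key x) (bdl q l)
    simp only [LinearMap.comp_apply, LinearMap.sub_apply, LinearMap.id_apply] at this
    rw [this, ih, map_zero]
    abel

theorem bd_bd (c : List P →₀ ZMod q) : bd q (bd q c) = 0 := by
  have : (bd q).comp (bd q) = (0 : (List P →₀ ZMod q) →ₗ[ZMod q] (List P →₀ ZMod q)) := by
    apply lin_ext
    intro l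
    rw [LinearMap.comp_apply, bd_single_one, bd_bdl]
    rfl
  exact LinearMap.congr_fun this c

theorem mp_cn (φ : P → Q) (x : P) (c : List P →₀ ZMod q) :
    mp q φ (cn q x c) = cn q (φ x) (mp q φ c) := by
  have : (mp q φ).comp (cn q x) = (cn q (φ x)).comp (mp q φ) := by
    apply lin_ext
    intro l
    simp only [LinearMap.comp_apply]
    rw [cn_single, mp_single, mp_single, cn_single]
    rfl
  exact LinearMap.congr_fun this c

theorem mp_bdl (φ : P → Q) (l : List P) : mp q φ (bdl q l) = bdl q (l.map φ) := by
  induction l with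
  | nil => rw [bdl_nil, map_zero]; rfl
  | cons x l ih => rw [bdl_cons, map_sub, mp_single, mp_cn, ih, List.map_cons, bdl_cons]

theorem mp_bd (φ : P → Q) (c : List P →₀ ZMod q) : mp q φ (bd q c) = bd q (mp q φ c) := by
  have : (mp q φ).comp (bd q) = (bd q).comp (mp q φ) := by
    apply lin_ext
    intro l
    simp only [LinearMap.comp_apply]
    rw [bd_single_one, mp_single, bd_single_one, mp_bdl]
  exact LinearMap.congr_fun this c

theorem bdl_append (l : List P) (t : P) :
    bdl q (l ++ [t]) = ap q t (bdl q l) + (-1) ^ l.length • Finsupp.single l (1 : ZMod q) := by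
  have key : ∀ (x : P) (c : List P →₀ ZMod q), cn q x (ap q t c) = ap q t (cn q x c) := by
    intro x c
    have : (cn q x).comp (ap q t) = (ap q t).comp (cn q x) := by
      apply lin_ext
      intro l
      simp only [LinearMap.comp_apply]
      rw [ap_single, cn_single, cn_single, ap_single]
      rfl
    exact LinearMap.congr_fun this c
  induction l with
  | nil => rw [bdl_nil, map_zero, List.nil_append, bdl_cons, bdl_nil, map_zero]; simp
  | cons x l ih =>
    rw [List.cons_append, bdl_cons, ih, bdl_cons, map_add, map_sub, ap_single, key]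
    have : cn q x ((-1) ^ l.length • Finsupp.single l (1 : ZMod q)) =
        (-1) ^ l.length • Finsupp.single (x :: l) (1 : ZMod q) := by
      rw [map_zsmul, cn_single]
    rw [this, List.length_cons, pow_succ]
    simp only [mul_neg, mul_one, neg_smul]
    abel

/-- chains of lists of length `k` -/
def Hom (q : ℕ) (P : Type) (k : ℕ) : Submodule (ZMod q) (List P →₀ ZMod q) :=
  Finsupp.supported (ZMod q) (ZMod q) {l | l.length = k}

/-- linear maps that agree on the lists of a set agree on the chains supported there -/
theorem lin_ext_on {M : Type} [AddCommGroup M] [Module (ZMod q) M]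
    {f g : (List P →₀ ZMod q) →ₗ[ZMod q] M} {s : Set (List P)}
    (h : ∀ l ∈ s, f (Finsupp.single l 1) = g (Finsupp.single l 1)) {c : List P →₀ ZMod q}
    (hc : c ∈ Finsupp.supported (ZMod q) (ZMod q) s) : f c = g c := by
  rw [Finsupp.supported_eq_span_single] at hc
  induction hc using Submodule.span_induction with
  | mem x hx =>
    obtain ⟨l, hl, rfl⟩ := hx
    exact h l hl
  | zero => rw [map_zero, map_zero]
  | add x y _ _ h1 h2 => rw [map_add, map_add, h1, h2]
  | smul a x _ h1 => rw [map_smul, map_smul, h1]

/-- linear maps that send the lists of a set to a submodule -/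
theorem lin_mem_on {M : Type} [AddCommGroup M] [Module (ZMod q) M]
    {f : (List P →₀ ZMod q) →ₗ[ZMod q] M} {s : Set (List P)} {N : Submodule (ZMod q) M}
    (h : ∀ l ∈ s, f (Finsupp.single l 1) ∈ N) {c : List P →₀ ZMod q}
    (hc : c ∈ Finsupp.supported (ZMod q) (ZMod q) s) : f c ∈ N := by
  rw [Finsupp.supported_eq_span_single] at hc
  induction hc using Submodule.span_induction with
  | mem x hx =>
    obtain ⟨l, hl, rfl⟩ := hx
    exact h l hl
  | zero => rw [map_zero]; exact N.zero_mem
  | add x y _ _ h1 h2 => rw [map_add]; exact N.add_mem h1 h2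
  | smul a x _ h1 => rw [map_smul]; exact N.smul_mem a h1

theorem single_mem {s : Set (List P)} {l : List P} (h : l ∈ s) (a : ZMod q) :
    Finsupp.single l a ∈ Finsupp.supported (ZMod q) (ZMod q) s :=
  Finsupp.single_mem_supported _ _ h

theorem bd_ap (t : P) {k : ℕ} {c : List P →₀ ZMod q} (hc : c ∈ Hom q P k) :
    bd q (ap q t c) = ap q t (bd q c) + (-1) ^ k • c := by
  have := lin_ext_on (f := (bd q).comp (ap q t))
    (g := (ap q t).comp (bd q) + ((-1 : ℤ) ^ k) • LinearMap.id) (s := {l | l.length = k})
    (fun l hl => by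
      simp only [LinearMap.comp_apply, LinearMap.add_apply, LinearMap.smul_apply,
        LinearMap.id_apply]
      rw [ap_single, bd_single_one, bd_single_one, bdl_append]
      have : l.length = k := hl
      rw [this]) hc
  simpa using this

theorem mp_comp {R : Type} (φ : P → Q) (ψ : Q → R) (c : List P →₀ ZMod q) :
    mp q ψ (mp q φ c) = mp q (fun x => ψ (φ x)) c := by
  have : (mp q ψ).comp (mp q φ) = mp q (fun x => ψ (φ x)) := by
    apply lin_ext
    intro l
    simp only [LinearMap.comp_apply]
    rw [mp_single, mp_single, mp_single, List.map_map]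
    rfl
  exact LinearMap.congr_fun this c

theorem mp_congr {φ ψ : P → Q} {c : List P →₀ ZMod q}
    (h : ∀ l ∈ c.support, ∀ x ∈ l, φ x = ψ x) : mp q φ c = mp q ψ c := by
  have hc : c ∈ Finsupp.supported (ZMod q) (ZMod q) (c.support : Set (List P)) := by
    rw [Finsupp.mem_supported]
  refine lin_ext_on (fun l hl => ?_) hc
  rw [mp_single, mp_single]
  congr 1
  exact List.map_congr_left (h l hl)

/-- the operators commute with equivariant maps -/
theorem opn_mp (σ : P → P) (τ : Q → Q) (f : P → Q) (i : ℕ) {c : List P →₀ ZMod q}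
    (h : ∀ l ∈ c.support, ∀ x ∈ l, ∀ j, f (σ^[j] x) = τ^[j] (f x)) :
    opn q τ i (mp q f c) = mp q f (opn q σ i c) := by
  have h1 : ∀ j, act q (τ^[j]) (mp q f c) = mp q f (act q (σ^[j]) c) := by
    intro j
    rw [act_eq, act_eq, mp_comp, mp_comp]
    exact mp_congr fun l hl x hx => (h l hl x hx j).symm
  unfold opn
  split_ifs
  · have := h1 1
    rw [Function.iterate_one, Function.iterate_one] at this
    simp only [LinearMap.sub_apply, LinearMap.id_apply, map_sub]
    rw [this]
  · rw [LinearMap.sum_apply, LinearMap.sum_apply, map_sum]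
    exact Finset.sum_congr rfl fun j _ => h1 j

theorem bd_opn (σ : P → P) (i : ℕ) (c : List P →₀ ZMod q) :
    bd q (opn q σ i c) = opn q σ i (bd q c) := by
  unfold opn
  split_ifs
  · simp only [LinearMap.sub_apply, LinearMap.id_apply, map_sub, act_eq, mp_bd]
  · simp only [LinearMap.sum_apply, map_sum, act_eq, mp_bd]

theorem opn_add_two (σ : P → P) (i : ℕ) : opn q σ (i + 2) = opn q σ i := by
  unfold opn
  have : Even (i + 2) ↔ Even i := by
    rw [Nat.even_add]; simp
  simp only [this]

theorem act_comp (σ τ : P → P) (c : List P →₀ ZMod q) :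
    act q σ (act q τ c) = act q (fun x => σ (τ x)) c := by
  rw [act_eq, act_eq, act_eq, mp_comp]

theorem act_id (c : List P →₀ ZMod q) : act q (fun x : P => x) c = c := by
  have : act q (fun x : P => x) = LinearMap.id := by
    apply lin_ext
    intro l
    rw [act_single]
    simp
  rw [this]; rfl

theorem opn_opn (σ : P → P) (hσ : ∀ x, σ^[q] x = x) (i : ℕ) (c : List P →₀ ZMod q) :
    opn q σ (i + 1) (opn q σ i c) = 0 := by
  have h1 : ∀ j, act q σ (act q (σ^[j]) c) = act q (σ^[j + 1]) c := by
    intro j
    rw [act_comp]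
    congr 2
    funext x
    rw [Function.iterate_succ_apply']
  have h2 : ∀ j, act q (σ^[j]) (act q σ c) = act q (σ^[j + 1]) c := by
    intro j
    rw [act_comp]
    congr 2
  have h3 : act q (σ^[q]) c = act q (σ^[0]) c := by
    congr 2
    funext x
    rw [hσ x]; rfl
  have tel : ∑ j ∈ Finset.range q, (act q (σ^[j + 1]) c - act q (σ^[j]) c) = 0 := by
    rw [Finset.sum_range_sub (fun j => act q (σ^[j]) c), h3, sub_self]
  rcases Nat.even_or_odd i with hi | hi
  · have hi' : ¬ Even (i + 1) := by
      rw [Nat.even_add_one]; exact not_not.2 hi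
    unfold opn
    rw [if_neg hi', if_pos hi]
    simp only [LinearMap.sum_apply, LinearMap.sub_apply, LinearMap.id_apply, map_sub]
    simp only [h2]
    rw [← Finset.sum_sub_distrib]
    exact tel
  · have hi1 : Even (i + 1) := by
      rw [Nat.even_add_one]; exact Nat.not_even_iff_odd.2 hi
    have hi' : ¬ Even i := Nat.not_even_iff_odd.2 hi
    unfold opn
    rw [if_pos hi1, if_neg hi']
    simp only [LinearMap.sum_apply, LinearMap.sub_apply, LinearMap.id_apply, map_sum]
    simp only [h1]
    exact tel

theorem opn_nil (σ : P → P) (i : ℕ) : opn q σ i (Finsupp.single [] 1) = 0 := by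
  unfold opn
  split_ifs
  · simp only [LinearMap.sub_apply, LinearMap.id_apply]
    rw [act_single]; simp
  · simp only [LinearMap.sum_apply, act_single, List.map_nil, Finset.sum_const, Finset.card_range]
    ext l
    simp

end Pool.Agent.W374.FBS
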