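import Pool.Agent.W435.FB.Defs

/-!
# FBS-1: Eulerian rearrangement
-/

set_option autoImplicit false

namespace Pool.Agent.W374.FBS

open Relation Pool.Agent.W435.FB

/-- multiset of adjacent pairs -/
def adjm (w : List ℕ) : Multiset (ℕ × ℕ) := (adj w : Multiset (ℕ × ℕ))

@[simp] theorem adj_single (x : ℕ) : adj [x] = [] := rfl
@[simp] theorem adj_nil : adj [] = [] := rfl
@[simp] theorem adj_cons_cons (x y : ℕ) (l : List ℕ) : adj (x :: y :: l) = (x, y) :: adj (y :: l) :=
  rfl

theorem adj_append (p : List ℕ) (x : ℕ) (s : List ℕ) :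
    adj (p ++ x :: s) = adj (p ++ [x]) ++ adj (x :: s) := by
  induction p with
  | nil => simp
  | cons a p ih =>
    rcases p with _ | ⟨b, p⟩
    · simp
    · have := ih
      simp only [List.cons_append, adj_cons_cons] at this ⊢
      rw [this]

theorem adjm_split (z : ℕ) (p : List ℕ) (x : ℕ) (s : List ℕ) :
    adjm (z :: (p ++ x :: s)) = adjm (z :: (p ++ [x])) + adjm (x :: s) := by
  unfold adjm
  rw [← List.cons_append, adj_append, List.cons_append, ← Multiset.coe_add]

theorem mem_adj {x y : ℕ} {w : List ℕ} : (x, y) ∈ adj w ↔ ∃ p s, w = p ++ x :: y :: s := by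
  constructor
  · intro h
    induction w with
    | nil => simp at h
    | cons a w ih =>
      rcases w with _ | ⟨b, w⟩
      · simp at h
      · rw [adj_cons_cons, List.mem_cons] at h
        rcases h with h | h
        · rw [Prod.mk.injEq] at h
          exact ⟨[], w, by simp [h.1, h.2]⟩
        · obtain ⟨p, s, hps⟩ := ih h
          exact ⟨a :: p, s, by rw [hps]; rfl⟩
  · rintro ⟨p, s, rfl⟩
    rw [adj_append]
    simp

theorem mem_left {a b : ℕ} {z : ℕ} {p : List ℕ} (h : (a, b) ∈ adj (p ++ [z])) : a ∈ p := by
  obtain ⟨q, s, hq⟩ := mem_adj.1 h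
  have : p ++ [z] = (q ++ [a]) ++ (b :: s) := by rw [hq]; simp
  rcases List.eq_nil_or_concat (b :: s) with h1 | ⟨s', t, h1⟩
  · simp at h1
  · rw [h1, List.concat_eq_append, ← List.append_assoc] at this
    have := (List.append_inj' this rfl).1
    rw [this]
    simp

theorem mem_right {a b : ℕ} {w : List ℕ} (h : (a, b) ∈ adj w) : b ∈ w := by
  obtain ⟨q, s, hq⟩ := mem_adj.1 h
  rw [hq]; simp

theorem mem_fst {a b : ℕ} {w : List ℕ} (h : (a, b) ∈ adj w) : a ∈ w := by
  obtain ⟨q, s, hq⟩ := mem_adj.1 h
  rw [hq]; simp

theorem closed_mem (V : ℕ → Prop) (w : List ℕ) : ∀ y, V y →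
    (∀ a b, (a, b) ∈ adj (y :: w) → V a → V b) → ∀ z ∈ y :: w, V z := by
  induction w with
  | nil =>
    intro y hy _ z hz
    rw [List.mem_singleton] at hz
    exact hz ▸ hy
  | cons a w ih =>
    intro y hy h z hz
    rw [List.mem_cons] at hz
    rcases hz with rfl | hz
    · exact hy
    · refine ih a (h y a (by simp) hy) (fun c d hcd hc => h c d ?_ hc) z hz
      rw [adj_cons_cons]
      exact List.mem_cons_of_mem _ hcd

theorem val_nil {T : Type} [Semigroup T] (f : ℕ → T) : val f [] = 1 := rfl

theorem val_cons {T : Type} [Semigroup T] (f : ℕ → T) (x : ℕ) (w : List ℕ) :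
    val f (x :: w) = (f x : WithOne T) * val f w := by
  simp [val]

theorem val_append {T : Type} [Semigroup T] (f : ℕ → T) (u w : List ℕ) :
    val f (u ++ w) = val f u * val f w := by
  simp [val]

theorem head_lem {y z : ℕ} {C C1 C2 : List ℕ} (h : y :: C = C1 ++ z :: C2) (R : List ℕ) :
    ∃ W, C1 ++ z :: R = y :: W := by
  rcases C1 with _ | ⟨c, C1⟩
  · simp only [List.nil_append, List.cons.injEq] at h
    exact ⟨R, by simp [h.1]⟩
  · simp only [List.cons_append, List.cons.injEq] at h
    exact ⟨C1 ++ z :: R, by simp [h.1]⟩

theorem euler_aux (n : ℕ) (T : Type) [Semigroup T] (hS : SchA n T) (f : ℕ → T) (N : ℕ) :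
    ∀ (x : ℕ) (u v : List ℕ), u.length = N → adjm (x :: u) = adjm (x :: v) →
      val f (x :: u) = val f (x :: v) := by
  induction N with
  | zero =>
    intro x u v hu h
    have hu' : u = [] := List.length_eq_zero_iff.1 hu
    subst hu'
    rcases v with _ | ⟨y, v⟩
    · rfl
    · have := congrArg Multiset.card h
      simp [adjm] at this
  | succ N ih =>
    intro x u v hu h
    rcases v with _ | ⟨y2, v⟩
    · rcases u with _ | ⟨y1, u⟩
      · rfl
      · have := congrArg Multiset.card h
        simp [adjm] at this
    -- it suffices to find a word beginning with x, y2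
    have key : ∀ W, val f (x :: u) = val f (x :: y2 :: W) → adjm (x :: u) = adjm (x :: y2 :: W) →
        val f (x :: u) = val f (x :: y2 :: v) := by
      intro W h1 h2
      rw [h1, val_cons, val_cons f x (y2 :: v)]
      congr 1
      refine ih y2 W v ?_ ?_
      · have := congrArg Multiset.card h2
        simp only [adjm, Multiset.coe_card, adj, List.length_zip, List.tail_cons,
          List.length_cons] at this
        omega
      · rw [h2] at h
        unfold adjm at h ⊢
        rw [adj_cons_cons, adj_cons_cons x y2 v, ← Multiset.cons_coe, ← Multiset.cons_coe] at h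
        exact (Multiset.cons_inj_right _).1 h
    rcases u with _ | ⟨y1, u⟩
    · simp at hu
    by_cases hy : y1 = y2
    · subst hy
      exact key u rfl rfl
    have hx2 : (x, y2) ∈ adj (y1 :: u) := by
      have : (x, y2) ∈ adjm (x :: y2 :: v) := by simp [adjm]
      rw [← h] at this
      simp only [adjm, adj_cons_cons, Multiset.mem_coe, List.mem_cons, Prod.mk.injEq] at this
      rcases this with h1 | h1
      · exact absurd h1.2.symm hy
      · exact h1
    obtain ⟨A, C, hAC⟩ := mem_adj.1 hx2
    rw [hAC] at h key ⊢
    by_cases hxC : x ∈ y2 :: C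
    · obtain ⟨C1, C2, hC⟩ := List.append_of_mem hxC
      obtain ⟨W, hW⟩ := head_lem hC (A ++ x :: C2)
      refine key W ?_ ?_
      · rw [← hW, hC]
        simp only [val_append, val_cons]
        have := hS.s1 (f x) (val f A) (val f C1)
        calc (f x : WithOne T) * (val f A * (f x * (val f C1 * (f x * val f C2))))
            = ((f x : WithOne T) * val f A * f x * val f C1 * f x) * val f C2 := by
              simp only [mul_assoc]
          _ = _ := by rw [this]; simp only [mul_assoc]
      · rw [← hW, hC]
        rw [adjm_split x A x (C1 ++ x :: C2), adjm_split x C1 x C2,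
          adjm_split x C1 x (A ++ x :: C2), adjm_split x A x C2]
        ac_rfl
    · -- a common letter
      have hw : ∃ w, w ∈ A ∧ w ∈ y2 :: C := by
        by_contra hno
        push Not at hno
        have hcl : ∀ a b, (a, b) ∈ adj (x :: (A ++ x :: y2 :: C)) → a ∈ y2 :: C → b ∈ y2 :: C := by
          intro a b hab ha
          rw [← List.cons_append, adj_append, List.mem_append] at hab
          rcases hab with hab | hab
          · have := mem_left hab
            rw [List.mem_cons] at this
            rcases this with rfl | h1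
            · exact absurd ha hxC
            · exact absurd ha (hno a h1)
          · rw [adj_cons_cons, List.mem_cons] at hab
            rcases hab with hab | hab
            · rw [Prod.mk.injEq] at hab
              exact absurd (hab.1 ▸ ha) hxC
            · exact mem_right hab
        have hcl' : ∀ a b, (a, b) ∈ adj (x :: y2 :: v) → a ∈ y2 :: C → b ∈ y2 :: C := by
          intro a b hab
          refine hcl a b ?_
          have : (a, b) ∈ adjm (x :: y2 :: v) := hab
          rw [← h] at this
          exact this
        have hall := closed_mem (fun z => z ∈ y2 :: C) v y2 (by simp) (fun a b hab =>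
          hcl' a b (by rw [adj_cons_cons]; exact List.mem_cons_of_mem _ hab))
        have h1 : (x, y1) ∈ adjm (x :: (A ++ x :: y2 :: C)) := by
          rw [← hAC]; simp [adjm]
        rw [h] at h1
        have h2 : (x, y1) ∈ adj (x :: y2 :: v) := h1
        rw [adj_cons_cons, List.mem_cons, Prod.mk.injEq] at h2
        rcases h2 with h2 | h2
        · exact hy h2.2
        · exact hxC (hall x (mem_fst h2))
      obtain ⟨w, hwA, hwC⟩ := hw
      obtain ⟨A1, A2, hA⟩ := List.append_of_mem hwA
      obtain ⟨C1, C2, hC⟩ := List.append_of_mem hwC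
      obtain ⟨W, hW⟩ := head_lem hC (A2 ++ x :: (A1 ++ w :: C2))
      refine key W ?_ ?_
      · rw [← hW, hC, hA]
        simp only [val_append, val_cons]
        have := hS.s2 (f x) (f w) (val f A1) (val f C1) (val f A2)
        calc (f x : WithOne T) * (val f A1 * (f w * val f A2) * (f x * (val f C1 * (f w * val f C2))))
            = ((f x : WithOne T) * val f A1 * f w * val f A2 * f x * val f C1 * f w) * val f C2 := by
              simp only [mul_assoc]
          _ = _ := by rw [this]; simp only [mul_assoc]
      · rw [← hW, hC, hA]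
        have e : A1 ++ w :: A2 ++ x :: (C1 ++ w :: C2) = A1 ++ w :: (A2 ++ x :: (C1 ++ w :: C2)) := by
          simp
        rw [e, adjm_split x A1 w (A2 ++ x :: (C1 ++ w :: C2)),
          adjm_split w A2 x (C1 ++ w :: C2), adjm_split x C1 w C2,
          adjm_split x C1 w (A2 ++ x :: (A1 ++ w :: C2)),
          adjm_split w A2 x (A1 ++ w :: C2), adjm_split x A1 w C2]
        ac_rfl

theorem euler : EulerStmt := by
  intro n T _ hS f x u v h
  exact euler_aux n T hS f u.length x u v rfl (Multiset.coe_eq_coe.2 h)

end Pool.Agent.W374.FBS
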