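import Pool.Agent.W527.PC.Stm

/-! PC-MEMCL: an element of the closure of the group of `p`-th powers. -/

set_option autoImplicit false

open NumberField Pool.Agent.W527.CL Pool.Agent.W527.PC Filter Topology

namespace Pool.Agent.W374.PCMEMCL

section

variable {K : Type} [Field K] [NumberField K] (D : FieldData K)

theorem G_nsmul (σ : Equiv.Perm (Fin 5)) (n : ℕ) (Y : Matrix (Fin 4) (Fin 5) ℤ) :
    G D σ (n • Y) = G D σ Y ^ n := by
  induction n with
  | zero => rw [zero_smul, G_zero, pow_zero]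
  | succ n ih => rw [succ_nsmul, G_add, ih, pow_succ]

theorem exists_Y (p : ℕ) [Fact p.Prime] (s s0 : Fin 5 → ℤ) (h : ∀ j, (p : ℤ) ∣ s j - s0 j) :
    ∃ Y ∈ USym, tens s0 = tens s + p • Y := by
  have hd : ∀ (i : Fin 4) (j : Fin 5), (p : ℤ) ∣ tens s0 i j - tens s i j := by
    intro i j
    obtain ⟨a, ha⟩ := h i.castSucc
    obtain ⟨b, hb⟩ := h j
    refine ⟨-(a * s0 j + s i.castSucc * b), ?_⟩
    unfold tens
    have h1 : s0 i.castSucc = s i.castSucc - p * a := by linarith
    have h2 : s j = s0 j + p * b := by linarith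
    rw [h1, h2]
    ring
  choose Y hY using hd
  have hp : (p : ℤ) ≠ 0 := by
    exact_mod_cast (Fact.out : p.Prime).ne_zero
  refine ⟨Matrix.of Y, ?_, ?_⟩
  · intro i j
    change Y i j.castSucc = Y j i.castSucc
    apply mul_left_cancel₀ hp
    rw [← hY, ← hY]
    unfold tens
    ring
  · ext i j
    change tens s0 i j = tens s i j + (p • Matrix.of Y) i j
    rw [Matrix.smul_apply, Matrix.of_apply, nsmul_eq_mul]
    have := hY i j
    linarith

end

theorem t_MEMCL : S_MEMCL := by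
  intro K _ _ D p _ _ σ s0 hs
  choose s hs1 hs2 using hs
  have hY : ∀ n, ∃ Y ∈ USym, tens s0 = tens (s n) + p • Y := fun n =>
    exists_Y p (s n) s0 (hs1 n)
  choose Y hYU hYe using hY
  have h1 : ∀ n, embp K p (G D σ (Y n)) ^ p =
      embp K p (G D σ (tens s0)) * (embp K p (G D σ (tens (s n))))⁻¹ := by
    intro n
    rw [hYe n, G_add, G_nsmul, map_mul, map_pow, mul_comm (embp K p (G D σ (tens (s n)))),
      mul_assoc, mul_inv_cancel, mul_one]
  have hp1 : (1 : ℝ) < p := by
    exact_mod_cast (Fact.out : p.Prime).one_lt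
  have h2 : Tendsto (fun n => embp K p (G D σ (tens (s n)))) atTop (𝓝 1) := by
    rw [tendsto_pi_nhds]
    intro φ
    rw [Units.isEmbedding_val₀.tendsto_nhds_iff]
    have h3 : Tendsto (fun n : ℕ => (p : ℝ) ^ (-(n : ℤ))) atTop (𝓝 0) := by
      have h4 : Tendsto (fun n : ℕ => ((p : ℝ)⁻¹) ^ n) atTop (𝓝 0) :=
        tendsto_pow_atTop_nhds_zero_of_lt_one (by positivity) (inv_lt_one_of_one_lt₀ hp1)
      refine h4.congr fun n => ?_
      rw [zpow_neg, zpow_natCast, inv_pow]
    rw [tendsto_iff_norm_sub_tendsto_zero]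
    refine squeeze_zero (fun n => norm_nonneg _) (fun n => ?_) h3
    exact hs2 n φ
  have h3 : Tendsto (fun n => embp K p (G D σ (Y n)) ^ p) atTop
      (𝓝 (embp K p (G D σ (tens s0)))) := by
    have h4 : Tendsto (fun n => embp K p (G D σ (tens s0)) *
        (embp K p (G D σ (tens (s n))))⁻¹) atTop (𝓝 (embp K p (G D σ (tens s0)) * 1⁻¹)) :=
      tendsto_const_nhds.mul h2.inv
    rw [inv_one, mul_one] at h4
    exact h4.congr fun n => (h1 n).symm
  refine mem_closure_of_tendsto h3 (Eventually.of_forall fun n => ?_)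
  exact ⟨G D σ (Y n), ⟨Y n, hYU n, rfl⟩, rfl⟩

end Pool.Agent.W374.PCMEMCL
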