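import Pool.Agent.H547R7.T_PRJ

/-!
# Task DUA: dual gate sets
-/

set_option autoImplicit false

namespace Pool.Agent.W374.PRG

open Pool.Agent.H547R7 Pool.Agent.H547R6 Pool.Agent.NPC Pool.Agent.H424R2.PPAD

/-- the dual function -/
def DU {n : ℕ} (f : BF n) : BF n := fun x => !f fun i => !x i

theorem DU_DU {n : ℕ} (f : BF n) : DU (DU f) = f := by
  funext x; simp [DU]

theorem avail_dual {n : ℕ} {l : List (BF n)} {f : BF n} (h : Avail l f) :
    Avail (l.map DU) (DU f) := by
  rcases h with h | ⟨i, rfl⟩
  · exact Or.inl (List.mem_map_of_mem h)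
  · refine Or.inr ⟨i, ?_⟩
    funext x; simp [DU]

theorem gates_dual {B : Set BFun} {n : ℕ} {l : List (BF n)} (h : Gates (dualB B) n l) :
    Gates B n (l.map DU) := by
  induction h with
  | nil => exact Gates.nil
  | gate l k f g hf hg hl ih =>
    have hf' : (⟨k, fun x => !f (fun i => !x i)⟩ : BFun) ∈ B := hf
    have := Gates.gate (B := B) (l.map DU) k (fun x => !f (fun i => !x i)) (fun j => DU (g j)) hf'
      (fun j => avail_dual (hg j)) ih
    rw [List.map_cons]
    convert this using 2
    funext x
    simp [DU]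

theorem computes_dual {B : Set BFun} {n s : ℕ} {C : BF n} (h : Computes (dualB B) n s C) :
    Computes B n s (DU C) := by
  obtain ⟨l, h1, h2, h3⟩ := h
  exact ⟨l.map DU, gates_dual h1, by simpa using h2, avail_dual h3⟩

theorem pr_not {Ω : Type} [Fintype Ω] [Nonempty Ω] (p : Ω → Bool) :
    pr (fun x => !p x) = 1 - pr p := by
  unfold pr
  have hN : (0 : ℝ) < Fintype.card Ω := by exact_mod_cast Fintype.card_pos
  rw [eq_sub_iff_add_eq, ← add_div, div_eq_one_iff_eq hN.ne']
  have h6 := Finset.card_filter_add_card_filter_not (s := (Finset.univ : Finset Ω))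
    (fun z => p z = true)
  have h7 : (Finset.univ.filter fun z : Ω => (!p z) = true) =
      Finset.univ.filter fun z => ¬ (p z = true) := by
    ext z; simp
  rw [h7]
  rw [← Finset.card_univ, add_comm]
  exact_mod_cast h6

/-- complementing all coordinates -/
def negE (n : ℕ) : (Fin n → Bool) ≃ (Fin n → Bool) where
  toFun x := fun i => !x i
  invFun x := fun i => !x i
  left_inv x := by funext i; simp
  right_inv x := by funext i; simp

theorem pr_neg {n : ℕ} (C : BF n) : pr (fun x : Fin n → Bool => C (fun i => !x i)) = pr C :=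
  PRJ_equiv (negE n) C

theorem vec_not {m : ℕ} {l : List Bool} (h : l.length = m) :
    vec m (l.map not) = fun i => !vec m l i := by
  funext i
  unfold vec
  have hi : i.val < l.length := by rw [h]; exact i.2
  rw [List.getD_eq_getElem _ _ (by simpa using hi), List.getD_eq_getElem _ _ hi]
  simp

theorem t_DUA : S_DUA := by
  intro B ε h
  obtain ⟨d, G, hd, hG, c, m₀, H⟩ := h
  refine ⟨d, fun m s => (G m s).map not, hd, ?_, c, m₀, ?_⟩
  · refine PTime.of_poly ?_
    exact NPC.Poly.map (F := fun _ b => !b) hG.toPoly (NPC.Poly.not (NPC.Poly.snd NPC.Poly.id))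
  · intro m hm
    obtain ⟨h1, h2, h3, h4⟩ := H m hm
    refine ⟨h1, h2, fun s hs => by simpa using h3 s hs, fun C hC => ?_⟩
    have hC' : DU C ∈ TB B m := computes_dual hC
    have h5 := h4 (DU C) hC'
    have e1 : (fun s : Fin (d m) → Bool => C (vec m ((G m (List.ofFn s)).map not))) =
        fun s => !(DU C (vec m (G m (List.ofFn s)))) := by
      funext s
      rw [vec_not (h3 _ (by simp))]
      simp [DU]
    have e2 : pr (DU C) = 1 - pr C := by
      unfold DU
      rw [pr_not, pr_neg]
    rw [e1, pr_not]
    rw [e2] at h5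
    rw [abs_sub_comm] at h5
    convert h5 using 2
    ring

end Pool.Agent.W374.PRG
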