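import Pool.Agent.H547R7.T_PRJ

/-!
# Task L0: stretching the size of the circuits; task L3: finite gate sets
-/

set_option autoImplicit false

namespace Pool.Agent.W374.PRG

open Pool.Agent.H547R7 Pool.Agent.H547R6 Pool.Agent.NPC Pool.Agent.H424R2.PPAD

/-- the function on the first coordinates -/
def lft {n N : ℕ} (h : n ≤ N) (f : BF n) : BF N := fun y => f (fun i => y (Fin.castLE h i))

theorem avail_lft {n N : ℕ} (h : n ≤ N) {l : List (BF n)} {f : BF n} (ha : Avail l f) :
    Avail (l.map (lft h)) (lft h f) := by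
  rcases ha with ha | ⟨i, rfl⟩
  · exact Or.inl (List.mem_map_of_mem ha)
  · exact Or.inr ⟨Fin.castLE h i, rfl⟩

theorem aon_lft {n N : ℕ} (h : n ≤ N) {s : ℕ} {l : List (BF n)} (ha : AON n s l) :
    AON N s (l.map (lft h)) := by
  induction ha with
  | nil => exact AON.nil
  | not s l a _ ha ih => exact AON.not s _ _ ih (avail_lft h ha)
  | and s l a b _ ha hb ih => exact AON.and s _ _ _ ih (avail_lft h ha) (avail_lft h hb)
  | or s l a b _ ha hb ih => exact AON.or s _ _ _ ih (avail_lft h ha) (avail_lft h hb)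

theorem comp0_lft {n N : ℕ} (h : n ≤ N) {s : ℕ} {C : BF n} (ha : Comp0 n s C) :
    Comp0 N s (lft h C) := by
  obtain ⟨l, s', h1, h2, h3⟩ := ha
  exact ⟨l.map (lft h), s', aon_lft h h1, h2, avail_lft h h3⟩

theorem comp0_mono {n s s' : ℕ} {C : BF n} (h : Comp0 n s C) (hs : s ≤ s') : Comp0 n s' C := by
  obtain ⟨l, t, h1, h2, h3⟩ := h
  exact ⟨l, t, h1, h2.trans hs, h3⟩

theorem sq_le_two_pow (L : ℕ) (h : 4 ≤ L) : L * L ≤ 2 ^ L := by
  induction L, h using Nat.le_induction with
  | base => norm_num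
  | succ n hn ih =>
    rw [pow_succ]
    nlinarith

/-- logarithms are small -/
theorem log_small (K m : ℕ) (h : 2 ^ (K + 5) ≤ m) : K * Nat.log 2 m < m := by
  have h1 : K + 5 ≤ Nat.log 2 m := by
    rw [← Nat.log_pow (b := 2) (by norm_num) (K + 5)]
    exact Nat.log_mono_right h
  have hm : m ≠ 0 := by
    have := Nat.two_pow_pos (K + 5)
    omega
  have h2 : 2 ^ Nat.log 2 m ≤ m := Nat.pow_log_le_self 2 hm
  have h3 := sq_le_two_pow (Nat.log 2 m) (by omega)
  calc K * Nat.log 2 m < Nat.log 2 m * Nat.log 2 m := by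
        apply Nat.mul_lt_mul_of_pos_right <;> omega
    _ ≤ 2 ^ Nat.log 2 m := h3
    _ ≤ m := h2

theorem log_pow_le (k m : ℕ) (hm : 2 ≤ m) : Nat.log 2 (m ^ k) ≤ 2 * k * Nat.log 2 m := by
  have h1 : 1 ≤ Nat.log 2 m := by
    exact Nat.log_pos (by norm_num) hm
  have h2 : m < 2 ^ (Nat.log 2 m + 1) := Nat.lt_pow_succ_log_self (by norm_num) m
  have h3 : m ^ k ≤ 2 ^ (k * (Nat.log 2 m + 1)) := by
    rw [mul_comm, pow_mul]
    exact Nat.pow_le_pow_left h2.le k
  calc Nat.log 2 (m ^ k) ≤ Nat.log 2 (2 ^ (k * (Nat.log 2 m + 1))) := Nat.log_mono_right h3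
    _ = k * (Nat.log 2 m + 1) := Nat.log_pow (by norm_num) _
    _ ≤ 2 * k * Nat.log 2 m := by nlinarith

theorem uPow {α : Type} [TEnc α] {n : α → ℕ} (hn : UPoly n) (k : ℕ) :
    UPoly (fun a => (n a) ^ k) := by
  have := hn.eval (Polynomial.X ^ k)
  simpa using this

/-- unary numbers as bit strings -/
theorem poly_rep {α : Type} [TEnc α] {n : α → ℕ} (hn : UPoly n) :
    NPC.Poly (fun a => List.replicate (n a) false) :=
  (NPC.Poly.map (F := fun _ _ => false) hn (NPC.Poly.const false)).congr fun a => by simp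

theorem vec_map {m : ℕ} (f : ℕ → Bool) (i : Fin m) :
    vec m ((List.range m).map f) i = f i := by
  unfold vec
  have hi : i.val < ((List.range m).map f).length := by simp
  rw [List.getD_eq_getElem _ _ hi]
  simp

theorem t_L0 : S_L0 := by
  intro k ε hk h
  obtain ⟨d, G, hd, hG, c, m₀, H⟩ := h
  refine ⟨fun m => d (m ^ k), fun m s => (List.range m).map fun i => (G (m ^ k) s).getD i false,
    ?_, ?_, c * (2 * k), max m₀ (2 ^ (c * (2 * k) + 5)), ?_⟩
  · refine PTime.of_poly ?_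
    have h1 : NPC.Poly (fun u : List Bool => List.replicate (u.length ^ k) false) :=
      poly_rep (uPow (UPoly.length NPC.Poly.id) k)
    exact (NPC.Poly.comp hd.toPoly h1).congr fun a => by simp
  · refine PTime.of_poly ?_
    have h1 : NPC.Poly (fun q : (List Bool × List Bool) × ℕ =>
        (List.replicate (q.1.1.length ^ k) false, q.1.2)) :=
      NPC.Poly.pair (poly_rep (uPow (UPoly.length (NPC.Poly.fst (NPC.Poly.fst NPC.Poly.id))) k))
        (NPC.Poly.snd (NPC.Poly.fst NPC.Poly.id))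
    have h2 : NPC.Poly (fun q : (List Bool × List Bool) × ℕ =>
        G (q.1.1.length ^ k) q.1.2) :=
      (NPC.Poly.comp hG.toPoly h1).congr fun a => by simp
    have h3 : NPC.Poly (fun q : (List Bool × List Bool) × ℕ =>
        (G (q.1.1.length ^ k) q.1.2).getD q.2 false) :=
      NPC.Poly.getD h2 (NPC.Poly.snd NPC.Poly.id) (NPC.Poly.const false)
    exact NPC.Poly.map (l := fun p : List Bool × List Bool => List.range p.1.length)
      (F := fun p i => (G (p.1.length ^ k) p.2).getD i false)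
      ((UPoly.length (NPC.Poly.fst NPC.Poly.id)).range) h3
  · intro m hm
    have hm0 : m₀ ≤ m := (le_max_left _ _).trans hm
    have hm1 : 2 ^ (c * (2 * k) + 5) ≤ m := (le_max_right _ _).trans hm
    have hm2 : 2 ≤ m := by
      have : 2 ^ 1 ≤ 2 ^ (c * (2 * k) + 5) := Nat.pow_le_pow_right (by norm_num) (by omega)
      omega
    have hmk : m ≤ m ^ k := Nat.le_self_pow (by omega) m
    obtain ⟨h1, h2, h3, h4⟩ := H (m ^ k) (hm0.trans hmk)
    have h5 : d (m ^ k) ≤ c * (2 * k) * Nat.log 2 m := by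
      calc d (m ^ k) ≤ c * Nat.log 2 (m ^ k) := h1
        _ ≤ c * (2 * k * Nat.log 2 m) := Nat.mul_le_mul_left _ (log_pow_le k m hm2)
        _ = c * (2 * k) * Nat.log 2 m := by ring
    refine ⟨h5, h5.trans_lt (log_small _ _ hm1), fun s _ => by simp, fun C hC => ?_⟩
    have hC' : lft hmk C ∈ T0 1 (m ^ k) := by
      change Comp0 (m ^ k) ((m ^ k) ^ 1) (lft hmk C)
      rw [pow_one]
      exact comp0_lft hmk hC
    have h6 := h4 _ hC'
    have e1 : pr (lft hmk C) = pr C := t_PRJ.1 m (m ^ k) hmk C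
    rw [e1] at h6
    convert h6 using 5
    rename_i s
    unfold lft
    congr 1
    funext i
    rw [vec_map]
    rfl

theorem t_L3 (ho : S_ORG) (h0 : S_L0) : S_L3 := by
  intro B ε hB h
  obtain ⟨c, hc⟩ := ho B hB
  obtain ⟨d, G, hd, hG, c', m₀, H⟩ := h0 2 ε (by norm_num) h
  refine ⟨d, G, hd, hG, c', max m₀ (c + 1), fun m hm => ?_⟩
  have hm0 : m₀ ≤ m := (le_max_left _ _).trans hm
  have hm1 : c + 1 ≤ m := (le_max_right _ _).trans hm
  obtain ⟨h1, h2, h3, h4⟩ := H m hm0
  refine ⟨h1, h2, h3, fun C hC => h4 C ?_⟩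
  have h5 : Comp0 m (c * m) C := hc m m C (by omega) hC
  exact comp0_mono h5 (by rw [pow_two]; exact Nat.mul_le_mul_right _ (by omega))

end Pool.Agent.W374.PRG
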