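import Pool.Agent.W376.RT.Stm

/-!
# The finite Bollobas-Erdos configuration
-/

namespace Pool.Agent.W374.RTA4
open Filter Pool.Agent.W376.RT

section basics
variable {h : ℕ}

theorem finite_ball (h : ℕ) (B : ℝ) : {x : Fin h → ℤ | (ns x : ℝ) ≤ B}.Finite := by
  obtain ⟨n, hn⟩ := exists_nat_ge B
  refine (Set.finite_Icc (fun _ : Fin h => -(n:ℤ)) (fun _ => (n:ℤ))).subset ?_
  intro x hx
  have h0 : (ns x : ℝ) ≤ n := le_trans hx hn
  have h1 : ns x ≤ n := by exact_mod_cast h0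
  have h2 : ∀ i, x i ^ 2 ≤ n := fun i =>
    (Finset.single_le_sum (f := fun i => x i ^ 2) (fun i _ => sq_nonneg _)
      (Finset.mem_univ i)).trans h1
  constructor
  · intro i
    have := Int.le_self_sq (- x i)
    have h3 := h2 i
    change -(n:ℤ) ≤ x i
    nlinarith
  · intro i
    have := Int.le_self_sq (x i)
    have h3 := h2 i
    change x i ≤ (n:ℤ)
    nlinarith

theorem cnt_mono {r r' : ℝ} (h0 : 0 ≤ r) (h1 : r ≤ r') : cnt h r ≤ cnt h r' := by
  refine Set.ncard_le_ncard ?_ (finite_ball h _)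
  intro x hx
  have h2 : r ^ 2 ≤ r' ^ 2 := by gcongr
  exact le_trans (show (ns x : ℝ) ≤ r ^ 2 from hx) h2

theorem ns_nonneg (x : Fin h → ℤ) : 0 ≤ ns x := Finset.sum_nonneg fun _ _ => sq_nonneg _

theorem cs (x y : Fin h → ℤ) : ip x y ^ 2 ≤ ns x * ns y :=
  Finset.sum_mul_sq_le_sq_mul_sq _ _ _

theorem ip_add_add (a a' b b' : Fin h → ℤ) :
    ip (a + a') (b + b') = ip a b + ip a b' + ip a' b + ip a' b' := by
  unfold ip
  rw [← Finset.sum_add_distrib, ← Finset.sum_add_distrib, ← Finset.sum_add_distrib]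
  refine Finset.sum_congr rfl fun i _ => ?_
  simp only [Pi.add_apply]
  ring

theorem ip_neg (x y : Fin h → ℤ) : ip x (-y) = - ip x y := by
  unfold ip
  rw [← Finset.sum_neg_distrib]
  refine Finset.sum_congr rfl fun i _ => ?_
  simp only [Pi.neg_apply]
  ring

theorem ns_neg (x : Fin h → ℤ) : ns (-x) = ns x := by
  unfold ns
  refine Finset.sum_congr rfl fun i _ => ?_
  simp only [Pi.neg_apply]
  ring

theorem ip_comm (x y : Fin h → ℤ) : ip x y = ip y x := by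
  unfold ip
  exact Finset.sum_congr rfl fun i _ => mul_comm _ _

theorem ns_tri (x y z : Fin h → ℤ) :
    4 * ns x ≤ 3 * (ns (x + y) + ns (x + z) + ns (y + z)) := by
  unfold ns
  rw [← Finset.sum_add_distrib, ← Finset.sum_add_distrib, Finset.mul_sum, Finset.mul_sum]
  refine Finset.sum_le_sum fun i _ => ?_
  simp only [Pi.add_apply]
  nlinarith [sq_nonneg ((x i + y i) - (x i + z i)), sq_nonneg ((x i + y i) + (y i + z i)),
    sq_nonneg ((x i + z i) + (y i + z i))]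

end basics

/-- the configuration in the lattice -/
theorem config {h : ℕ} {R s η : ℝ} (hh : 0 < h) (hR : 0 < R) (hs : 1 ≤ s)
    (hs9 : 9 * s ^ 2 ≤ h) (P : Set (Fin h → ℤ))
    (hP : P = {x | R ^ 2 ≤ 4 * (ns x : ℝ) ∧ (ns x : ℝ) ≤ R ^ 2})
    (hM : 0 < P.ncard)
    (hind : ∀ A : Set (Fin h → ℤ), A ⊆ P →
      (∀ a ∈ A, ∀ b ∈ A, s ^ 2 * R ^ 2 / h ≤ (ns (a + b) : ℝ)) → (A.ncard : ℝ) ≤ η * P.ncard)
    (hslab : ∀ x ∈ P, ({y : Fin h → ℤ | (ns y : ℝ) ≤ R ^ 2 ∧
      4 * |(ip x y : ℝ)| < s ^ 2 * R ^ 2 / h}.ncard : ℝ) ≤ 2 * η * P.ncard) :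
    ∃ M : ℕ, 0 < M ∧ ∃ T H : Fin M → Fin M → Prop,
  (∀ a b, T a b → T b a) ∧ (∀ a b, H a b → H b a) ∧
  (∀ a b c, T a b → T b c → T a c → False) ∧
  (∀ a a' b b', T a a' → T b b' → H a b → H a b' → H a' b → H a' b' → False) ∧
  (∀ A : Set (Fin M), (∀ a ∈ A, ∀ b ∈ A, ¬ T a b) → (A.ncard : ℝ) ≤ η * M) ∧
  (∀ a, (1 / 2 - η) * M ≤ ({b | H a b}.ncard : ℝ) ∧ ({b | H a b}.ncard : ℝ) ≤ M / 2) := by
  have hPfin : P.Finite := by
    rw [hP]
    exact (finite_ball h (R ^ 2)).subset fun x hx => hx.2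
  have hhR : (0 : ℝ) < h := by exact_mod_cast hh
  have := hPfin.to_subtype
  set σ2 : ℝ := s ^ 2 * R ^ 2 / h with hσ2
  have hσ0 : 0 < σ2 := by positivity
  let e : P ≃ Fin P.ncard := (Finite.equivFin P).trans (finCongr (Nat.card_coe_set_eq P))
  let v : Fin P.ncard → (Fin h → ℤ) := fun a => (e.symm a : Fin h → ℤ)
  have hv : ∀ a, v a ∈ P := fun a => (e.symm a).2
  have hvinj : Function.Injective v := fun a b hab => e.symm.injective (Subtype.ext hab)
  have hvP : ∀ x ∈ P, ∃ a, v a = x := fun x hx => ⟨e ⟨x, hx⟩, by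
    change ((e.symm (e ⟨x, hx⟩) : P) : Fin h → ℤ) = x
    rw [e.symm_apply_apply]⟩
  refine ⟨P.ncard, hM, fun a b => (ns (v a + v b) : ℝ) < σ2, fun a b => σ2 ≤ 4 * (ip (v a) (v b) : ℝ),
    ?_, ?_, ?_, ?_, ?_, ?_⟩
  · intro a b hab
    rw [add_comm]
    exact hab
  · intro a b hab
    rw [ip_comm]
    exact hab
  · intro a b c h1 h2 h3
    have ha := hv a
    rw [hP] at ha
    have h4 : (4 * ns (v a) : ℝ) ≤ 3 * (ns (v a + v b) + ns (v a + v c) + ns (v b + v c)) := by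
      exact_mod_cast ns_tri (v a) (v b) (v c)
    have h5 : 9 * σ2 ≤ R ^ 2 := by
      rw [hσ2, ← mul_div_assoc, div_le_iff₀ hhR]
      nlinarith [sq_nonneg R]
    have h6 := ha.1
    linarith
  · intro a a' b b' h1 h2 h3 h4 h5 h6
    have e1 : (ip (v a + v a') (v b + v b') : ℝ) =
        ip (v a) (v b) + ip (v a) (v b') + ip (v a') (v b) + ip (v a') (v b') := by
      exact_mod_cast ip_add_add (v a) (v a') (v b) (v b')
    have e2 : σ2 ≤ (ip (v a + v a') (v b + v b') : ℝ) := by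
      rw [e1]
      linarith
    have e3 : (ip (v a + v a') (v b + v b') : ℝ) ^ 2 ≤ ns (v a + v a') * ns (v b + v b') := by
      exact_mod_cast cs (v a + v a') (v b + v b')
    have n1 : (0 : ℝ) ≤ ns (v a + v a') := by exact_mod_cast ns_nonneg _
    have n2 : (0 : ℝ) ≤ ns (v b + v b') := by exact_mod_cast ns_nonneg _
    have e4 : (ns (v a + v a') : ℝ) * ns (v b + v b') < σ2 * σ2 := by
      calc (ns (v a + v a') : ℝ) * ns (v b + v b') ≤ σ2 * ns (v b + v b') :=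
            mul_le_mul_of_nonneg_right h1.le n2
        _ < σ2 * σ2 := mul_lt_mul_of_pos_left h2 hσ0
    nlinarith
  · intro A hA
    have h1 := hind (v '' A) (by rintro _ ⟨a, _, rfl⟩; exact hv a) (by
      rintro _ ⟨a, ha, rfl⟩ _ ⟨b, hb, rfl⟩
      exact not_lt.1 (hA a ha b hb))
    rwa [Set.ncard_image_of_injective _ hvinj] at h1
  · intro a
    have hset : v '' {b | σ2 ≤ 4 * (ip (v a) (v b) : ℝ)} =
        {y | y ∈ P ∧ σ2 ≤ 4 * (ip (v a) y : ℝ)} := by
      ext y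
      constructor
      · rintro ⟨b, hb, rfl⟩
        exact ⟨hv b, hb⟩
      · rintro ⟨hy, hy'⟩
        obtain ⟨b, rfl⟩ := hvP y hy
        exact ⟨b, hy', rfl⟩
    have hcard : {b | σ2 ≤ 4 * (ip (v a) (v b) : ℝ)}.ncard =
        {y | y ∈ P ∧ σ2 ≤ 4 * (ip (v a) y : ℝ)}.ncard := by
      rw [← hset, Set.ncard_image_of_injective _ hvinj]
    rw [hcard]
    set D := {y | y ∈ P ∧ σ2 ≤ 4 * (ip (v a) y : ℝ)} with hD
    set D' := {y | y ∈ P ∧ 4 * (ip (v a) y : ℝ) ≤ -σ2} with hD'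
    set Z := {y | y ∈ P ∧ 4 * |(ip (v a) y : ℝ)| < σ2} with hZ
    have hDD' : D'.ncard = D.ncard := by
      have : D' = (fun y => -y) '' D := by
        ext y
        constructor
        · rintro ⟨hy, hy'⟩
          refine ⟨-y, ⟨?_, ?_⟩, neg_neg y⟩
          · rw [hP] at hy ⊢
            change _ ≤ 4 * ((ns (-y) : ℤ) : ℝ) ∧ ((ns (-y) : ℤ) : ℝ) ≤ _
            rw [ns_neg]
            exact hy
          · rw [ip_neg]
            push_cast
            linarith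
        · rintro ⟨y, ⟨hy, hy'⟩, rfl⟩
          refine ⟨?_, ?_⟩
          · rw [hP] at hy ⊢
            change _ ≤ 4 * ((ns (-y) : ℤ) : ℝ) ∧ ((ns (-y) : ℤ) : ℝ) ≤ _
            rw [ns_neg]
            exact hy
          · rw [ip_neg]
            push_cast
            linarith
      rw [this, Set.ncard_image_of_injective _ neg_injective]
    have hDf : D.Finite := hPfin.subset fun y hy => hy.1
    have hD'f : D'.Finite := hPfin.subset fun y hy => hy.1
    have hZf : Z.Finite := hPfin.subset fun y hy => hy.1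
    have hun : P = (D ∪ D') ∪ Z := by
      ext y
      constructor
      · intro hy
        by_cases c1 : σ2 ≤ 4 * (ip (v a) y : ℝ)
        · exact Or.inl (Or.inl ⟨hy, c1⟩)
        by_cases c2 : 4 * (ip (v a) y : ℝ) ≤ -σ2
        · exact Or.inl (Or.inr ⟨hy, c2⟩)
        · refine Or.inr ⟨hy, ?_⟩
          push Not at c1 c2
          have : |4 * (ip (v a) y : ℝ)| < σ2 := abs_lt.2 ⟨c2, c1⟩
          rwa [abs_mul, abs_of_pos (by norm_num : (0:ℝ) < 4)] at this
      · rintro ((hy | hy) | hy) <;> exact hy.1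
    have hd1 : Disjoint D D' := by
      rw [Set.disjoint_left]
      rintro y ⟨_, h1⟩ ⟨_, h2⟩
      linarith
    have hd2 : Disjoint (D ∪ D') Z := by
      rw [Set.disjoint_left]
      rintro y (⟨_, h1⟩ | ⟨_, h1⟩) ⟨_, h2⟩
      · have := le_abs_self (ip (v a) y : ℝ)
        linarith
      · have := neg_abs_le (ip (v a) y : ℝ)
        linarith
    have hM' : P.ncard = D.ncard + D'.ncard + Z.ncard := by
      conv_lhs => rw [hun]
      rw [Set.ncard_union_eq hd2 (hDf.union hD'f) hZf, Set.ncard_union_eq hd1 hDf hD'f]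
    have hMR : (P.ncard : ℝ) = D.ncard + D'.ncard + Z.ncard := by exact_mod_cast hM'
    have hDR : (D'.ncard : ℝ) = D.ncard := by exact_mod_cast hDD'
    have hZle : (Z.ncard : ℝ) ≤ 2 * η * P.ncard := by
      refine le_trans ?_ (hslab (v a) (hv a))
      have : Z.ncard ≤ {y : Fin h → ℤ | (ns y : ℝ) ≤ R ^ 2 ∧
          4 * |(ip (v a) y : ℝ)| < σ2}.ncard := by
        refine Set.ncard_le_ncard ?_ ((finite_ball h (R ^ 2)).subset fun x hx => hx.1)
        rintro y ⟨hy, hy'⟩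
        rw [hP] at hy
        exact ⟨hy.2, hy'⟩
      exact_mod_cast this
    have hZ0 : (0 : ℝ) ≤ Z.ncard := Nat.cast_nonneg _
    constructor
    · linarith
    · linarith


/-- radius bound in the Brunn-Minkowski step -/
theorem radius_bound {h : ℕ} {R s : ℝ} (hh : 0 < h) (hs : 1 ≤ s) (hs9 : 9 * s ^ 2 ≤ h)
    (hR : 20 * h * (4 * h + s) ≤ R) :
    √((R + √(h : ℝ)) ^ 2 - (s * R / √(h : ℝ) - 2 * √(h : ℝ)) ^ 2 / 4) + √(h : ℝ) ≤
      √(1 - s ^ 2 / (5 * h)) * R := by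
  have hhR : (1 : ℝ) ≤ h := by exact_mod_cast hh
  have hh0 : (0 : ℝ) < h := by linarith
  set q := √(h : ℝ) with hq
  have hq2 : q * q = h := Real.mul_self_sqrt hh0.le
  have hq0 : 0 < q := Real.sqrt_pos.2 hh0
  have hq1 : 1 ≤ q := by rw [hq]; exact Real.one_le_sqrt.2 hhR
  have hqh : q ≤ h := by nlinarith
  have hs2 : 1 ≤ s ^ 2 := by nlinarith
  have hh9 : (9 : ℝ) ≤ h := by linarith
  have hR0 : 0 < R := by
    have : 0 < 20 * h * (4 * h + s) := by positivity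
    linarith
  set κ := √(1 - s ^ 2 / (5 * h)) with hκ
  have hfrac : s ^ 2 / (5 * h) ≤ 1 / 45 := by
    rw [div_le_div_iff₀ (by positivity) (by norm_num)]
    linarith
  have hfrac0 : 0 ≤ s ^ 2 / (5 * h) := by positivity
  have hκ2 : κ * κ = 1 - s ^ 2 / (5 * h) := Real.mul_self_sqrt (by linarith)
  have hκ0 : 0 ≤ κ := Real.sqrt_nonneg _
  have hκ1 : κ ≤ 1 := by rw [hκ]; exact Real.sqrt_le_one.2 (by linarith)
  have hκh : 1 / 2 ≤ κ := by
    rw [hκ]
    refine Real.le_sqrt_of_sq_le ?_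
    norm_num
    linarith
  have hRq : 2 * q ≤ R := by nlinarith
  have hkR : 0 ≤ κ * R - q := by nlinarith
  have key : (R + q) ^ 2 - (s * R / q - 2 * q) ^ 2 / 4 ≤ (κ * R - q) ^ 2 := by
    have e1 : (s * R / q) ^ 2 = s ^ 2 * R ^ 2 / h := by
      rw [div_pow, mul_pow, sq q, hq2]
    have e2 : s * R / q * q = s * R := div_mul_cancel₀ _ hq0.ne'
    have e3 : (R + q) ^ 2 - (s * R / q - 2 * q) ^ 2 / 4 =
        R ^ 2 + 2 * R * q - s ^ 2 * R ^ 2 / h / 4 + s * R := by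
      have : (s * R / q - 2 * q) ^ 2 = (s * R / q) ^ 2 - 4 * (s * R / q * q) + 4 * (q * q) := by ring
      rw [this, e1, e2]
      nlinarith
    have e4 : (κ * R - q) ^ 2 = (1 - s ^ 2 / (5 * h)) * R ^ 2 - 2 * κ * R * q + h := by
      have : (κ * R - q) ^ 2 = (κ * κ) * R ^ 2 - 2 * κ * R * q + q * q := by ring
      rw [this, hκ2, hq2]
    rw [e3, e4]
    have e5 : s ^ 2 * R ^ 2 / h / 4 - s ^ 2 / (5 * h) * R ^ 2 = s ^ 2 * R ^ 2 / (20 * h) := by
      field_simp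
      ring
    have e6 : 2 * R * q + s * R + 2 * κ * R * q ≤ s ^ 2 * R ^ 2 / (20 * h) := by
      rw [le_div_iff₀ (by positivity)]
      have : 2 * R * q + s * R + 2 * κ * R * q ≤ (4 * h + s) * R := by
        have h1 : κ * R * q ≤ 1 * R * q := by gcongr
        have h2 : R * q ≤ R * h := by gcongr
        nlinarith
      calc (2 * R * q + s * R + 2 * κ * R * q) * (20 * h) ≤ ((4 * h + s) * R) * (20 * h) := by
            gcongr
        _ = (20 * h * (4 * h + s)) * R := by ring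
        _ ≤ R * R := by gcongr
        _ ≤ s ^ 2 * R ^ 2 := by nlinarith [sq_nonneg R]
    linarith
  have : √((R + q) ^ 2 - (s * R / q - 2 * q) ^ 2 / 4) ≤ κ * R - q := by
    rw [← Real.sqrt_sq hkR]
    exact Real.sqrt_le_sqrt key
  linarith

theorem main (h1 : S_BM) (h2 : S_CNT) (h3 : S_SLAB) : S_BE := by
  intro η0 hη0
  -- reduce to eta <= 1
  set η := min η0 1 with hη
  have hηpos : 0 < η := lt_min hη0 one_pos
  have hηle : η ≤ η0 := min_le_left _ _
  have hη1 : η ≤ 1 := min_le_right _ _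
  suffices hmain : ∃ M : ℕ, 0 < M ∧ ∃ T H : Fin M → Fin M → Prop,
      (∀ a b, T a b → T b a) ∧ (∀ a b, H a b → H b a) ∧
      (∀ a b c, T a b → T b c → T a c → False) ∧
      (∀ a a' b b', T a a' → T b b' → H a b → H a b' → H a' b → H a' b' → False) ∧
      (∀ A : Set (Fin M), (∀ a ∈ A, ∀ b ∈ A, ¬ T a b) → (A.ncard : ℝ) ≤ η * M) ∧
      (∀ a, (1 / 2 - η) * M ≤ ({b | H a b}.ncard : ℝ) ∧ ({b | H a b}.ncard : ℝ) ≤ M / 2) by
    obtain ⟨M, hM, T, H, a1, a2, a3, a4, a5, a6⟩ := hmain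
    have hM0 : (0 : ℝ) ≤ M := Nat.cast_nonneg _
    refine ⟨M, hM, T, H, a1, a2, a3, a4, fun A hA => (a5 A hA).trans (by gcongr), fun a => ?_⟩
    refine ⟨le_trans ?_ (a6 a).1, (a6 a).2⟩
    gcongr
  -- parameters
  obtain ⟨s, hs, hsexp⟩ : ∃ s : ℝ, 1 ≤ s ∧ Real.exp (-(s ^ 2 / 10)) ≤ η / 4 := by
    refine ⟨max 1 (10 * Real.log (4 / η)), le_max_left _ _, ?_⟩
    set s := max 1 (10 * Real.log (4 / η)) with hs
    have h1s : 1 ≤ s := le_max_left _ _
    have h2s : 10 * Real.log (4 / η) ≤ s := le_max_right _ _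
    have h3s : Real.log (4 / η) ≤ s ^ 2 / 10 := by nlinarith
    calc Real.exp (-(s ^ 2 / 10)) ≤ Real.exp (-Real.log (4 / η)) := by
          apply Real.exp_le_exp.2; linarith
      _ = η / 4 := by
          rw [Real.exp_neg, Real.exp_log (by positivity), inv_div]
  obtain ⟨J, hJ⟩ := exists_nat_ge (6 / η)
  have hJ6 : 6 ≤ J * η := by rwa [div_le_iff₀ hηpos] at hJ
  have hJ1 : 1 ≤ J := by
    by_contra hc
    have : J = 0 := by omega
    rw [this] at hJ6
    norm_num at hJ6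
  obtain ⟨h, hh⟩ := exists_nat_ge (30 * (J : ℝ) ^ 2 * s ^ 4 + 9 * s ^ 2 + 2)
  have hJR : (1 : ℝ) ≤ J := by exact_mod_cast hJ1
  have hs2 : 1 ≤ s ^ 2 := by nlinarith
  have hJs : 0 ≤ 30 * (J : ℝ) ^ 2 * s ^ 4 := by positivity
  have hh1 : 30 * (J : ℝ) ^ 2 * s ^ 4 ≤ h := by nlinarith
  have hh2 : 9 * s ^ 2 ≤ h := by nlinarith
  have hh3 : (2 : ℝ) ≤ h := by nlinarith
  have hh3' : 2 ≤ h := by exact_mod_cast hh3
  have hhpos : 0 < h := by omega
  have hh0 : (0 : ℝ) < h := by linarith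
  obtain ⟨V, hV, hlim⟩ := h2 h (by omega)
  obtain ⟨R0, hR0⟩ := h3 h J s (by omega) hJ1 hs
  set κ := √(1 - s ^ 2 / (5 * h)) with hκ
  have hfrac : s ^ 2 / (5 * h) ≤ 1 / 45 := by
    rw [div_le_div_iff₀ (by positivity) (by norm_num)]
    linarith
  have hκ0 : 0 < κ := Real.sqrt_pos.2 (by linarith)
  have hκh : κ ^ h ≤ η / 4 := by
    have e1 : κ ≤ Real.exp (-(s ^ 2 / (10 * h))) := by
      have : 1 - s ^ 2 / (5 * h) ≤ Real.exp (-(s ^ 2 / (10 * h))) ^ 2 := by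
        rw [← Real.exp_nat_mul]
        have := Real.add_one_le_exp (-(s ^ 2 / (5 * h)))
        have e : ((2 : ℕ) : ℝ) * -(s ^ 2 / (10 * h)) = -(s ^ 2 / (5 * h)) := by
          push_cast
          field_simp
          ring
        rw [e]
        linarith
      rw [hκ]
      calc √(1 - s ^ 2 / (5 * h)) ≤ √(Real.exp (-(s ^ 2 / (10 * h))) ^ 2) :=
            Real.sqrt_le_sqrt this
        _ = _ := Real.sqrt_sq (Real.exp_nonneg _)
    calc κ ^ h ≤ Real.exp (-(s ^ 2 / (10 * h))) ^ h := pow_le_pow_left₀ hκ0.le e1 h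
      _ = Real.exp (-(s ^ 2 / 10)) := by
          rw [← Real.exp_nat_mul]
          congr 1
          field_simp
      _ ≤ η / 4 := hsexp
  set c1 : ℝ := 1 + 30 * (J : ℝ) ^ 2 * s ^ 4 / (h : ℝ) ^ 2 with hc1
  have hc10 : 0 < c1 := by positivity
  have hc1h : c1 ^ h < 3 := by
    have e1 : c1 ≤ Real.exp (1 / h) := by
      have h2 : 30 * (J : ℝ) ^ 2 * s ^ 4 / (h : ℝ) ^ 2 ≤ 1 / h := by
        rw [div_le_div_iff₀ (by positivity) hh0]
        nlinarith
      have := Real.add_one_le_exp (1 / (h : ℝ))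
      rw [hc1]
      linarith
    calc c1 ^ h ≤ Real.exp (1 / h) ^ h := pow_le_pow_left₀ hc10.le e1 h
      _ = Real.exp 1 := by
          rw [← Real.exp_nat_mul]
          congr 1
          field_simp
      _ < 3 := by
          have := Real.exp_one_lt_d9
          linarith
  have hhalf : (1 / 2 : ℝ) ^ h ≤ 1 / 4 := by
    calc (1 / 2 : ℝ) ^ h ≤ (1 / 2 : ℝ) ^ 2 := pow_le_pow_of_le_one (by norm_num) (by norm_num) hh3'
      _ = 1 / 4 := by norm_num
  -- eventual bounds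
  have E1 : ∀ᶠ R : ℕ in atTop, 9 / 10 * V < (cnt h (1 * R) : ℝ) / (R : ℝ) ^ h := by
    refine (hlim 1 one_pos).eventually_const_lt ?_
    rw [one_pow, one_mul]
    linarith
  have E2 : ∀ᶠ R : ℕ in atTop, (cnt h (1 / 2 * R) : ℝ) / (R : ℝ) ^ h < 3 / 10 * V := by
    refine (hlim (1 / 2) (by norm_num)).eventually_lt_const ?_
    nlinarith
  have E3 : ∀ᶠ R : ℕ in atTop, (cnt h (κ * R) : ℝ) / (R : ℝ) ^ h < η / 2 * V := by
    refine (hlim κ hκ0).eventually_lt_const ?_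
    have : κ ^ h * V ≤ η / 4 * V := by gcongr
    nlinarith
  have E4 : ∀ᶠ R : ℕ in atTop, (cnt h (c1 * R) : ℝ) / (R : ℝ) ^ h < 3 * V := by
    refine (hlim c1 hc10).eventually_lt_const ?_
    gcongr
  obtain ⟨R1, hR1⟩ := exists_nat_ge (20 * (h : ℝ) * (4 * h + s))
  obtain ⟨R, ⟨⟨⟨e1, e2⟩, e3⟩, e4⟩, hRge⟩ :=
    ((((E1.and E2).and E3).and E4).and (eventually_ge_atTop (max R0 (max R1 1)))).exists
  have hRR0 : R0 ≤ R := (le_max_left _ _).trans hRge
  have hRR1 : R1 ≤ R := ((le_max_left _ _).trans (le_max_right _ _)).trans hRge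
  have hRone : 1 ≤ R := ((le_max_right _ _).trans (le_max_right _ _)).trans hRge
  have hRpos : (0 : ℝ) < R := by exact_mod_cast hRone
  have hRbig : 20 * (h : ℝ) * (4 * h + s) ≤ R := hR1.trans (by exact_mod_cast hRR1)
  have hRh : (0 : ℝ) < (R : ℝ) ^ h := by positivity
  rw [lt_div_iff₀ hRh, one_mul] at e1
  rw [div_lt_iff₀ hRh] at e2 e3 e4
  set W : ℝ := V * (R : ℝ) ^ h with hW
  have hW0 : 0 < W := by positivity
  have e1' : 9 / 10 * W < cnt h R := by rw [hW]; linarith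
  have e2' : (cnt h (1 / 2 * R) : ℝ) < 3 / 10 * W := by rw [hW]; linarith
  have e3' : (cnt h (κ * R) : ℝ) < η / 2 * W := by rw [hW]; linarith
  have e4' : (cnt h (c1 * R) : ℝ) < 3 * W := by rw [hW]; linarith
  set P : Set (Fin h → ℤ) := {x | (R : ℝ) ^ 2 ≤ 4 * (ns x : ℝ) ∧ (ns x : ℝ) ≤ (R : ℝ) ^ 2} with hP
  have hM : 6 / 10 * W < P.ncard := by
    have : cnt h R ≤ P.ncard + cnt h (1 / 2 * R) := by
      unfold cnt
      refine le_trans (Set.ncard_le_ncard ?_ ?_) (Set.ncard_union_le _ _)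
      · intro x hx
        by_cases c : (R : ℝ) ^ 2 ≤ 4 * (ns x : ℝ)
        · exact Or.inl ⟨c, hx⟩
        · right
          push Not at c
          change (ns x : ℝ) ≤ (1 / 2 * (R : ℝ)) ^ 2
          nlinarith
      · exact ((finite_ball h ((R : ℝ) ^ 2)).subset fun x hx => hx.2).union (finite_ball h _)
    have : (cnt h R : ℝ) ≤ P.ncard + cnt h (1 / 2 * R) := by exact_mod_cast this
    linarith
  have hMpos : 0 < P.ncard := by
    have : (0 : ℝ) < P.ncard := by linarith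
    exact_mod_cast this
  refine config (η := η) hhpos hRpos hs hh2 P hP hMpos ?_ ?_
  · intro A hAP hA
    have hq2 : √(h : ℝ) * √(h : ℝ) = h := Real.mul_self_sqrt hh0.le
    have hq0 : 0 < √(h : ℝ) := Real.sqrt_pos.2 hh0
    have hσ : (s * R / √(h : ℝ)) ^ 2 = s ^ 2 * (R : ℝ) ^ 2 / h := by
      rw [div_pow, mul_pow, sq √(h : ℝ), hq2]
    have h2R : 2 * (h : ℝ) ≤ s * R := by
      have i1 : (1 : ℝ) ≤ 4 * h + s := by linarith
      have i2 : 20 * (h : ℝ) * 1 ≤ 20 * (h : ℝ) * (4 * h + s) := by gcongr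
      have i3 : 1 * (R : ℝ) ≤ s * R := by gcongr
      linarith
    have b1 := h1 h R (s * R / √(h : ℝ)) A hRpos.le (by
      rw [le_div_iff₀ hq0, mul_assoc, hq2]
      exact h2R) (fun a ha => (hAP ha).2) (fun a ha b hb => by rw [hσ]; exact hA a ha b hb)
    have b2 := b1.trans (cnt_mono (by positivity) (radius_bound hhpos hs hh2 hRbig))
    have b3 : (A.ncard : ℝ) ≤ cnt h (κ * R) := Nat.cast_le.2 b2
    have b4 : η * (6 / 10 * W) ≤ η * P.ncard := mul_le_mul_of_nonneg_left hM.le hηpos.le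
    have b5 : 0 < η * W := mul_pos hηpos hW0
    linarith
  · intro x hx
    have b1 := hR0 R hRR0 x hx.1 hx.2
    have b2 : (J : ℝ) * ({y : Fin h → ℤ | (ns y : ℝ) ≤ (R : ℝ) ^ 2 ∧
        4 * |(ip x y : ℝ)| < s ^ 2 * (R : ℝ) ^ 2 / h}.ncard : ℝ) ≤ cnt h (c1 * R) := by
      rw [← Nat.cast_mul]
      exact Nat.cast_le.2 b1
    set S : ℝ := ({y : Fin h → ℤ | (ns y : ℝ) ≤ (R : ℝ) ^ 2 ∧
        4 * |(ip x y : ℝ)| < s ^ 2 * (R : ℝ) ^ 2 / h}.ncard : ℝ) with hS
    have hS0 : 0 ≤ S := Nat.cast_nonneg _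
    have b3 : 6 * S ≤ η * (3 * W) := by
      calc 6 * S ≤ (J * η) * S := by gcongr
        _ = η * (J * S) := by ring
        _ ≤ η * (3 * W) := by
          have : J * S ≤ 3 * W := b2.trans e4'.le
          gcongr
    have b4 : η * (6 / 10 * W) ≤ η * P.ncard := mul_le_mul_of_nonneg_left hM.le hηpos.le
    have b5 : 0 < η * W := mul_pos hηpos hW0
    linarith

end Pool.Agent.W374.RTA4
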